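import Pool.Agent.TH794.HK.LatK
import Pool.Agent.Q218.AT.Hil

/-! # Project LE (local quantum ergodicity, helper218): the statements

Very famous row MP_1906c1_mp (and MP_562b47_mp). Each `S_X` below is a self-contained lemma; the full
proof is in the docstring. -/

set_option autoImplicit false

open scoped BigOperators
open MeasureTheory

namespace Pool.Agent.Q218.LE

open Pool.Agent.H4R2.LO (Zd bx)
open Pool.Agent.TH794.HK (cg ph)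
open Pool.Agent.TH794.QD (rv mv sg Sol rfl')
open Pool.Agent.W788.MFP.Four (T NN adj)

/-- **Second moment of the change of the dispersion relation.** On the torus `T d L = (ℤ/L)^d` let
`cg i k`, `sg i k` be cosine and sine of `2π k_i / L`, `adj k = ∑ 2 cg i k`, `rv N f = N⁻¹ ∑ f`.

Proof. Let `u i = 1 - cg i P0 ∈ [0,2]`, `s i = sg i P0`, `s i ^ 2 = u i (2 - u i)`,
`<f> = rv (f · φ(adj))`.
`adj k - adj (k+P0) = ∑ 2 (u i cg i k + s i sg i k)` (`Pool.Agent.TH794.HK.cg_add`). The weight is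
invariant under the reflections `rfl' i` (`Pool.Agent.TH794.QD.adj_rfl`, `sg_rfl`, and `cg` is
invariant, see `bet_sq`, `bet_odd`, `rv_odd` in `Pool.Agent.TH794.HK.GeoK`) and under permutations of
the coordinates. So all mixed terms with a sine vanish and
`<(adj k - adj (k+P0))^2> = 4 <(∑ u i cg i)^2> + 4 ∑ s i ^ 2 <sg i ^ 2>`, and `<sg i ^ 2>` does not
depend on `i`.
Case 1: all `u i ≤ 1`. Then `s i ^ 2 ≥ u i`, and the second sum is `≥ 4 sl ∑ u i`.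
Case 2: some `u i > 1`. Then `U = ∑ u i ≥ 1`. With `uc = U / d`, for the cyclic shifts (or all
permutations) `π` of the coordinates the mean over `π` of `u ∘ π` is the constant `uc`, so by
convexity of the square and invariance of `<·>` under permutations,
`uc^2 <adj^2> = 4 <(∑ uc cg i)^2> ≤ 4 <(∑ u i cg i)^2>`, and `uc^2 al ≥ U al / d^2`. -/
def S_SYM : Prop :=
  ∀ (d L : ℕ) [NeZero L] (φ : ℝ → ℝ) (P0 : T d L) (i0 : Fin d) (sl al : ℝ),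
    (∀ x, 0 ≤ φ x) → 0 ≤ sl → 0 ≤ al →
    sl ≤ rv (NN d L) (fun k : T d L => sg i0 k ^ 2 * φ (adj k)) →
    al ≤ rv (NN d L) (fun k : T d L => adj k ^ 2 * φ (adj k)) →
    min (4 * sl) (al / d ^ 2) * (∑ i, (1 - cg i P0)) ≤
      rv (NN d L) (fun k : T d L => (adj k - adj (k + P0)) ^ 2 * φ (adj k))

/-- **The correlation of the resolvent with its shift.**

Proof. `A k = (x k - i ω)⁻¹`, so `‖A k‖^2 = 1 / (x k ^ 2 + ω ^ 2)`.
`2 Re (conj (A k) A (sh k)) = ‖A k‖^2 + ‖A (sh k)‖^2 - ‖A k - A (sh k)‖^2`, and `sh` is a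
bijection; so it suffices that `rv ‖A k - A (sh k)‖^2 ≥ c2 B2 / (2 ω (2 C^2 ω^2 + 2 B2))`.
Pointwise `‖A k - A (sh k)‖^2 = ‖A k‖^2 b k ^ 2 / ((x k - b k)^2 + ω^2)` and
`(x - b)^2 + ω^2 ≤ 2 (x^2 + ω^2) + 2 b^2`. Where `x k ^ 2 + ω ^ 2 ≤ C^2 ω^2` this is
`≥ ‖A k‖^2 b k ^ 2 / (2 C^2 ω^2 + 2 B2)`. Where `x k ^ 2 + ω ^ 2 > C^2 ω^2` we have
`‖A k‖^2 ≤ 2 / (x k ^ 2 + C^2 ω^2)` (because `C^2 ≥ 2`... `(C^2 - 2) ω^2 ≤ x^2`), so
`‖A k‖^2 b k^2 ≤ B2 (2 / (C ω)) (C ω / (x k ^ 2 + (C ω)^2))`. In all cases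
`‖A k - A (sh k)‖^2 (2 C^2 ω^2 + 2 B2) ≥ ‖A k‖^2 b k ^ 2 - B2 (2 / (C ω)) (C ω / (x k ^ 2 + (C ω)^2))`.
Average: `≥ c2 B2 / ω - B2 (2 / (C ω)) C0 = c2 B2 / ω - c2 B2 / (2 ω) = c2 B2 / (2 ω)`, because
`C0 = C c2 / 4`. -/
def S_THL : Prop :=
  ∀ (ι : Type) [Fintype ι] (N ω B2 c2 C0 C : ℝ) (x b : ι → ℝ) (sh : ι ≃ ι),
    0 < N → 0 < ω → 0 ≤ B2 → 0 < c2 → C = 4 * C0 / c2 → 2 ≤ C →
    (∀ k, x (sh k) = x k - b k) → (∀ k, b k ^ 2 ≤ B2) →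
    c2 * B2 ≤ rv N (fun k => b k ^ 2 * (ω / (x k ^ 2 + ω ^ 2))) →
    rv N (fun k => (C * ω) / (x k ^ 2 + (C * ω) ^ 2)) ≤ C0 →
    (mv N fun k => (starRingEnd ℂ) ((((x k : ℝ) : ℂ) - (ω : ℂ) * Complex.I)⁻¹) *
        (((x (sh k) : ℝ) : ℂ) - (ω : ℂ) * Complex.I)⁻¹).re ≤
      rv N (fun k => ‖(((x k : ℝ) : ℂ) - (ω : ℂ) * Complex.I)⁻¹‖ ^ 2) -
        1 / 2 * (c2 * B2 / (2 * ω * (2 * C ^ 2 * ω ^ 2 + 2 * B2)))

/-- **A quadratic form in Fourier space.** `ph p x = exp (i p·x)` for `x ∈ ℤ^d`.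

Proof. Let `C(θ) = ∑_{x ∈ Λ} c x e^{-i θ·x}`, `P^(θ) = ∑' P z e^{i θ·z}` (absolutely convergent, of
modulus `≤ 1`), `D(θ) = ∑_{h ∈ [0,R)^d} e^{i θ·h}`. With the normalised Haar measure of the torus
(Mathlib: `UnitAddTorus (Fin d)`, `UnitAddTorus.mFourier`, orthonormality) orthogonality gives
`∑ x, ∑ y, conj (c x) c y P (x - y) = ∫ |C(θ)|^2 P^(∓θ) dθ` (take the sign that fits: `x - y = z`),
`∫ |C|^2 = ∑ ‖c x‖^2` and
`∫ |C D|^2 = ∑'_z ‖∑_h c'(z + h)‖^2`, `c'` the extension by zero.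
Choose the representative `p` of `θ` in `[-π, π]^d`. If `κ^2 ≤ ∑ p i ^ 2` then `|P^| ≤ ε` there (also
for `-p`). If `∑ p i ^ 2 < κ^2` then `|p·h| ≤ d κ R ≤ 1` for `h ∈ [0,R)^d`, so
`|D(p)| ≥ Re D(p) ≥ R^d cos 1 ≥ R^d / 2`, and `|P^| ≤ 1 ≤ 4 |D|^2 / R^(2d)`. In both cases
`Re (|C|^2 P^) ≤ ε |C|^2 + 4 R^(-2d) |C D|^2`; integrate. -/
def S_FOUR : Prop :=
  ∀ (d : ℕ) (Λ : Finset (Zd d)) (c : Zd d → ℂ) (P : Zd d → ℝ) (κ ε : ℝ) (R : ℕ),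
    (∀ z, 0 ≤ P z) → Summable P → ∑' z, P z ≤ 1 → 0 < κ → 0 ≤ ε → 1 ≤ R → d * κ * R ≤ 1 →
    (∀ p : Fin d → ℝ, (∀ i, |p i| ≤ Real.pi) → κ ^ 2 ≤ ∑ i, p i ^ 2 →
      ‖∑' z : Zd d, ph p z * ((P z : ℝ) : ℂ)‖ ≤ ε) →
    (∑ x ∈ Λ, ∑ y ∈ Λ, (starRingEnd ℂ) (c x) * c y * ((P (x - y) : ℝ) : ℂ)).re ≤
      ε * ∑ x ∈ Λ, ‖c x‖ ^ 2 +
      4 * ∑' z : Zd d, ‖(((R : ℝ) ^ d)⁻¹ : ℂ) *
        ∑ h ∈ Fintype.piFinset (fun _ : Fin d => Finset.Ico (0 : ℤ) R),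
          (if z + h ∈ Λ then c (z + h) else 0)‖ ^ 2

/-- **The evolution depends measurably on the potential.** `Sol d V a ψ`: `ψ` is the solution of
norm one of the Schrödinger equation with the potential `V` which starts at `δ_a`
(`Pool.Agent.TH794.QD.Sol`).

Proof. For the potentials `cutV V a n` (`Pool.Agent.Q218.UD`, the potential cut off outside the ball
of radius `n`; bounded) the solution is the exponential series
(`Pool.Agent.Q218.AT.exp_sol`, uniqueness `Pool.Agent.Q218.UD.sol_unique`), whose value at `x` is the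
limit of the partial sums `∑_{k<m} t^k/k! (A^k δ_a)(x)`, and `(A^k δ_a)(x)` is a polynomial in finitely
many values of the potential (induction on `k`). The solutions for `cutV V a n` converge pointwise to
the solution for `V` as `n → ∞` (see the proof of `Pool.Agent.Q218.AT.stat`, `hlim`). Limits of
measurable functions are measurable. (Any other proof is fine.) -/
def S_MEAS : Prop :=
  ∀ (d : ℕ), 1 ≤ d → ∀ (Ω : Type) [MeasurableSpace Ω] (a : Zd d) (W : Ω → Zd d → ℝ)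
    (ψ : Ω → ℝ → Zd d → ℂ),
    (∀ x, Measurable fun ω => W ω x) → (∀ ω, Sol d (W ω) a (ψ ω)) →
    ∀ (t : ℝ) (x : Zd d), Measurable fun ω => ψ ω t x

/-- **Averages over cubes of `a` minus its local average.** `bx b L = {x : ‖x - b‖ ≤ L}` (maximum
norm), `Cd` depends on `d` only.

Proof. Let `Q = z + [0,R)^d`. If `Q ⊆ bx b L`: for each `w`, `‖w‖ ≤ r`,
`|∑_{x ∈ Q} a x - ∑_{x ∈ Q} a (x+w)| ≤ 2 |Q \ (Q + w)| ≤ 2 d r R^(d-1)`; average over `w`; divide by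
`2` and by `R^d`: the cube average is at most `d r / R`, and there are at most `|bx b L|` such `z`.
If `Q` meets `bx b L` and is not contained in it: the cube average is at most `1`, and the number of
such `z` is at most `(2L+R)^d - (2L+2-R)^d ≤ 2 d R (3L)^(d-1) ≤ Cd (R / L) (2L+1)^d`. Otherwise the
average is zero. -/
def S_CUBE : Prop :=
  ∀ d : ℕ, 1 ≤ d → ∃ Cd : ℝ, 0 ≤ Cd ∧ ∀ (a : Zd d → ℝ) (b : Zd d) (r R L : ℕ),
    (∀ x, |a x| ≤ 1) → 1 ≤ R → R ≤ L →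
    ∑' z : Zd d, ‖(((R : ℝ) ^ d)⁻¹ : ℂ) *
        ∑ h ∈ Fintype.piFinset (fun _ : Fin d => Finset.Ico (0 : ℤ) R),
          (if z + h ∈ bx b L then
            (((a (z + h) - ((bx (z + h) r).card : ℝ)⁻¹ * ∑ y ∈ bx (z + h) r, a y) / 2 : ℝ) : ℂ)
            else 0)‖ ^ 2 ≤
      ((d * r / R) ^ 2 + Cd * (R / L)) * (bx b L).card

/-- **The mean of the correlation function.** `Sc ψ Λ c t = ∑_{x,y ∈ Λ} conj (c x) c y |ψ_y(t)(x)|^2`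
(`Pool.Agent.Q218.AT.Sc`). Assume `S_MEAS` and `S_FOUR` (prove
`theorem t_EXP : S_MEAS → S_FOUR → S_EXP`).

Proof. Let `ℙ` be the product measure and `P z = ∫ ω, ∫_0^1 2(1-u) ‖ψ ω 0 (u T) z‖^2 du dℙ`. The
functions `(ω, u) ↦ ψ ω y (u T) x` are measurable in `ω` (`S_MEAS`) and continuous in `u`
(`Sol.cont`), so jointly measurable, and bounded by `1` (`Sol.le_one`, or the norm). The shift
`(τ_y ω) z = ω (z + y)` preserves `ℙ`, and `ψ ω y t x = ψ (τ_y ω) 0 t (x - y)` by uniqueness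
(`Pool.Agent.Q218.UD.sol_unique`), so
`∫ ω, ∫_0^1 2(1-u) ‖ψ ω y (u T) x‖^2 du dℙ = P (x - y)`. `P ≥ 0` and `∑ P = 1` because
`∑_z ‖ψ ω 0 t z‖^2 = 1` and `∫_0^1 2(1-u) du = 1` (Tonelli). For `p` in the cube with
`κ^2 ≤ ∑ p i ^ 2`: `∑' z, ph p z P z = ∫ ω, (∫_0^1 2(1-u) ∑' x, ph p x ‖ψ ω 0 (uT) x‖^2 du) dℙ`
(dominated convergence), the inner integral has modulus `≤ ε` on `G` and `≤ 1` everywhere, so the
modulus is `≤ ε + ℙ(Gᶜ) ≤ 2 ε`. The integral over `ω` of the correlation function is the double sum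
over `Λ` of `conj (c x) c y P (x - y)` (real part); apply `S_FOUR` with `2 ε`. -/
def S_EXP : Prop :=
  ∀ (d : ℕ), 1 ≤ d → ∀ (μ : Measure ℝ) [IsProbabilityMeasure μ] (lam T κ ε : ℝ) (R : ℕ)
    (G : Set (Zd d → ℝ)) (ψ : (Zd d → ℝ) → Zd d → ℝ → Zd d → ℂ),
    (∀ ω a, Sol d (fun x => lam * ω x) a (ψ ω a)) →
    0 < T → 0 < κ → 0 ≤ ε → 1 ≤ R → d * κ * R ≤ 1 → MeasurableSet G →
    1 - ε ≤ (Measure.infinitePi fun _ : Zd d => μ).real G →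
    (∀ ω ∈ G, ∀ p : Fin d → ℝ, (∀ i, |p i| ≤ Real.pi) → κ ^ 2 ≤ ∑ i, p i ^ 2 →
      ‖∫ u in (0 : ℝ)..1, ((2 * (1 - u) : ℝ) : ℂ) *
        ∑' x : Zd d, ph p x * ((‖ψ ω 0 (u * T) x‖ ^ 2 : ℝ) : ℂ)‖ ≤ ε) →
    ∀ (Λ : Finset (Zd d)) (c : Zd d → ℂ), (∀ x, ‖c x‖ ≤ 1) →
      Integrable (fun ω => ∫ u in (0 : ℝ)..1,
        2 * (1 - u) * (Pool.Agent.Q218.AT.Sc (ψ ω) Λ c (u * T)).re)
        (Measure.infinitePi fun _ : Zd d => μ) ∧
      ∫ ω, (∫ u in (0 : ℝ)..1,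
        2 * (1 - u) * (Pool.Agent.Q218.AT.Sc (ψ ω) Λ c (u * T)).re)
        ∂(Measure.infinitePi fun _ : Zd d => μ) ≤
      2 * ε * ∑ x ∈ Λ, ‖c x‖ ^ 2 +
      4 * ∑' z : Zd d, ‖(((R : ℝ) ^ d)⁻¹ : ℂ) *
        ∑ h ∈ Fintype.piFinset (fun _ : Fin d => Finset.Ico (0 : ℤ) R),
          (if z + h ∈ Λ then c (z + h) else 0)‖ ^ 2

end Pool.Agent.Q218.LE
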