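import Pool.Agent.Q218.LE.Conc

/-! The exceptional event for one observable and one box. -/

set_option autoImplicit false
set_option linter.unusedSectionVars false

open scoped BigOperators Topology InnerProductSpace
open MeasureTheory Filter Set ProbabilityTheory

namespace Pool.Agent.Q218.LE

open Pool.Agent.W788.LD.Spec (S)
open Pool.Agent.H4R2.LO (Zd dd bx)
open Pool.Agent.H4R2.LO.Em (card_bx)
open Pool.Agent.TH794.QD (Sol HS hmk hmk_apply hs_sum)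
open Pool.Agent.Q218.AT
open Pool.Agent.Q218.AD (small_rpow)
open Pool.Agent.Q218.UD (exists_solU)

/-- the local average -/
noncomputable def av {d : ℕ} (r : ℕ) (a : Zd d → ℝ) (x : Zd d) : ℝ :=
  ((bx x r).card : ℝ)⁻¹ * ∑ y ∈ bx x r, a y

theorem bx_card_pos {d : ℕ} (x : Zd d) (r : ℕ) : (0 : ℝ) < (bx x r).card := by
  have h : x ∈ bx x r := by
    rw [mem_bx', sub_self, norm_zero]
    exact Nat.cast_nonneg r
  exact_mod_cast Finset.card_pos.2 ⟨x, h⟩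

/-- the local average is a mean -/
theorem av_le {d : ℕ} (r : ℕ) (a : Zd d → ℝ) (x : Zd d) (C : ℝ) (h : ∀ y ∈ bx x r, |a y| ≤ C) :
    |av r a x| ≤ C := by
  unfold av
  have h0 := bx_card_pos x r
  rw [abs_mul, abs_of_pos (inv_pos.2 h0), inv_mul_le_iff₀ h0]
  refine (Finset.abs_sum_le_sum_abs _ _).trans ((Finset.sum_le_sum h).trans ?_)
  rw [Finset.sum_const, nsmul_eq_mul]

theorem av_sub {d : ℕ} (r : ℕ) (a a' : Zd d → ℝ) (x : Zd d) :
    av r a x - av r a' x = av r (fun y => a y - a' y) x := by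
  unfold av
  rw [Finset.sum_sub_distrib, mul_sub]

theorem card_ge {d : ℕ} (hd : 2 ≤ d) (b : Zd d) (L : ℕ) : (L : ℝ) ^ 2 ≤ (bx b L).card := by
  rw [card_bx]
  push_cast
  have h1 : (1 : ℝ) ≤ 2 * L + 1 := by
    have : (0 : ℝ) ≤ L := Nat.cast_nonneg L
    linarith
  calc (L : ℝ) ^ 2 ≤ (2 * L + 1) ^ 2 := by
        have : (0 : ℝ) ≤ L := Nat.cast_nonneg L
        nlinarith
    _ ≤ _ := pow_le_pow_right₀ h1 hd

/-- the numbers -/
theorem num_C (d : ℕ) (hd : 2 ≤ d) (e : ℝ) (he : 0 < e) : ∃ l0 : ℝ, 0 < l0 ∧ ∀ lam : ℝ, 0 < lam →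
    lam ≤ l0 → ∀ T : ℝ, T = lam ^ (-(2024 / 1000) : ℝ) → ∀ (b : Zd d) (L : ℕ),
    lam ^ (-(21 / 10) : ℝ) ≤ L →
      2 * Real.exp (-(e * (bx b L).card) / (4 * (T * lam) ^ 2)) ≤
        Real.exp (-(lam ^ (205 / 100 : ℝ) * (bx b L).card)) := by
  obtain ⟨l1, hl1, hs1⟩ := small_rpow (2 / 1000) (e / 8) (by norm_num) (by positivity)
  refine ⟨min l1 1, by positivity, ?_⟩
  intro lam hlam hlam0 T hT b L hL
  have b1 : lam ≤ l1 := hlam0.trans (min_le_left _ _)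
  have b5 : lam ≤ 1 := hlam0.trans (min_le_right _ _)
  have hTl : (T * lam) ^ 2 = lam ^ (-(2048 / 1000) : ℝ) := by
    have h1 : lam = lam ^ (1 : ℝ) := (Real.rpow_one lam).symm
    rw [hT]
    conv_lhs => rw [h1]
    rw [← Real.rpow_mul hlam.le, ← Real.rpow_add hlam, ← Real.rpow_natCast, ← Real.rpow_mul hlam.le]
    norm_num
  obtain ⟨N, hN⟩ : ∃ N : ℝ, N = (bx b L).card := ⟨_, rfl⟩
  rw [← hN]
  have hL0 : (0 : ℝ) < lam ^ (-(21 / 10) : ℝ) := by positivity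
  have hNL : (lam ^ (-(21 / 10) : ℝ)) ^ 2 ≤ N := by
    rw [hN]
    exact (pow_le_pow_left₀ hL0.le hL 2).trans (card_ge hd b L)
  have hN0 : 0 < N := lt_of_lt_of_le (by positivity) hNL
  have h2 := hs1 lam hlam b1
  have h3 : lam ^ (205 / 100 : ℝ) = lam ^ (2 / 1000 : ℝ) * lam ^ (2048 / 1000 : ℝ) := by
    rw [← Real.rpow_add hlam]
    norm_num
  have h4 : lam ^ (205 / 100 : ℝ) * N ≤ e / 8 * (lam ^ (2048 / 1000 : ℝ) * N) := by
    rw [h3, mul_assoc]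
    exact mul_le_mul_of_nonneg_right h2 (by positivity)
  have h5 : 1 ≤ lam ^ (205 / 100 : ℝ) * N := by
    calc (1 : ℝ) ≤ lam ^ (-(215 / 100) : ℝ) :=
          Real.one_le_rpow_of_pos_of_le_one_of_nonpos hlam b5 (by norm_num)
      _ = lam ^ (205 / 100 : ℝ) * (lam ^ (-(21 / 10) : ℝ)) ^ 2 := by
          rw [← Real.rpow_natCast (lam ^ (-(21 / 10) : ℝ)), ← Real.rpow_mul hlam.le,
            ← Real.rpow_add hlam]
          norm_num
      _ ≤ _ := by gcongr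
  have h6 : -(e * N) / (4 * (T * lam) ^ 2) = -(2 * (e / 8 * (lam ^ (2048 / 1000 : ℝ) * N))) := by
    rw [hTl, Real.rpow_neg hlam.le]
    field_simp
    norm_num
  rw [h6]
  have h7 : (2 : ℝ) ≤ Real.exp 1 := by
    have := Real.add_one_le_exp (1 : ℝ)
    linarith
  calc 2 * Real.exp (-(2 * (e / 8 * (lam ^ (2048 / 1000 : ℝ) * N)))) ≤
      Real.exp 1 * Real.exp (-(2 * (e / 8 * (lam ^ (2048 / 1000 : ℝ) * N)))) := by gcongr
    _ = Real.exp (1 + -(2 * (e / 8 * (lam ^ (2048 / 1000 : ℝ) * N)))) := by rw [← Real.exp_add]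
    _ ≤ _ := by
        apply Real.exp_le_exp.2
        linarith

/-- **one observable and one box** -/
theorem concB (hLIP : S_LIP) (hGAU : S_GAU) (hSPL : S_SPL) (hCUBE : S_CUBE) (hEXP : S_EXP)
    (d : ℕ) (hd : 2 ≤ d) (G0 G1 : ℝ → ℝ)
    (hF : FreeE d G0 G1) (μ : Measure ℝ)
    [IsProbabilityMeasure μ] (hμ : GLip μ) (M V : ℝ) (hV0 : 0 < V) (h1 : Integrable (fun s => s) μ)
    (h2 : Integrable (fun s => (s - M) ^ 2) μ) (hM : ∫ s, s ∂μ = M)
    (hV : ∫ s, (s - M) ^ 2 ∂μ = V) (hT : Tail d μ M) (ε : ℝ) (hε : 0 < ε) :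
    ∃ l0 : ℝ, 0 < l0 ∧ ∀ lam : ℝ, 0 < lam → lam ≤ l0 →
    ∀ a : Zd d → ℝ, (∀ x, |a x| ≤ 1) → ∀ (b : Zd d) (L r : ℕ), lam ^ (-(21 / 10) : ℝ) ≤ L →
    (r : ℝ) ≤ lam ^ (-(2011 / 1000) : ℝ) →
    ∃ G : Set (Zd d → ℝ), MeasurableSet G ∧
      (Measure.infinitePi fun _ : Zd d => μ).real Gᶜ ≤
        Real.exp (-(lam ^ (205 / 100 : ℝ) * (bx b L).card)) ∧
      ∀ ω ∈ G, ∀ (J : Type) (f : J → HS d), Orthonormal ℂ f → ∀ (E : J → ℝ),
      (∀ j x, ‖x - b‖ < L → -S (fun y => f j y) x + ((lam * ω x : ℝ) : ℂ) * f j x =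
        (E j : ℂ) * f j x) →
      ∀ s : Finset J, ∑ j ∈ s, (∑ x ∈ bx b L, (a x - av r a x) * ‖f j x‖ ^ 2) ^ 2 ≤
        ε * (bx b L).card := by
  have hd1 : 1 ≤ d := by omega
  obtain ⟨e, he⟩ : ∃ e, e = ε / 96 := ⟨_, rfl⟩
  have he0 : 0 < e := by rw [he]; positivity
  obtain ⟨l1, hl1, hex⟩ := exB hCUBE hEXP d hd G0 G1 hF μ M V hV0 h1 h2 hM hV hT e he0
  obtain ⟨l2, hl2, hdet⟩ := det hd1 (ε / 8) (by positivity)
  obtain ⟨l3, hl3, hnum⟩ := num_C d hd e he0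
  refine ⟨min l1 (min l2 l3), by positivity, ?_⟩
  intro lam hlam hlam0 a ha b L r hL hr
  have b1 : lam ≤ l1 := hlam0.trans (min_le_left _ _)
  have b2 : lam ≤ l2 := hlam0.trans ((min_le_right _ _).trans (min_le_left _ _))
  have b3 : lam ≤ l3 := hlam0.trans ((min_le_right _ _).trans (min_le_right _ _))
  obtain ⟨T, hTd⟩ : ∃ T, T = lam ^ (-(2024 / 1000) : ℝ) := ⟨_, rfl⟩
  have hT0 : 0 < T := by rw [hTd]; positivity
  choose ψ hψ using fun (ω : Zd d → ℝ) (y : Zd d) =>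
    exists_solU hd1 (fun x => lam * ω x) y
  obtain ⟨c, hc⟩ : ∃ c : Zd d → ℂ, c = fun x => (((a x - av r a x) / 2 : ℝ) : ℂ) := ⟨_, rfl⟩
  have hc1 : ∀ x, ‖c x‖ ≤ 1 := by
    intro x
    rw [hc]
    simp only
    rw [Complex.norm_real, Real.norm_eq_abs, abs_div, abs_of_pos (by norm_num : (0 : ℝ) < 2),
      div_le_one (by norm_num)]
    have h3 := abs_sub (a x) (av r a x)
    have h4 := ha x
    have h5 := av_le r a x 1 fun y _ => ha y
    linarith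
  obtain ⟨i1, i2⟩ := hex lam hlam b1 T hTd ψ hψ a ha b L r hL hr c hc
  have hne : (bx b L).Nonempty := Finset.card_pos.1 (by exact_mod_cast bx_card_pos b L)
  obtain ⟨ω', G, hG, hPG, hGL⟩ := concA hLIP hGAU hSPL hd1 μ hμ lam T e hlam hT0 he0 ψ hψ (bx b L)
    hne c hc1 i1 i2
  refine ⟨G, hG, hPG.trans (hnum lam hlam b3 T hTd b L hL), ?_⟩
  intro ω hω J f hf E he2 s
  have hQ := hGL ω hω
  have key := hdet lam hlam b2 (fun x => lam * (if x ∈ bx b L then ω x else ω' x))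
    (ψ fun x => if x ∈ bx b L then ω x else ω' x) (hψ _) b L hL T hTd c hc1 J f hf E
    (fun j x hx => by
      have h3 : x ∈ bx b L := by
        rw [mem_bx']
        exact hx.le
      simp only [if_pos h3]
      exact he2 j x hx) s
  have h3 : ∀ j, (∑ x ∈ bx b L, (a x - av r a x) * ‖f j x‖ ^ 2) ^ 2 =
      4 * ‖∑ x ∈ bx b L, c x * ((‖f j x‖ ^ 2 : ℝ) : ℂ)‖ ^ 2 := by
    intro j
    have h4 : ∑ x ∈ bx b L, c x * ((‖f j x‖ ^ 2 : ℝ) : ℂ) = (((∑ x ∈ bx b L,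
        (a x - av r a x) * ‖f j x‖ ^ 2) / 2 : ℝ) : ℂ) := by
      rw [hc, Finset.sum_div]
      push_cast
      refine Finset.sum_congr rfl fun x _ => ?_
      ring
    rw [h4, Complex.norm_real, Real.norm_eq_abs, sq_abs]
    ring
  rw [Finset.sum_congr rfl fun j _ => h3 j, ← Finset.mul_sum]
  have h5 : 4 * (2 * (6 * e * ((bx b L).card : ℝ)) + ε / 8 * (bx b L).card) =
      ε * (bx b L).card := by
    rw [he]
    ring
  rw [← h5]
  refine mul_le_mul_of_nonneg_left ?_ (by norm_num)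
  linarith

end Pool.Agent.Q218.LE
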