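import Pool.Agent.Q218.LE.Net

/-! All boxes simultaneously. -/

set_option autoImplicit false
set_option linter.unusedSectionVars false

open scoped BigOperators Topology InnerProductSpace
open MeasureTheory Filter Set ProbabilityTheory

namespace Pool.Agent.Q218.LE

open Pool.Agent.W788.LD.Spec (S)
open Pool.Agent.H4R2.LO (Zd dd bx)
open Pool.Agent.H4R2.LO.Em (card_bx)
open Pool.Agent.TH794.QD (Sol HS hmk hmk_apply hs_sum)
open Pool.Agent.Q218.AT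
open Pool.Agent.Q218.AD (small_rpow)

/-- a union over the sizes -/
theorem union_L {Ω : Type*} [MeasurableSpace Ω] (P : Measure Ω) [IsProbabilityMeasure P]
    (B : ℕ → Set Ω) (N : ℕ) (hN : 1 ≤ N)
    (h : ∀ L : ℕ, N ≤ L → P.real (B L) ≤ Real.exp (-(2 * L))) :
    P.real (⋃ k, B (N + k)) ≤ Real.exp (-N) := by
  have h0 : ∀ k : ℕ, Real.exp (-(2 * ((N + k : ℕ) : ℝ))) = Real.exp (-(2 * N)) * Real.exp (-2) ^ k := by
    intro k
    rw [← Real.exp_nat_mul, ← Real.exp_add]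
    congr 1
    push_cast
    ring
  have he1 : Real.exp (-2) < 1 := by
    rw [Real.exp_lt_one_iff] <;> norm_num
  have hsum : Summable fun k : ℕ => Real.exp (-(2 * ((N + k : ℕ) : ℝ))) := by
    simp only [h0]
    exact (summable_geometric_of_lt_one (Real.exp_pos _).le he1).mul_left _
  have h1 : P (⋃ k, B (N + k)) ≤ ENNReal.ofReal (∑' k : ℕ, Real.exp (-(2 * ((N + k : ℕ) : ℝ)))) := by
    rw [ENNReal.ofReal_tsum_of_nonneg (fun k => (Real.exp_pos _).le) hsum]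
    refine (measure_iUnion_le _).trans (ENNReal.tsum_le_tsum fun k => ?_)
    rw [← ENNReal.ofReal_toReal (measure_ne_top P (B (N + k)))]
    exact ENNReal.ofReal_le_ofReal (h (N + k) (by omega))
  have h2 : ∑' k : ℕ, Real.exp (-(2 * ((N + k : ℕ) : ℝ))) ≤ Real.exp (-N) := by
    simp only [h0]
    rw [tsum_mul_left, tsum_geometric_of_lt_one (Real.exp_pos _).le he1]
    have h3 : Real.exp (-1) ≤ 1 / 2 := by
      rw [Real.exp_neg, inv_le_comm₀ (Real.exp_pos _) (by norm_num)]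
      have := Real.add_one_le_exp (1 : ℝ)
      linarith
    have h4 : Real.exp (-2) ≤ 1 / 2 := by
      refine le_trans ?_ h3
      apply Real.exp_le_exp.2
      norm_num
    have h5 : Real.exp (-(N : ℝ)) ≤ 1 / 2 := by
      refine le_trans ?_ h3
      apply Real.exp_le_exp.2
      have : (1 : ℝ) ≤ N := by exact_mod_cast hN
      linarith
    have h6 : Real.exp (-(2 * (N : ℝ))) = Real.exp (-(N : ℝ)) * Real.exp (-(N : ℝ)) := by
      rw [← Real.exp_add]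
      congr 1
      ring
    rw [h6, mul_assoc]
    have h7 : Real.exp (-(N : ℝ)) * (1 - Real.exp (-2))⁻¹ ≤ 1 := by
      rw [← div_eq_mul_inv, div_le_one (by linarith)]
      linarith
    calc Real.exp (-(N : ℝ)) * (Real.exp (-(N : ℝ)) * (1 - Real.exp (-2))⁻¹) ≤
        Real.exp (-(N : ℝ)) * 1 := mul_le_mul_of_nonneg_left h7 (Real.exp_pos _).le
      _ = _ := mul_one _
  have h3 := ENNReal.toReal_mono ENNReal.ofReal_ne_top h1
  rw [ENNReal.toReal_ofReal (tsum_nonneg fun k => (Real.exp_pos _).le)] at h3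
  exact h3.trans h2

/-- the union over all boxes -/
theorem union_all (d : ℕ) (hd : 2 ≤ d) : ∃ l0 : ℝ, 0 < l0 ∧ ∀ lam : ℝ, 0 < lam → lam ≤ l0 →
    ∀ (P : Measure (Zd d → ℝ)) [IsProbabilityMeasure P] (B : Zd d → ℕ → Set (Zd d → ℝ)),
    (∀ (b : Zd d) (L : ℕ), lam ^ (-(21 / 10) : ℝ) ≤ L →
      P.real (B b L) ≤ Real.exp (-(lam ^ (206 / 100 : ℝ) * (bx b L).card))) →
    ∀ N : ℕ, lam ^ (-(21 / 10) : ℝ) ≤ N →
      P.real (⋃ k : ℕ, ⋃ b ∈ {b : Zd d | Real.log (1 + ‖b‖) ≤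
        lam ^ (21 / 10 : ℝ) * (bx b (N + k)).card}, B b (N + k)) ≤ Real.exp (-N) := by
  have hd0 : (0 : ℝ) < d := by
    have : 0 < d := by omega
    exact_mod_cast this
  obtain ⟨l1, hl1, hs1⟩ := small_rpow (4 / 100) (1 / (4 * d + 4)) (by norm_num) (by positivity)
  refine ⟨min l1 1, by positivity, ?_⟩
  intro lam hlam hlam0 P _ B hB N hN
  have b1 : lam ≤ l1 := hlam0.trans (min_le_left _ _)
  have b5 : lam ≤ 1 := hlam0.trans (min_le_right _ _)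
  have hN1 : 1 ≤ N := by
    have h1 : (1 : ℝ) ≤ lam ^ (-(21 / 10) : ℝ) :=
      Real.one_le_rpow_of_pos_of_le_one_of_nonpos hlam b5 (by norm_num)
    exact_mod_cast h1.trans hN
  refine union_L P (fun L => ⋃ b ∈ {b : Zd d | Real.log (1 + ‖b‖) ≤
        lam ^ (21 / 10 : ℝ) * (bx b L).card}, B b L) N hN1 fun L hL => ?_
  have hLr : lam ^ (-(21 / 10) : ℝ) ≤ L := hN.trans (by exact_mod_cast hL)
  have hL1 : (1 : ℝ) ≤ L := by
    have : 1 ≤ L := by omega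
    exact_mod_cast this
  obtain ⟨n, hn⟩ : ∃ n : ℝ, n = ((2 * L + 1 : ℕ) : ℝ) ^ d := ⟨_, rfl⟩
  have hcard : ∀ b : Zd d, ((bx b L).card : ℝ) = n := by
    intro b
    rw [hn, card_bx]
    push_cast
    rfl
  have hnL : (L : ℝ) ^ 2 ≤ n := by
    rw [← hcard 0]
    exact card_ge hd 0 L
  have hn0 : 0 < n := lt_of_lt_of_le (by positivity) hnL
  obtain ⟨R', hR'⟩ : ∃ R', R' = lam ^ (21 / 10 : ℝ) * n := ⟨_, rfl⟩
  have hR'0 : 0 ≤ R' := by rw [hR']; positivity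
  obtain ⟨R, hR⟩ : ∃ R : ℕ, R = ⌊Real.exp R'⌋₊ := ⟨_, rfl⟩
  have hRe : (R : ℝ) ≤ Real.exp R' := by rw [hR]; exact Nat.floor_le (Real.exp_pos _).le
  have hsub : (⋃ b ∈ {b : Zd d | Real.log (1 + ‖b‖) ≤ lam ^ (21 / 10 : ℝ) * (bx b L).card}, B b L) ⊆
      ⋃ b ∈ bx (0 : Zd d) R, B b L := by
    refine Set.biUnion_subset_biUnion_left fun b hb => ?_
    have hb1 : Real.log (1 + ‖b‖) ≤ R' := by
      rw [hR', ← hcard b]
      exact hb
    show b ∈ bx (0 : Zd d) R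
    rw [mem_bx', sub_zero]
    have h2 : 1 + ‖b‖ ≤ Real.exp R' := by
      rw [← Real.log_le_iff_le_exp (by positivity)]
      exact hb1
    have h3 := Nat.lt_floor_add_one (Real.exp R')
    rw [← hR] at h3
    linarith
  refine (measureReal_mono hsub (measure_ne_top _ _)).trans ?_
  refine (measureReal_biUnion_finset_le _ _).trans ?_
  refine (Finset.sum_le_sum fun b _ => hB b L hLr).trans ?_
  have h1 : ∀ b ∈ bx (0 : Zd d) R, Real.exp (-(lam ^ (206 / 100 : ℝ) * (bx b L).card)) =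
      Real.exp (-(lam ^ (206 / 100 : ℝ) * n)) := fun b _ => by rw [hcard b]
  rw [Finset.sum_congr rfl h1, Finset.sum_const, nsmul_eq_mul, card_bx]
  have he : (1 : ℝ) ≤ Real.exp R' := Real.one_le_exp hR'0
  have h3e : (3 : ℝ) ≤ Real.exp 2 := by
    have := Real.add_one_le_exp (2 : ℝ)
    linarith
  have h2 : (((2 * R + 1) ^ d : ℕ) : ℝ) ≤ Real.exp (d * (2 + R')) := by
    push_cast
    rw [Real.exp_nat_mul, Real.exp_add]
    refine pow_le_pow_left₀ (by positivity) ?_ d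
    nlinarith
  refine (mul_le_mul_of_nonneg_right h2 (Real.exp_pos _).le).trans ?_
  rw [← Real.exp_add]
  apply Real.exp_le_exp.2
  have h4 := hs1 lam hlam b1
  have h5 : (d : ℝ) * R' ≤ 1 / 2 * (lam ^ (206 / 100 : ℝ) * n) := by
    have h6 : lam ^ (21 / 10 : ℝ) = lam ^ (4 / 100 : ℝ) * lam ^ (206 / 100 : ℝ) := by
      rw [← Real.rpow_add hlam]
      norm_num
    rw [hR', h6]
    have h7 : (d : ℝ) * lam ^ (4 / 100 : ℝ) ≤ 1 / 2 := by
      calc (d : ℝ) * lam ^ (4 / 100 : ℝ) ≤ d * (1 / (4 * d + 4)) := by gcongr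
        _ ≤ 1 / 2 := by
          rw [mul_one_div, div_le_div_iff₀ (by positivity) (by norm_num)]
          linarith
    calc (d : ℝ) * (lam ^ (4 / 100 : ℝ) * lam ^ (206 / 100 : ℝ) * n) =
        (d * lam ^ (4 / 100 : ℝ)) * (lam ^ (206 / 100 : ℝ) * n) := by ring
      _ ≤ _ := by gcongr
  have h6 : (4 * d + 4) * (L : ℝ) ≤ lam ^ (206 / 100 : ℝ) * n := by
    have h7 : (4 * (d : ℝ) + 4) ≤ lam ^ (-(4 / 100) : ℝ) := by
      rw [Real.rpow_neg hlam.le, ← one_div, le_one_div (by positivity) (by positivity)]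
      exact h4
    calc (4 * (d : ℝ) + 4) * L ≤ lam ^ (-(4 / 100) : ℝ) * L := by gcongr
      _ = lam ^ (206 / 100 : ℝ) * (lam ^ (-(21 / 10) : ℝ) * L) := by
          rw [← mul_assoc, ← Real.rpow_add hlam]
          norm_num
      _ ≤ lam ^ (206 / 100 : ℝ) * (L * L) := by gcongr
      _ ≤ _ := by
          rw [← sq]
          gcongr
  nlinarith

/-- the conclusion for one box -/
def Good (d : ℕ) (lam s0 ε : ℝ) (a0 : Zd d → ℝ) (ω : Zd d → ℝ) (b : Zd d) (L : ℕ) : Prop :=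
  ∀ ρ : Zd d → ℝ, (∀ x, |ρ x| ≤ 1) → (∀ x y, |ρ x - ρ y| ≤ lam ^ s0 * ‖x - y‖) →
      ∀ r : ℕ, (r : ℝ) ≤ lam ^ (-(2011 / 1000) : ℝ) →
      ∀ (J : Type) (f : J → HS d), Orthonormal ℂ f → ∀ (E : J → ℝ),
      (∀ j x, ‖x - b‖ < L → -S (fun y => f j y) x + ((lam * ω x : ℝ) : ℂ) * f j x =
        (E j : ℂ) * f j x) →
      ∀ s : Finset J, ∑ j ∈ s, (∑ x ∈ bx b L,
        (a0 x * ρ x - av r (fun y => a0 y * ρ y) x) * ‖f j x‖ ^ 2) ^ 2 ≤
        ε * (bx b L).card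

/-- **all boxes, all amplitudes** -/
theorem concD (hLIP : S_LIP) (hGAU : S_GAU) (hSPL : S_SPL) (hNET : S_NET) (hCUBE : S_CUBE)
    (hEXP : S_EXP)
    (d : ℕ) (hd : 2 ≤ d) (G0 G1 : ℝ → ℝ)
    (hF : FreeE d G0 G1) (μ : Measure ℝ)
    [IsProbabilityMeasure μ] (hμ : GLip μ) (M V : ℝ) (hV0 : 0 < V) (h1 : Integrable (fun s => s) μ)
    (h2 : Integrable (fun s => (s - M) ^ 2) μ) (hM : ∫ s, s ∂μ = M)
    (hV : ∫ s, (s - M) ^ 2 ∂μ = V) (hT : Tail d μ M) (s0 ε : ℝ) (hs0 : 206 / 100 ≤ s0 * d)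
    (hs1 : s0 ≤ 2) (hε : 0 < ε) :
    ∃ l0 : ℝ, 0 < l0 ∧ ∀ lam : ℝ, 0 < lam → lam ≤ l0 →
    ∀ a0 : Zd d → ℝ, (∀ x, |a0 x| ≤ 1) →
    (∀ (b : Zd d) (L : ℕ), lam ^ (-(21 / 10) : ℝ) ≤ L →
      ∃ G : Set (Zd d → ℝ), MeasurableSet G ∧
        (Measure.infinitePi fun _ : Zd d => μ).real Gᶜ ≤
          Real.exp (-(lam ^ (206 / 100 : ℝ) * (bx b L).card)) ∧
        ∀ ω ∈ G, Good d lam s0 ε a0 ω b L) ∧
    (∃ G : Set (Zd d → ℝ), MeasurableSet G ∧
      (Measure.infinitePi fun _ : Zd d => μ).real Gᶜ ≤ Real.exp (-(lam ^ (-(21 / 10) : ℝ))) ∧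
      ∀ ω ∈ G, ∀ (b : Zd d) (L : ℕ), lam ^ (-(21 / 10) : ℝ) ≤ L →
        Real.log (1 + ‖b‖) ≤ lam ^ (21 / 10 : ℝ) * (bx b L).card → Good d lam s0 ε a0 ω b L) ∧
    (∀ᵐ ω ∂(Measure.infinitePi fun _ : Zd d => μ), ∃ L0 : ℕ, ∀ (b : Zd d) (L : ℕ), L0 ≤ L →
        Real.log (1 + ‖b‖) ≤ lam ^ (21 / 10 : ℝ) * (bx b L).card → Good d lam s0 ε a0 ω b L) := by
  obtain ⟨l1, hl1, hC⟩ := concC hLIP hGAU hSPL hNET hCUBE hEXP d hd G0 G1 hF μ hμ M V hV0 h1 h2 hM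
    hV hT s0 ε hs0 hs1 hε
  obtain ⟨l2, hl2, hU⟩ := union_all d hd
  refine ⟨min l1 l2, by positivity, ?_⟩
  intro lam hlam hlam0 a0 ha0
  have b1 : lam ≤ l1 := hlam0.trans (min_le_left _ _)
  have b2 : lam ≤ l2 := hlam0.trans (min_le_right _ _)
  have hC' : ∀ (b : Zd d) (L : ℕ), lam ^ (-(21 / 10) : ℝ) ≤ L →
      ∃ G : Set (Zd d → ℝ), MeasurableSet G ∧
        (Measure.infinitePi fun _ : Zd d => μ).real Gᶜ ≤
          Real.exp (-(lam ^ (206 / 100 : ℝ) * (bx b L).card)) ∧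
        ∀ ω ∈ G, Good d lam s0 ε a0 ω b L := fun b L hL => hC lam hlam b1 a0 ha0 b L hL
  have hex : ∀ (b : Zd d) (L : ℕ), ∃ G : Set (Zd d → ℝ), MeasurableSet G ∧
      (lam ^ (-(21 / 10) : ℝ) ≤ L → (Measure.infinitePi fun _ : Zd d => μ).real Gᶜ ≤
          Real.exp (-(lam ^ (206 / 100 : ℝ) * (bx b L).card)) ∧
        ∀ ω ∈ G, Good d lam s0 ε a0 ω b L) := by
    intro b L
    by_cases hL : lam ^ (-(21 / 10) : ℝ) ≤ L
    · obtain ⟨G, hG, hP, hGd⟩ := hC' b L hL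
      exact ⟨G, hG, fun _ => ⟨hP, hGd⟩⟩
    · exact ⟨Set.univ, MeasurableSet.univ, fun h => absurd h hL⟩
  choose G hGm hG using hex
  obtain ⟨Bd, hBd⟩ : ∃ Bd : ℕ → Set (Zd d → ℝ), Bd = fun N => ⋃ k : ℕ, ⋃ b ∈ {b : Zd d |
    Real.log (1 + ‖b‖) ≤ lam ^ (21 / 10 : ℝ) * (bx b (N + k)).card}, (G b (N + k))ᶜ := ⟨_, rfl⟩
  have hBdm : ∀ N, MeasurableSet (Bd N) := by
    intro N
    rw [hBd]
    refine MeasurableSet.iUnion fun k => ?_
    exact MeasurableSet.biUnion (Set.to_countable _) fun b _ => (hGm b (N + k)).compl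
  have hBdP : ∀ N : ℕ, lam ^ (-(21 / 10) : ℝ) ≤ N →
      (Measure.infinitePi fun _ : Zd d => μ).real (Bd N) ≤ Real.exp (-N) := by
    intro N hN
    rw [hBd]
    exact hU lam hlam b2 _ (fun b L => (G b L)ᶜ) (fun b L hL => (hG b L hL).1) N hN
  have hBdG : ∀ N : ℕ, lam ^ (-(21 / 10) : ℝ) ≤ N → ∀ ω, ω ∉ Bd N → ∀ (b : Zd d) (L : ℕ), N ≤ L →
      Real.log (1 + ‖b‖) ≤ lam ^ (21 / 10 : ℝ) * (bx b L).card → Good d lam s0 ε a0 ω b L := by
    intro N hN ω hω b L hNL hb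
    obtain ⟨k, rfl⟩ := Nat.exists_eq_add_of_le hNL
    have hNk : lam ^ (-(21 / 10) : ℝ) ≤ ((N + k : ℕ) : ℝ) := hN.trans (by exact_mod_cast hNL)
    refine (hG b (N + k) hNk).2 ω ?_
    by_contra hcon
    apply hω
    rw [hBd]
    exact Set.mem_iUnion.2 ⟨k, Set.mem_iUnion₂.2 ⟨b, hb, hcon⟩⟩
  refine ⟨hC', ?_, ?_⟩
  · obtain ⟨N, hN⟩ : ∃ N : ℕ, N = ⌈lam ^ (-(21 / 10) : ℝ)⌉₊ := ⟨_, rfl⟩
    have hNge : lam ^ (-(21 / 10) : ℝ) ≤ N := by rw [hN]; exact Nat.le_ceil _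
    refine ⟨(Bd N)ᶜ, (hBdm N).compl, ?_, ?_⟩
    · rw [compl_compl]
      refine (hBdP N hNge).trans ?_
      apply Real.exp_le_exp.2
      linarith
    · intro ω hω b L hL hb
      refine hBdG N hNge ω hω b L ?_ hb
      rw [hN]
      exact Nat.ceil_le.2 hL
  · obtain ⟨N0, hN0⟩ : ∃ N : ℕ, N = ⌈lam ^ (-(21 / 10) : ℝ)⌉₊ := ⟨_, rfl⟩
    have hN0ge : lam ^ (-(21 / 10) : ℝ) ≤ N0 := by rw [hN0]; exact Nat.le_ceil _
    have hge : ∀ k : ℕ, lam ^ (-(21 / 10) : ℝ) ≤ ((N0 + k : ℕ) : ℝ) := fun k =>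
      hN0ge.trans (by push_cast; have : (0 : ℝ) ≤ k := Nat.cast_nonneg k; linarith)
    have hnull : (Measure.infinitePi fun _ : Zd d => μ) (⋂ k, Bd (N0 + k)) = 0 := by
      have h3 : (Measure.infinitePi fun _ : Zd d => μ).real (⋂ k, Bd (N0 + k)) ≤ 0 := by
        refine ge_of_tendsto' (x := atTop) (f := fun k : ℕ => Real.exp (-((N0 + k : ℕ) : ℝ))) ?_ ?_
        · have h4 : Tendsto (fun k : ℕ => ((N0 + k : ℕ) : ℝ)) atTop atTop :=
            tendsto_natCast_atTop_atTop.comp (tendsto_add_atTop_nat N0 |>.congr fun k => by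
              rw [add_comm])
          exact Real.tendsto_exp_neg_atTop_nhds_zero.comp h4
        · intro k
          exact (measureReal_mono (Set.iInter_subset _ k) (measure_ne_top _ _)).trans
            (hBdP (N0 + k) (hge k))
      have h4 : (Measure.infinitePi fun _ : Zd d => μ).real (⋂ k, Bd (N0 + k)) = 0 :=
        le_antisymm h3 measureReal_nonneg
      rwa [measureReal_eq_zero_iff] at h4
    rw [ae_iff]
    refine measure_mono_null ?_ hnull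
    intro ω hω
    rw [Set.mem_iInter]
    intro k
    by_contra hcon
    apply hω
    exact ⟨N0 + k, fun b L hL hb => hBdG (N0 + k) (hge k) ω hcon b L hL hb⟩

end Pool.Agent.Q218.LE
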