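import Pool.Agent.Q218.AT.Hil
import Mathlib.Probability.Distributions.Gaussian.Real
import Mathlib.Probability.ProductMeasure

/-! # Project LE (local quantum ergodicity, helper218): the statements, second part

Very famous row MP_1906c1_mp (and MP_562b47_mp): exponentially small exceptional events, and
observables with a random amplitude. Each `S_X` below is a self-contained lemma; the full proof is in
the docstring. -/

set_option autoImplicit false

open scoped BigOperators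
open MeasureTheory ProbabilityTheory

namespace Pool.Agent.Q218.LE

open Pool.Agent.H4R2.LO (Zd bx)
open Pool.Agent.TH794.QD (Sol)
open Pool.Agent.Q218.AT (Sc)

/-- **The time averaged observable is a Lipschitz function of the potential.**
`Sc ψ Λ c t = ∑_{x,y ∈ Λ} conj (c x) c y |ψ_y(t)(x)|^2`.

Proof. `Pool.Agent.Q218.AT.Ob hψ Λ c t` is the observable `O(t) = e^{-itH} diag(c) e^{itH}` as a vector
of the Hilbert space `HT d` of Hilbert–Schmidt kernels, `Pool.Agent.Q218.AT.Ob_sq` says that the integral is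
`‖Bm O T‖^2`, `Bm O T = ∫_0^1 O(u T) du`. So the left side is at most
`∫_0^1 ‖O(uT) - O'(uT)‖ du`, and it suffices that `‖O(t) - O'(t)‖ ≤ 2 t w`,
`w = (∑_{x ∈ K} (V x - V' x)^2)^(1/2)`. Let `W = V - V'` (supported in `K`), `u_x = ψ x t`,
`u'_x = ψ' x t`, `X = ∑ c y (|W u'_y><u'_y| - |u'_y><W u'_y|)` (the commutator `[W, O'(t)]`).
`‖X‖ ≤ 2 w`: `‖W O'‖^2 = ∑_z (W z)^2 ∑_y |c y|^2 |u'_y(z)|^2 ≤ ∑_z (W z)^2` because the `u'_y` are
orthonormal (`uu_ortho`; `∑_y |u'_y(z)|^2 ≤ 1` is Bessel for `δ_z`), and the same for the other term.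
`f t = ‖O(t) - O'(t)‖^2 = 2 ∑ |c x|^2 - 2 Re ∑_{x,y ∈ Λ} conj (c x) c y |<u_x, u'_y>|^2` (finite sums;
`<u_x(t), u_y(t)> = δ_xy`, `vv_inner`). `d/dt <u_x, u'_y> = i <u_x, W u'_y>` (a finite sum
over `z ∈ K`; the kinetic terms cancel by the symmetry of the operator, compare `cI_deriv` in
`AT/Vol.lean` and `stat` in `AT/Stat.lean`), hence `f' t = 2 Re <O(t) - O'(t), -i X(t)>` because
`Re <O', -i X> = 0` (direct computation) and so `|f'| ≤ 4 w √f`, `f 0 = 0`, which gives
`√f ≤ 2 t w` (e.g. apply the mean value inequality to `√(f + ε)`, or the argument of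
`Pool.Agent.Q218.AT.mv`: fix `t`, and differentiate `s ↦ Re <O(t) - O'(t), U(s)>`). Any other proof (Duhamel formula) is fine. -/
def S_LIP : Prop :=
  ∀ (d : ℕ), 1 ≤ d → ∀ (V V' : Zd d → ℝ) (ψ ψ' : Zd d → ℝ → Zd d → ℂ),
    (∀ a, Sol d V a (ψ a)) → (∀ a, Sol d V' a (ψ' a)) →
    ∀ K : Finset (Zd d), (∀ x, x ∉ K → V x = V' x) →
    ∀ (Λ : Finset (Zd d)) (c : Zd d → ℂ), (∀ x, ‖c x‖ ≤ 1) → ∀ T : ℝ, 0 ≤ T →
    |Real.sqrt (∫ u in (0 : ℝ)..1, 2 * (1 - u) * (Sc ψ Λ c (u * T)).re) -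
      Real.sqrt (∫ u in (0 : ℝ)..1, 2 * (1 - u) * (Sc ψ' Λ c (u * T)).re)| ≤
      T * Real.sqrt (∑ x ∈ K, (V x - V' x) ^ 2)

/-- **Gaussian concentration for finitely many coordinates.**

Proof. `F` depends on the coordinates in `K` only. Transport to `Fin n`, `n = K.card`, and the standard
Gaussian measure of `EuclideanSpace ℝ (Fin n)` (`stdGaussian`; it is the image of the product of the
one-dimensional laws, see the lemmas used in `Pool.Agent.Q189.GB1` and its imports). The set `A = {F ≤ m}` is closed, and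
`F x > m + s` implies `infDist x A ≥ s / Lp`. Maurey's inequality `Q189.GB.maurey`
(`Pool.Agent.Q189.GB1`) gives `exp (s^2 / (4 Lp^2)) P(F > m + s) P(A) ≤ 1`, and `P(A) ≥ 1/2`. -/
def S_GAU : Prop :=
  ∀ (d : ℕ) (K : Finset (Zd d)) (F : (Zd d → ℝ) → ℝ) (Lp m s : ℝ), 0 < Lp → 0 ≤ s →
    (∀ ω ω', |F ω - F ω'| ≤ Lp * Real.sqrt (∑ x ∈ K, (ω x - ω' x) ^ 2)) →
    1 / 2 ≤ (Measure.infinitePi fun _ : Zd d => gaussianReal 0 1).real {ω | F ω ≤ m} →
    (Measure.infinitePi fun _ : Zd d => gaussianReal 0 1).real {ω | m + s < F ω} ≤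
      2 * Real.exp (-s ^ 2 / (4 * Lp ^ 2))

/-- **The uniform law is a Lipschitz image of the Gaussian law.**

Proof. `g x = 2 Φ(x) - 1`, `Φ x = γ (Iic x)` the distribution function (`ProbabilityTheory.cdf`).
`|Φ x - Φ y| = γ (between) ≤ |x - y| / √(2π) ≤ |x - y| / 2` (bound of the density). `Φ` is continuous
and `γ {Φ ≤ u} = u` for `u ∈ (0,1)`, so `2 Φ - 1` has the distribution function `(u + 1)/2` on
`[-1,1]` (`Measure.ext_of_Iic` or `cdf` uniqueness). -/
def S_UNI : Prop :=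
  ∃ g : ℝ → ℝ, (∀ x y, |g x - g y| ≤ |x - y|) ∧
    (gaussianReal 0 1).map g = (ENNReal.ofReal (1 / 2)) • volume.restrict (Set.Icc (-1 : ℝ) 1)

/-- **Freezing the coordinates outside a finite set.**

Proof. The map `(ω, ω') ↦ (x ↦ if x ∈ K then ω x else ω' x)` carries `P × P` to `P`
(`Measure.eq_infinitePi`: on a cylinder both sides are the product of the marginals; a coordinate in
`K` is a function of `ω`, the others are functions of `ω'`). Fubini: for almost every `ω'` the section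
is integrable, and the integral over `ω'` of its integral is `∫ Q`; so for some `ω'` it is `≤ ∫ Q`
(`MeasureTheory.exists_le_integral` on the set of good `ω'`, or by contradiction). -/
def S_SPL : Prop :=
  ∀ (d : ℕ) (μ : Measure ℝ) [IsProbabilityMeasure μ] (K : Finset (Zd d)) (Q : (Zd d → ℝ) → ℝ),
    Integrable Q (Measure.infinitePi fun _ : Zd d => μ) →
    ∃ ω' : Zd d → ℝ,
      Integrable (fun ω => Q fun x => if x ∈ K then ω x else ω' x)
        (Measure.infinitePi fun _ : Zd d => μ) ∧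
      ∫ ω, (Q fun x => if x ∈ K then ω x else ω' x) ∂(Measure.infinitePi fun _ : Zd d => μ) ≤
        ∫ ω, Q ω ∂(Measure.infinitePi fun _ : Zd d => μ)

/-- **A net for the slowly varying functions on a box.** `bx b M = {x : ‖x - b‖ ≤ M}`.

Proof. Cells: `x ↦ q x`, `q x i = ⌊x i / ℓ⌋`; on `bx b M` there are at most `(2 M / ℓ + 3)^d` cells.
Grid: the numbers `θ k`, `|k| ≤ 1/θ`, `k ∈ ℤ`: at most `2/θ + 1` of them, every number of `[-1,1]` is
within `θ` of a number of the grid of absolute value at most one. `𝒩`: the functions which vanish on the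
cells that do not meet `bx b M` and are constant on the other cells with values in the grid:
`(2/θ + 1)^(number of cells) ≤ exp ((2/θ + 1) · number of cells)`. For `ρ` take on each cell the grid
value near `ρ` at one point of the cell: `‖x - y‖ ≤ ℓ` in a cell, so `|ρ x - ρ y| ≤ θ`. -/
def S_NET : Prop :=
  ∀ (d : ℕ) (b : Zd d) (M ℓ : ℕ) (θ : ℝ), 1 ≤ ℓ → 0 < θ → θ ≤ 1 →
    ∃ 𝒩 : Finset (Zd d → ℝ), (∀ f ∈ 𝒩, ∀ x, |f x| ≤ 1) ∧
      (𝒩.card : ℝ) ≤ Real.exp ((2 / θ + 1) * (2 * (M : ℝ) / ℓ + 3) ^ d) ∧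
      ∀ ρ : Zd d → ℝ, (∀ x, |ρ x| ≤ 1) → (∀ x y, |ρ x - ρ y| ≤ θ / ℓ * ‖x - y‖) →
        ∃ f ∈ 𝒩, ∀ x ∈ bx b M, |ρ x - f x| ≤ 2 * θ

end Pool.Agent.Q218.LE
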