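import Pool.Agent.Q218.LE.Fin
import Pool.Agent.Q218.LE.Stm2

/-! The concentration of the correlation function. -/

set_option autoImplicit false
set_option linter.unusedSectionVars false

open scoped BigOperators Topology InnerProductSpace
open MeasureTheory Filter Set ProbabilityTheory

namespace Pool.Agent.Q218.LE

open Pool.Agent.W788.LD.Spec (S)
open Pool.Agent.H4R2.LO (Zd dd bx)
open Pool.Agent.TH794.QD (Sol HS hmk hmk_apply hs_sum)
open Pool.Agent.Q218.AT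

/-- the law is a Lipschitz image of the Gaussian law -/
def GLip (μ : Measure ℝ) : Prop :=
  ∃ g : ℝ → ℝ, (∀ x y, |g x - g y| ≤ |x - y|) ∧ (gaussianReal 0 1).map g = μ

variable {d : ℕ}

/-- functions of finitely many coordinates -/
theorem lip_cont (K : Finset (Zd d)) (F : (Zd d → ℝ) → ℝ) (Lp : ℝ)
    (h : ∀ ω ω', |F ω - F ω'| ≤ Lp * Real.sqrt (∑ x ∈ K, (ω x - ω' x) ^ 2)) : Continuous F := by
  rw [continuous_iff_continuousAt]
  intro ω
  rw [ContinuousAt, tendsto_iff_norm_sub_tendsto_zero]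
  have h1 : Continuous fun ω' : Zd d → ℝ => Lp * Real.sqrt (∑ x ∈ K, (ω' x - ω x) ^ 2) := by
    fun_prop
  have h2 := h1.tendsto ω
  simp only [sub_self, ne_eq, OfNat.ofNat_ne_zero, not_false_eq_true, zero_pow,
    Finset.sum_const_zero, Real.sqrt_zero, mul_zero] at h2
  refine squeeze_zero (fun _ => norm_nonneg _) (fun ω' => ?_) h2
  rw [Real.norm_eq_abs]
  exact h ω' ω

/-- **the correlation function is small with a probability exponentially close to one** -/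
theorem concA (hLIP : S_LIP) (hGAU : S_GAU) (hSPL : S_SPL) (hd : 1 ≤ d) (μ : Measure ℝ)
    [IsProbabilityMeasure μ] (hμ : GLip μ) (lam T e : ℝ) (hlam : 0 < lam) (hT : 0 < T) (he : 0 < e)
    (ψ : (Zd d → ℝ) → Zd d → ℝ → Zd d → ℂ) (hψ : ∀ ω a, Sol d (fun x => lam * ω x) a (ψ ω a))
    (Λ : Finset (Zd d)) (hΛ : Λ.Nonempty) (c : Zd d → ℂ) (hc : ∀ x, ‖c x‖ ≤ 1)
    (hQi : Integrable (fun ω => ∫ u in (0 : ℝ)..1, 2 * (1 - u) * (Sc (ψ ω) Λ c (u * T)).re)
        (Measure.infinitePi fun _ : Zd d => μ))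
    (hQe : ∫ ω, (∫ u in (0 : ℝ)..1, 2 * (1 - u) * (Sc (ψ ω) Λ c (u * T)).re)
        ∂(Measure.infinitePi fun _ : Zd d => μ) ≤ e * Λ.card) :
    ∃ (ω' : Zd d → ℝ) (G : Set (Zd d → ℝ)), MeasurableSet G ∧
      (Measure.infinitePi fun _ : Zd d => μ).real Gᶜ ≤
        2 * Real.exp (-(e * Λ.card) / (4 * (T * lam) ^ 2)) ∧
      ∀ ω ∈ G, ∫ u in (0 : ℝ)..1,
        2 * (1 - u) * (Sc (ψ fun x => if x ∈ Λ then ω x else ω' x) Λ c (u * T)).re ≤
          6 * e * Λ.card := by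
  obtain ⟨g, hg, hgμ⟩ := hμ
  obtain ⟨Q, hQ⟩ : ∃ Q : (Zd d → ℝ) → ℝ, Q = fun ω => ∫ u in (0 : ℝ)..1,
    2 * (1 - u) * (Sc (ψ ω) Λ c (u * T)).re := ⟨_, rfl⟩
  have hQω : ∀ ω, ∫ u in (0 : ℝ)..1, 2 * (1 - u) * (Sc (ψ ω) Λ c (u * T)).re = Q ω := by
    intro ω
    rw [hQ]
  rw [← hQ] at hQi hQe
  have hQ0 : ∀ ω, 0 ≤ Q ω := by
    intro ω
    rw [← hQω, ← Ob_sq hd (hψ ω)]
    exact sq_nonneg _
  obtain ⟨ω', hi, hle⟩ := hSPL d μ Λ Q hQi
  obtain ⟨Qs, hQs⟩ : ∃ Qs : (Zd d → ℝ) → ℝ, Qs = fun ω => Q fun x => if x ∈ Λ then ω x else ω' x :=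
    ⟨_, rfl⟩
  rw [← hQs] at hi hle
  have hQs0 : ∀ ω, 0 ≤ Qs ω := fun ω => by
    rw [hQs]
    exact hQ0 _
  have hN : (0 : ℝ) < Λ.card := by exact_mod_cast hΛ.card_pos
  -- the Lipschitz bound
  have hlip : ∀ ω1 ω2, |Real.sqrt (Qs ω1) - Real.sqrt (Qs ω2)| ≤
      T * lam * Real.sqrt (∑ x ∈ Λ, (ω1 x - ω2 x) ^ 2) := by
    intro ω1 ω2
    have h1 := hLIP d hd _ _ _ _ (hψ fun x => if x ∈ Λ then ω1 x else ω' x)
      (hψ fun x => if x ∈ Λ then ω2 x else ω' x) Λ (fun x hx => by rw [if_neg hx, if_neg hx]) Λ c hc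
      T hT.le
    rw [hQω, hQω] at h1
    have h2 : Real.sqrt (∑ x ∈ Λ, (lam * (if x ∈ Λ then ω1 x else ω' x) -
        lam * (if x ∈ Λ then ω2 x else ω' x)) ^ 2) =
        lam * Real.sqrt (∑ x ∈ Λ, (ω1 x - ω2 x) ^ 2) := by
      have h3 : ∑ x ∈ Λ, (lam * (if x ∈ Λ then ω1 x else ω' x) -
        lam * (if x ∈ Λ then ω2 x else ω' x)) ^ 2 = lam ^ 2 * ∑ x ∈ Λ, (ω1 x - ω2 x) ^ 2 := by
        rw [Finset.mul_sum]
        refine Finset.sum_congr rfl fun x hx => ?_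
        rw [if_pos hx, if_pos hx]
        ring
      rw [h3, Real.sqrt_mul (sq_nonneg _), Real.sqrt_sq hlam.le]
    rw [h2, ← mul_assoc] at h1
    rw [hQs]
    exact h1
  have hcont := lip_cont Λ (fun ω => Real.sqrt (Qs ω)) (T * lam) hlip
  -- the law
  have hgc : Continuous g := by
    rw [continuous_iff_continuousAt]
    intro x
    rw [ContinuousAt, tendsto_iff_norm_sub_tendsto_zero]
    have h2 : Tendsto (fun y => |y - x|) (𝓝 x) (𝓝 0) := by
      have h3 : Continuous fun y : ℝ => |y - x| := by fun_prop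
      have h4 := h3.tendsto x
      simpa using h4
    refine squeeze_zero (fun _ => norm_nonneg _) (fun y => ?_) h2
    rw [Real.norm_eq_abs]
    exact hg y x
  have hgm := hgc.measurable
  have hlaw : (Measure.infinitePi fun _ : Zd d => gaussianReal 0 1).map (fun ω x => g (ω x)) =
      Measure.infinitePi fun _ : Zd d => μ := by
    have h1 := Measure.infinitePi_map_pi (μ := fun _ : Zd d => gaussianReal 0 1)
      (f := fun _ (s : ℝ) => g s) (fun _ => hgm)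
    rw [h1, hgμ]
  have hGm : Measurable (fun (ω : Zd d → ℝ) x => g (ω x)) :=
    measurable_pi_lambda _ fun x => hgm.comp (measurable_pi_apply x)
  obtain ⟨Pm, hPm⟩ : ∃ Pm : Measure (Zd d → ℝ), Pm = Measure.infinitePi fun _ : Zd d => μ :=
    ⟨_, rfl⟩
  obtain ⟨Pg, hPg⟩ : ∃ Pg : Measure (Zd d → ℝ), Pg = Measure.infinitePi fun _ : Zd d =>
    gaussianReal 0 1 := ⟨_, rfl⟩
  have hPp : IsProbabilityMeasure Pm := by rw [hPm]; infer_instance
  rw [← hPm] at hi hle hQe ⊢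
  rw [← hPm, ← hPg] at hlaw
  obtain ⟨q, hq⟩ : ∃ q, q = Real.sqrt (e * Λ.card) := ⟨_, rfl⟩
  have hq0 : 0 < q := by rw [hq]; positivity
  have hq2 : q ^ 2 = e * Λ.card := by rw [hq, Real.sq_sqrt (by positivity)]
  have hs2 : Real.sqrt 2 ^ 2 = 2 := Real.sq_sqrt (by norm_num)
  have hs20 : 0 < Real.sqrt 2 := by positivity
  have hmle : ∀ m : ℝ, MeasurableSet {ω | Real.sqrt (Qs ω) ≤ m} := fun m =>
    measurableSet_le hcont.measurable measurable_const
  -- the median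
  have hmed : 1 / 2 ≤ Pm.real {ω | Real.sqrt (Qs ω) ≤ Real.sqrt 2 * q} := by
    have h1 := mul_meas_ge_le_integral_of_nonneg (Filter.Eventually.of_forall hQs0) hi
      (2 * (e * Λ.card))
    have h2 : Pm.real {ω | 2 * (e * Λ.card) ≤ Qs ω} ≤ 1 / 2 := by
      have h3 := h1.trans (hle.trans hQe)
      have h4 : e * (Λ.card : ℝ) = 2 * (e * Λ.card) * (1 / 2) := by ring
      rw [h4] at h3
      exact le_of_mul_le_mul_left (by linarith) (mul_pos two_pos (mul_pos he hN))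
    have h5 := probReal_add_probReal_compl (μ := Pm) (hmle (Real.sqrt 2 * q))
    have h6 : {ω | Real.sqrt (Qs ω) ≤ Real.sqrt 2 * q}ᶜ ⊆ {ω | 2 * (e * Λ.card) ≤ Qs ω} := by
      intro ω hω
      have h7 : Real.sqrt 2 * q < Real.sqrt (Qs ω) := by
        by_contra hcon
        exact hω (not_lt.1 hcon)
      have h8 := pow_lt_pow_left₀ h7 (by positivity) two_ne_zero
      rw [Real.sq_sqrt (hQs0 ω), mul_pow, hs2, hq2] at h8
      exact h8.le
    have h7 := measureReal_mono (μ := Pm) h6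
    linarith
  have hmed' : 1 / 2 ≤ Pg.real {ζ | (fun ζ : Zd d → ℝ => Real.sqrt (Qs fun x => g (ζ x))) ζ ≤
      Real.sqrt 2 * q} := by
    rw [← hlaw, map_measureReal_apply hGm (hmle _)] at hmed
    exact hmed
  have hlip' : ∀ ζ ζ', |(fun ζ : Zd d → ℝ => Real.sqrt (Qs fun x => g (ζ x))) ζ -
      (fun ζ : Zd d → ℝ => Real.sqrt (Qs fun x => g (ζ x))) ζ'| ≤
      T * lam * Real.sqrt (∑ x ∈ Λ, (ζ x - ζ' x) ^ 2) := by
    intro ζ ζ'
    refine (hlip _ _).trans ?_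
    refine mul_le_mul_of_nonneg_left (Real.sqrt_le_sqrt (Finset.sum_le_sum fun x _ => ?_))
      (by positivity)
    rw [← sq_abs (g (ζ x) - g (ζ' x)), ← sq_abs (ζ x - ζ' x)]
    exact pow_le_pow_left₀ (abs_nonneg _) (hg _ _) 2
  rw [hPg] at hmed'
  have hcon := hGAU d Λ _ (T * lam) (Real.sqrt 2 * q) q (by positivity) hq0.le hlip' hmed'
  rw [← hPg, hq2] at hcon
  refine ⟨ω', {ω | Real.sqrt (Qs ω) ≤ Real.sqrt 2 * q + q}, hmle _, ?_, ?_⟩
  · rw [← hlaw, map_measureReal_apply hGm (hmle _).compl]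
    refine le_trans (measureReal_mono (μ := Pg) ?_ ?_) hcon
    · intro ζ hζ
      have h1 : ¬ Real.sqrt (Qs fun x => g (ζ x)) ≤ Real.sqrt 2 * q + q := hζ
      exact not_le.1 h1
    · rw [hPg]
      exact measure_ne_top _ _
  · intro ω hω
    have h1 : Real.sqrt (Qs ω) ≤ Real.sqrt 2 * q + q := hω
    have h2 := pow_le_pow_left₀ (Real.sqrt_nonneg _) h1 2
    rw [Real.sq_sqrt (hQs0 ω)] at h2
    have h3 : (Real.sqrt 2 * q + q) ^ 2 = (Real.sqrt 2 + 1) ^ 2 * q ^ 2 := by ring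
    have h4 : (Real.sqrt 2 + 1) ^ 2 ≤ 6 := by
      have h5 : Real.sqrt 2 ≤ 3 / 2 := by
        rw [Real.sqrt_le_left (by norm_num)]
        norm_num
      have h6 : (Real.sqrt 2 + 1) ^ 2 = Real.sqrt 2 ^ 2 + 2 * Real.sqrt 2 + 1 := by ring
      rw [h6, hs2]
      linarith
    rw [h3, hq2] at h2
    have h7 : (Real.sqrt 2 + 1) ^ 2 * (e * (Λ.card : ℝ)) ≤ 6 * (e * Λ.card) :=
      mul_le_mul_of_nonneg_right h4 (by positivity)
    rw [hQω]
    have h8 : Qs ω = Q (fun x => if x ∈ Λ then ω x else ω' x) := by rw [hQs]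
    rw [← h8]
    linarith

end Pool.Agent.Q218.LE
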