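import Pool.Agent.Q218.AT.Vol4

/-! The deterministic bound for the functions which satisfy the eigenvalue equation in the interior
of a box. -/

set_option autoImplicit false
set_option linter.unusedSectionVars false

open scoped BigOperators Topology InnerProductSpace
open MeasureTheory Filter Set

namespace Pool.Agent.Q218.LE

open Pool.Agent.W788.LD.Spec (S)
open Pool.Agent.H4R2.LO (Zd dd bx)
open Pool.Agent.TH794.QD (Sol HS hmk hmk_apply hs_sum)
open Pool.Agent.Q218.AD (Cw small_rpow)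
open Pool.Agent.Q218.AT

variable {d : ℕ}

/-- the numerical estimates -/
theorem at_num2 (d : ℕ) (hd : 1 ≤ d) (ε : ℝ) (hε : 0 < ε) : ∃ l0 : ℝ, 0 < l0 ∧ ∀ lam : ℝ, 0 < lam →
    lam ≤ l0 → ∀ T : ℝ, T = lam ^ (-(2024 / 1000) : ℝ) → ∀ L : ℕ, lam ^ (-(21 / 10) : ℝ) ≤ L →
      ∃ m : ℕ, m ≤ L ∧ 12 * d * T ≤ m ∧
        Cw d * 2 ^ (d + 1) * Real.exp (-(T / 2)) + d * (2 * m / (2 * L + 1)) ≤ ε := by
  have hCw : 0 ≤ Cw d := by unfold Cw; positivity
  have hd1 : (1 : ℝ) ≤ d := by exact_mod_cast hd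
  obtain ⟨l3, hl3, hs3⟩ := small_rpow (76 / 1000) (min 1 (ε / 2 / d) / (13 * d)) (by norm_num)
    (by positivity)
  obtain ⟨l4, hl4, hs4⟩ := small_rpow (2024 / 1000) (ε / 2 / (2 * (Cw d * 2 ^ (d + 1) + 1)))
    (by norm_num) (by positivity)
  refine ⟨min (min l3 l4) 1, by positivity, ?_⟩
  intro lam hlam hlam0 T hT L hL
  have b3 : lam ≤ l3 := hlam0.trans ((min_le_left _ _).trans (min_le_left _ _))
  have b4 : lam ≤ l4 := hlam0.trans ((min_le_left _ _).trans (min_le_right _ _))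
  have b5 : lam ≤ 1 := hlam0.trans (min_le_right _ _)
  have hT1 : 1 ≤ T := by
    rw [hT]
    exact Real.one_le_rpow_of_pos_of_le_one_of_nonpos hlam b5 (by norm_num)
  have hT0 : 0 < T := by linarith
  have h1 : (⌈12 * d * T⌉₊ : ℝ) ≤ 13 * d * T := by
    have h2 := (Nat.ceil_lt_add_one (by positivity : 0 ≤ 12 * d * T)).le
    have h4 : 1 ≤ (d : ℝ) * T := one_le_mul_of_one_le_of_one_le hd1 hT1
    linarith
  have h2 := hs3 lam hlam b3
  have h3 : T = lam ^ (76 / 1000 : ℝ) * lam ^ (-(21 / 10) : ℝ) := by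
    rw [hT, ← Real.rpow_add hlam]
    norm_num
  have hL0 : 0 < (L : ℝ) := lt_of_lt_of_le (by positivity) hL
  have hTL : T ≤ min 1 (ε / 2 / d) / (13 * d) * L := by
    rw [h3]
    gcongr
  refine ⟨⌈12 * d * T⌉₊, ?_, Nat.le_ceil _, ?_⟩
  · have h5 : (⌈12 * d * T⌉₊ : ℝ) ≤ (L : ℝ) := by
      refine h1.trans ?_
      calc 13 * d * T ≤ 13 * d * (min 1 (ε / 2 / d) / (13 * d) * L) := by gcongr
        _ = min 1 (ε / 2 / d) * L := by field_simp
        _ ≤ 1 * L := by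
            gcongr
            exact min_le_left _ _
        _ = L := one_mul _
    exact_mod_cast h5
  · have h4 : d * (2 * (⌈12 * d * T⌉₊ : ℝ) / (2 * L + 1)) ≤ ε / 2 := by
      have h5 : 2 * (⌈12 * d * T⌉₊ : ℝ) / (2 * L + 1) ≤ (⌈12 * d * T⌉₊ : ℝ) / L := by
        rw [div_le_div_iff₀ (by positivity) hL0]
        have : (0 : ℝ) ≤ (⌈12 * d * T⌉₊ : ℝ) := Nat.cast_nonneg _
        nlinarith
      have h6 : (⌈12 * d * T⌉₊ : ℝ) / L ≤ ε / 2 / d := by
        rw [div_le_iff₀ hL0]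
        refine h1.trans ?_
        calc 13 * d * T ≤ 13 * d * (min 1 (ε / 2 / d) / (13 * d) * L) := by gcongr
          _ = min 1 (ε / 2 / d) * L := by field_simp
          _ ≤ ε / 2 / d * L := by
              gcongr
              exact min_le_right _ _
      calc d * (2 * (⌈12 * d * T⌉₊ : ℝ) / (2 * L + 1)) ≤ d * (ε / 2 / d) :=
            mul_le_mul_of_nonneg_left (h5.trans h6) (by positivity)
        _ = ε / 2 := by field_simp
    have h5 : Cw d * 2 ^ (d + 1) * Real.exp (-(T / 2)) ≤ ε / 2 := by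
      have h6 : Real.exp (-(T / 2)) ≤ 2 * lam ^ (2024 / 1000 : ℝ) := by
        rw [Real.exp_neg]
        have h7 : T / 2 ≤ Real.exp (T / 2) := by linarith [Real.add_one_le_exp (T / 2)]
        have h9 : (Real.exp (T / 2))⁻¹ ≤ (T / 2)⁻¹ := inv_anti₀ (by positivity) h7
        refine h9.trans (le_of_eq ?_)
        rw [inv_div, hT, Real.rpow_neg hlam.le]
        field_simp
      have h7 := hs4 lam hlam b4
      calc Cw d * 2 ^ (d + 1) * Real.exp (-(T / 2)) ≤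
            (Cw d * 2 ^ (d + 1) + 1) * (2 * lam ^ (2024 / 1000 : ℝ)) := by
            gcongr
            linarith
        _ ≤ (Cw d * 2 ^ (d + 1) + 1) * (2 * (ε / 2 / (2 * (Cw d * 2 ^ (d + 1) + 1)))) := by gcongr
        _ = ε / 2 := by field_simp
    linarith

theorem det (hd : 1 ≤ d) (ε : ℝ) (hε : 0 < ε) :
    ∃ l0 : ℝ, 0 < l0 ∧ ∀ lam : ℝ, 0 < lam → lam ≤ l0 →
    ∀ (W : Zd d → ℝ) (ψ : Zd d → ℝ → Zd d → ℂ),
    (∀ a, Sol d W a (ψ a)) → ∀ (b : Zd d) (L : ℕ), lam ^ (-(21 / 10) : ℝ) ≤ L →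
    ∀ T : ℝ, T = lam ^ (-(2024 / 1000) : ℝ) → ∀ c : Zd d → ℂ, (∀ x, ‖c x‖ ≤ 1) →
    ∀ (J : Type) (f : J → HS d), Orthonormal ℂ f → ∀ (E : J → ℝ),
      (∀ j x, ‖x - b‖ < L → -S (fun y => f j y) x + (W x : ℂ) * f j x = (E j : ℂ) * f j x) →
      ∀ s : Finset J, ∑ j ∈ s, ‖∑ x ∈ bx b L, c x * ((‖f j x‖ ^ 2 : ℝ) : ℂ)‖ ^ 2 ≤
        2 * (∫ u in (0 : ℝ)..1, 2 * (1 - u) * (Sc ψ (bx b L) c (u * T)).re) +
        ε * (bx b L).card := by
  obtain ⟨ε1, hε1⟩ : ∃ ε1, ε1 = min ε 1 / 8 := ⟨_, rfl⟩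
  have hε10 : 0 < ε1 := by rw [hε1]; positivity
  have hε1e : ε1 ≤ ε / 8 := by
    rw [hε1]
    have := min_le_left ε 1
    linarith
  have hε11 : ε1 ≤ 1 / 8 := by
    rw [hε1]
    have := min_le_right ε 1
    linarith
  obtain ⟨T2, hT2⟩ := vol_num d (ε / 64) (by positivity)
  obtain ⟨l1, hl1, hs1⟩ := at_num2 d hd (ε1 / 32) (by positivity)
  obtain ⟨l2, hl2, hs2⟩ := small_rpow (2024 / 1000) (1 / (max T2 1)) (by norm_num) (by positivity)
  refine ⟨min l1 (min l2 1), by positivity, ?_⟩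
  intro lam hlam hlam0 W ψ hψ b L hL T hT c hc J f hf E he F
  have b1 : lam ≤ l1 := hlam0.trans (min_le_left _ _)
  have b2 : lam ≤ l2 := hlam0.trans ((min_le_right _ _).trans (min_le_left _ _))
  have b3 : lam ≤ 1 := hlam0.trans ((min_le_right _ _).trans (min_le_right _ _))
  have hT0 : 0 < T := by rw [hT]; positivity
  obtain ⟨m, hmL, hmT, hm1⟩ := hs1 lam hlam b1 T hT L hL
  have hd1 : (1 : ℝ) ≤ d := by exact_mod_cast hd
  have hCw : 0 ≤ Cw d := by unfold Cw; positivity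
  obtain ⟨εo, hεo⟩ : ∃ εo, εo = Cw d * 2 ^ (d + 1) * Real.exp (-(T / 2)) := ⟨_, rfl⟩
  have hεo0 : 0 ≤ εo := by rw [hεo]; positivity
  rw [← hεo] at hm1
  have hT2' : T2 ≤ T := by
    have h1 := hs2 lam hlam b2
    have h2 : lam ^ (2024 / 1000 : ℝ) = T⁻¹ := by
      rw [hT, Real.rpow_neg hlam.le, inv_inv]
    rw [h2, one_div] at h1
    have h3 : max T2 1 ≤ T := (inv_le_inv₀ hT0 (by positivity)).1 h1
    exact (le_max_left _ _).trans h3
  have hδ := hT2 T hT2'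
  rw [← hεo] at hδ
  obtain ⟨δ, hδd⟩ : ∃ δ, δ = 2 * Real.sqrt (2 * ((2 * d * T) ^ 2 + 1) * εo) := ⟨_, rfl⟩
  have hδ0 : 0 ≤ δ := by rw [hδd]; positivity
  rw [← hδd] at hδ
  -- the boundary layer
  have hL0 : (0 : ℝ) < 2 * L + 1 := by positivity
  have hm0 : (0 : ℝ) ≤ m := Nat.cast_nonneg m
  have hmpos : (1 : ℝ) ≤ m := by
    have h1 : (0 : ℝ) < m := lt_of_lt_of_le (by positivity) hmT
    have h2 : 0 < m := by exact_mod_cast h1
    exact_mod_cast h2
  have hz : (d : ℝ) * (2 * m / (2 * L + 1)) ≤ ε1 / 32 := by linarith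
  have hz2 : 2 * (m : ℝ) / (2 * L + 1) ≤ 1 / 256 := by
    have h1 : 2 * (m : ℝ) / (2 * L + 1) ≤ d * (2 * m / (2 * L + 1)) :=
      le_mul_of_one_le_left (by positivity) hd1
    linarith
  have hmL3 : m + 2 ≤ L := by
    rw [div_le_iff₀ hL0] at hz2
    have h1 : ((m + 2 : ℕ) : ℝ) ≤ L := by
      push_cast
      linarith
    exact_mod_cast h1
  have hL1 : 1 ≤ L := by omega
  have hm2 : ((m + 2 : ℕ) : ℝ) ≤ 3 * m := by
    push_cast
    linarith
  have hbd : ((bx b L \ bx b (L - (m + 2))).card : ℝ) ≤ 3 * ε1 / 32 * (bx b L).card := by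
    refine (bx_sdiff b L (m + 2) hmL3).trans ?_
    refine mul_le_mul_of_nonneg_right ?_ (Nat.cast_nonneg _)
    calc (d : ℝ) * (2 * ((m + 2 : ℕ) : ℝ) / (2 * L + 1)) ≤ d * (2 * (3 * m) / (2 * L + 1)) := by
          gcongr
      _ = 3 * (d * (2 * m / (2 * L + 1))) := by ring
      _ ≤ 3 * (ε1 / 32) := by linarith
      _ = 3 * ε1 / 32 := by ring
  obtain ⟨g1, g2⟩ := geo b L hL1
  have hcL : ((L - 1 : ℕ) : ℝ) = L - 1 := by push_cast [Nat.cast_sub hL1]; rfl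
  have hcm : ((L - (m + 2) : ℕ) : ℝ) = L - (m + 2) := by
    push_cast [Nat.cast_sub hmL3]
    rfl
  have hD : ∀ t ∈ Set.Icc (0 : ℝ) T, ∑ j ∈ F, Dj hψ (bx b L) (f j) t ≤
      (δ + 3 * ε1 / 16) * (bx b L).card := by
    intro t ht
    have h1 := Dj_sum hψ (bx b L) (bx b (L - (m + 2))) (bx_sub b L (m + 2)) f hf F t δ hδ0
      (fun a ha => by
        rw [mem_bx', hcm] at ha
        rw [hδd]
        refine deep hψ (bx b (L - 1)) {z : Zd d | (L : ℝ) - 2 ≤ ‖z - b‖} g1 g2 a ?_ T εo hεo0 ?_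
          f hf E ?_ F t ht
        · rw [mem_bx', hcL]
          linarith
        · intro r hr
          rw [hεo]
          refine out_small hd (hψ a) T hT0 m hmT r ?_ _ fun z hz => ?_
          · rw [abs_of_nonneg hr.1]
            exact hr.2
          · have h2 : (L : ℝ) - 2 ≤ ‖z - b‖ := hz
            have h3 := norm_sub_le_norm_sub_add_norm_sub z a b
            linarith
        · intro j x hx
          rw [mem_bx', hcL] at hx
          exact he j x (by linarith))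
    refine h1.trans ?_
    linarith
  have key := Ob_app hd hψ (bx b L) c hc f hf T ((δ + 3 * ε1 / 16) * (bx b L).card) hT0.le F hD
  refine key.trans ?_
  have hc0 : (0 : ℝ) ≤ ((bx b L).card : ℝ) := Nat.cast_nonneg _
  have h5 : 4 * ((δ + 3 * ε1 / 16) * (bx b L).card) ≤ ε * (bx b L).card := by
    rw [← mul_assoc]
    refine mul_le_mul_of_nonneg_right ?_ hc0
    linarith
  linarith

end Pool.Agent.Q218.LE
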