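import Pool.Agent.Q218.LE.FreeE
import Pool.Agent.Q218.UD.Var

/-! The time averages at the large momenta. -/

set_option autoImplicit false
set_option linter.unusedSectionVars false

open MeasureTheory Set Filter Topology

namespace Pool.Agent.Q218.LE

open Pool.Agent.H4R2.LO (Zd)
open Pool.Agent.TH794.HK
open Pool.Agent.TH794.QE
open Pool.Agent.TH794.QD (Sol La)
open Pool.Agent.Q218.AD (Phi dense_exp ep small_rpow exp_int exp_val)
open Pool.Agent.Q218.AD2 (Psi psi_meas psi_bd psi_int step3)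
open Pool.Agent.Q218.UD (trc profU eta_range)

theorem psi_one {G0 : ℝ → ℝ} (n0 : ∀ E, 0 ≤ G0 E) (hm : ∫ E, G0 E = Real.pi) (Q s : ℝ) :
    Psi G0 (fun E => G0 E ^ 2) Q s = Real.exp (-(2 * s * Q)) := by
  unfold Psi
  have h1 : ∀ E, G0 E * Real.exp (-(2 * s * ((fun E => G0 E ^ 2) E / G0 E ^ 2) * Q)) =
      Real.exp (-(2 * s * Q)) * G0 E := by
    intro E
    simp only
    rcases (n0 E).eq_or_lt with h | h
    · rw [← h]
      simp
    · rw [div_self (by positivity), mul_one, mul_comm]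
  simp only [h1]
  rw [integral_const_mul, hm, mul_comm, mul_assoc, mul_inv_cancel₀ Real.pi_ne_zero, mul_one]

/-- **the time averages at the large momenta, at the good sites** -/
theorem difP (d : ℕ) (hd : 2 ≤ d) (G0 G1 : ℝ → ℝ) (hF : FreeE d G0 G1) (h : ℝ → ℝ) (Hm : ℝ)
    (hh : IntegrableOn h (Set.Ioi (0 : ℝ))) (hHm : 0 ≤ Hm) (hb : ∀ s, |h s| ≤ Hm)
    (v ε : ℝ) (hv : 0 < v) (hε : 0 < ε) :
    ∃ K Nn l0 : ℝ, 0 ≤ K ∧ 0 ≤ Nn ∧ 0 < l0 ∧ ∀ lam : ℝ, 0 < lam → lam ≤ l0 →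
    ∀ (μ : Measure ℝ), IsProbabilityMeasure μ → ∀ M mB VB B : ℝ,
    B = lam ^ (-(1 / 7000) : ℝ) → ∫ s, trc M B s ∂μ = mB →
    ∫ s, (trc M B s - mB) ^ 2 ∂μ = VB → v ≤ B ^ 2 * VB →
    ∀ T : ℝ, lam ^ (-(2013 / 1000) : ℝ) ≤ T → T ≤ lam ^ (-(2024 / 1000) : ℝ) →
      ∃ G : Set (Zd d → ℝ), MeasurableSet G ∧
        1 - Nn * Real.exp (-lam ^ (-(1 / 102) : ℝ)) ≤
          (Measure.infinitePi fun _ : Zd d => μ).real G ∧
        ∀ ω ∈ G, ∀ a : Zd d, ‖a‖ ≤ Real.exp (lam ^ (-(1 / 102) : ℝ)) →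
          (∀ x, ‖x - a‖ ≤ lam ^ (-10 : ℝ) → |ω x - M| ≤ B) →
          ∀ (E0 : ℝ) (ψ : ℝ → Zd d → ℂ), Sol d (fun x => E0 + lam * ω x) a ψ →
          ∀ p : Fin d → ℝ, (∀ i, |p i| ≤ Real.pi) →
            K * (lam ^ 2 * (B ^ 2 * VB) / T) ≤ ∑ i, p i ^ 2 →
            ‖(∫ s in Set.Ioi (0 : ℝ), ((h s : ℝ) : ℂ) * ∑' x : Zd d, ph p (x - a) *
                ((‖ψ (s * T) x‖ ^ 2 : ℝ) : ℂ))‖ ≤ ε := by
  have hpi := Real.pi_pos
  have hd0 : (0 : ℝ) < d := by
    have : 0 < d := by omega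
    exact_mod_cast this
  have hFf := hF.free
  -- the constants
  obtain ⟨n, cf, hn⟩ := dense_exp h hh (ε / 16) (by positivity)
  obtain ⟨C, hC⟩ : ∃ C, C = ∑ k ∈ Finset.range n, |cf k| := ⟨_, rfl⟩
  have hC0 : 0 ≤ C := by rw [hC]; exact Finset.sum_nonneg fun k _ => abs_nonneg _
  obtain ⟨U, hU, hUf, hUX, hUs, γ0, γ1, hγ, ⟨Γm, hΓm⟩, hEngU, hEngP⟩ :=
    hF.bulk (ε / (8 * (C + 1))) (by positivity)
  obtain ⟨δ, hδ⟩ : ∃ δ, δ = ε / (8 * (C + 1)) / (4 * (2 * d) / Real.pi) := ⟨_, rfl⟩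
  have hδ0 : 0 < δ := by rw [hδ]; positivity
  obtain ⟨l1, hl1, hresU⟩ := profU d hd U G0 G1 hFf γ0 γ1 hγ hEngU v 0 hv le_rfl
  obtain ⟨K, l5, hK, hl5, hresP⟩ := profP d hd U v (δ / 2) hv (by positivity) hEngP
  obtain ⟨l2, hl2, hs2⟩ := small_rpow (1 / 300) δ (by norm_num) hδ0
  obtain ⟨l3, hl3, hs3⟩ := small_rpow (5 / 10000) (1 / 2) (by norm_num) (by norm_num)
  obtain ⟨l4, hl4, hs4⟩ := small_rpow (7 / 10000) (2 / ((n : ℝ) + 1)) (by norm_num) (by positivity)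
  obtain ⟨Q, hQ⟩ : ∃ Q, Q = max (|Γm| * n / δ) (Hm / ε) + 1 := ⟨_, rfl⟩
  have hQ1 : |Γm| * n / δ ≤ Q := by
    rw [hQ]
    have := le_max_left (|Γm| * n / δ) (Hm / ε)
    linarith
  have hQ2 : Hm / ε ≤ Q := by
    rw [hQ]
    have := le_max_right (|Γm| * n / δ) (Hm / ε)
    linarith
  have hQ0 : 0 < Q := by
    have : 0 ≤ |Γm| * n / δ := by positivity
    rw [hQ]
    have := le_max_left (|Γm| * n / δ) (Hm / ε)
    linarith
  refine ⟨K * (n + 1), (n : ℝ) + 1, min (min l1 l5) (min l2 (min l3 l4)), by positivity,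
    by positivity, by positivity, ?_⟩
  intro lam hlam hlam0 μ hμ M mB VB B hB hmB hVB hvB T hT1 hT2
  have hlam1' : lam ≤ l1 := hlam0.trans ((min_le_left _ _).trans (min_le_left _ _))
  have hlam5' : lam ≤ l5 := hlam0.trans ((min_le_left _ _).trans (min_le_right _ _))
  have hlam2' : lam ≤ l2 := hlam0.trans ((min_le_right _ _).trans (min_le_left _ _))
  have hlam3' : lam ≤ l3 :=
    hlam0.trans ((min_le_right _ _).trans ((min_le_right _ _).trans (min_le_left _ _)))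
  have hlam4' : lam ≤ l4 :=
    hlam0.trans ((min_le_right _ _).trans ((min_le_right _ _).trans (min_le_right _ _)))
  have hT0 : 0 < T := (Real.rpow_pos_of_pos hlam _).trans_le hT1
  obtain ⟨W, hW⟩ : ∃ W, W = B ^ 2 * VB := ⟨_, rfl⟩
  have hW0 : 0 < W := by rw [hW]; linarith
  -- the range of the scales
  have hη : ∀ k ∈ Finset.range n, lam ^ (20245 / 10000 : ℝ) ≤ ((k : ℝ) + 1) / (2 * T) ∧
      ((k : ℝ) + 1) / (2 * T) ≤ lam ^ (20123 / 10000 : ℝ) := fun k hk =>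
    eta_range n lam T hlam (hs3 lam hlam hlam3') (hs4 lam hlam hlam4') hT1 hT2 k hk
  obtain ⟨G, hG, hPG, hprof⟩ := hresU lam hlam hlam1' μ hμ M mB VB B hB hmB hVB hvB
  have hres' : ∀ k : ℕ, ∃ G : Set (Zd d → ℝ), MeasurableSet G ∧
        1 - Real.exp (-lam ^ (-(1 / 102) : ℝ)) ≤
          (Measure.infinitePi fun _ : Zd d => μ).real G ∧ (k ∈ Finset.range n →
        ∀ ω ∈ G, ∀ a : Zd d, ‖a‖ ≤ Real.exp (lam ^ (-(1 / 102) : ℝ)) →
          (∀ x, ‖x - a‖ ≤ lam ^ (-10 : ℝ) → |ω x - M| ≤ B) →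
          ∀ E0 e : ℝ, E0 + lam * M + lam * B * mB - e ∈ U →
          ∀ u : Zd d → ℂ, Rs d (fun x => E0 + lam * ω x) a e (((k : ℝ) + 1) / (2 * T)) u →
          ∀ p : Fin d → ℝ, (∀ i, |p i| ≤ Real.pi) →
            K * ((((k : ℝ) + 1) / (2 * T)) * (lam ^ 2 * (B ^ 2 * VB))) ≤ ∑ i, p i ^ 2 →
            ‖(((((k : ℝ) + 1) / (2 * T) : ℝ)) : ℂ) * ∑' x, ph p (x - a) *
              ((‖u x‖ ^ 2 : ℝ) : ℂ)‖ ≤ δ / 2) := by
    intro k
    by_cases hk : k ∈ Finset.range n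
    · obtain ⟨G', hG', hP', hL'⟩ := hresP lam hlam hlam5' μ hμ M mB VB B hB hmB hVB hvB
        (((k : ℝ) + 1) / (2 * T)) (hη k hk).1 (hη k hk).2
      exact ⟨G', hG', hP', fun _ => hL'⟩
    · refine ⟨G, hG, hPG, fun h => absurd h hk⟩
  choose Gk hGm hGP hGL using hres'
  obtain ⟨Pm, hPm⟩ : ∃ Pm : Measure (Zd d → ℝ), Pm = Measure.infinitePi fun _ : Zd d => μ :=
    ⟨_, rfl⟩
  have hPp : IsProbabilityMeasure Pm := by rw [hPm]; infer_instance
  rw [← hPm] at hPG hGP ⊢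
  have hmI : MeasurableSet (⋂ k ∈ Finset.range n, Gk k) :=
    Finset.measurableSet_biInter _ fun k _ => hGm k
  refine ⟨G ∩ ⋂ k ∈ Finset.range n, Gk k, hG.inter hmI, ?_, ?_⟩
  · have q0 : (G ∩ ⋂ k ∈ Finset.range n, Gk k)ᶜ = Gᶜ ∪ ⋃ k ∈ Finset.range n, (Gk k)ᶜ := by
      rw [Set.compl_inter]
      congr 1
      simp only [Set.compl_iInter]
    have q1 := probReal_add_probReal_compl (μ := Pm) (hG.inter hmI)
    have q2 := probReal_add_probReal_compl (μ := Pm) hG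
    have q3 : Pm.real (⋃ k ∈ Finset.range n, (Gk k)ᶜ) ≤
        n * Real.exp (-lam ^ (-(1 / 102) : ℝ)) := by
      refine (measureReal_biUnion_finset_le _ _).trans ?_
      refine (Finset.sum_le_sum fun k _ => (?_ : _ ≤ Real.exp (-lam ^ (-(1 / 102) : ℝ)))).trans
        (le_of_eq ?_)
      · have q4 := probReal_add_probReal_compl (μ := Pm) (hGm k)
        have q5 := hGP k
        linarith
      · rw [Finset.sum_const, Finset.card_range, nsmul_eq_mul]
    have q6 := measureReal_union_le (μ := Pm) Gᶜ (⋃ k ∈ Finset.range n, (Gk k)ᶜ)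
    rw [q0] at q1
    have q7 : ((n : ℝ) + 1) * Real.exp (-lam ^ (-(1 / 102) : ℝ)) =
        n * Real.exp (-lam ^ (-(1 / 102) : ℝ)) + Real.exp (-lam ^ (-(1 / 102) : ℝ)) := by ring
    rw [q7]
    linarith
  intro ω hω a ha hloc E0 ψ hS p hp hpK
  -- the Green functions
  have hgreen : ∀ (e η : ℝ), 0 < η →
      Rs d (fun x => E0 + lam * ω x) a e η (fun x => Complex.I * La ψ e η x) := fun e η hη0 =>
      ⟨Pool.Agent.TH794.QD.La_sum hS e η hη0, Pool.Agent.TH794.QD.La_eq hS e η hη0⟩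
  have hnI : ∀ e η x, ‖Complex.I * La ψ e η x‖ ^ 2 = ‖La ψ e η x‖ ^ 2 := by
    intro e η x
    rw [norm_mul, Complex.norm_I, one_mul]
  obtain ⟨e0, he0⟩ : ∃ e0, e0 = E0 + lam * M + lam * B * mB := ⟨_, rfl⟩
  have hc1 : ∀ x : Zd d, ‖ph p (x - a)‖ ≤ 1 := fun x => (ph_norm p (x - a)).le
  have key := step3 hS hT0 (fun x => ph p (x - a)) hc1 (X := 2 * d) (U := U) (e0 := e0) (δ := δ)
    (Q := Q) (ε := ε / 16) (G0 := G0) (G1 := fun E => G0 E ^ 2) hU hUf hUX (by positivity) hδ0.le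
    hQ0.le hFf.m0 (hFf.m0.pow_const 2) hFf.i0 hFf.n0 (fun E => sq_nonneg _) hFf.mass hh hn
    (fun k hk e he => by
      have hk0 : (0 : ℝ) < (k : ℝ) + 1 := by positivity
      have hkn : (k : ℝ) + 1 ≤ n := by
        have := Finset.mem_range.1 hk
        exact_mod_cast this
      have hη0 : 0 < ((k : ℝ) + 1) / (2 * T) := by positivity
      have hωk : ω ∈ Gk k := Set.mem_iInter₂.1 hω.2 k hk
      have h1 := hGL k hk ω hωk a ha hloc E0 e (by rw [← he0]; exact he) _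
        (hgreen e _ hη0) p hp (by
          refine le_trans ?_ hpK
          rw [← hW]
          have e1 : K * (((k : ℝ) + 1) / (2 * T) * (lam ^ 2 * W)) =
              K * (((k : ℝ) + 1) / 2) * (lam ^ 2 * W / T) := by
            field_simp
          have e2 : K * ((n : ℝ) + 1) * (lam ^ 2 * W / T) = K * ((n : ℝ) + 1) *
            (lam ^ 2 * W / T) := rfl
          rw [e1]
          have e3 : K * (((k : ℝ) + 1) / 2) ≤ K * ((n : ℝ) + 1) := by
            apply mul_le_mul_of_nonneg_left _ hK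
            linarith
          exact mul_le_mul_of_nonneg_right e3 (by positivity))
      simp only [hnI] at h1
      obtain ⟨q1, q2, q3⟩ := hγ _ he
      have h2 : G0 (e0 - e) / (1 + (fun E => G0 E ^ 2) (e0 - e) / G0 (e0 - e) ^ 2 *
          (2 * Q / ((k : ℝ) + 1))) = G0 (e0 - e) / (1 + 2 * Q / ((k : ℝ) + 1)) := by
        simp only
        rw [div_self (by positivity), one_mul]
      have h3 : G0 (e0 - e) / (1 + 2 * Q / ((k : ℝ) + 1)) ≤ δ / 2 := by
        have h4 : G0 (e0 - e) ≤ |Γm| := (hΓm _ he).trans (le_abs_self _)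
        rw [div_le_iff₀ hδ0] at hQ1
        rw [div_le_iff₀ (by positivity)]
        have h5 : |Γm| ≤ δ / 2 * (2 * Q / ((k : ℝ) + 1)) := by
          rw [← mul_div_assoc, le_div_iff₀ hk0]
          calc |Γm| * ((k : ℝ) + 1) ≤ |Γm| * n := by gcongr
            _ ≤ Q * δ := hQ1
            _ = _ := by ring
        have h6 : δ / 2 * (1 + 2 * Q / ((k : ℝ) + 1)) = δ / 2 + δ / 2 * (2 * Q / ((k : ℝ) + 1)) := by
          ring
        rw [h6]
        linarith
      have h3' : 0 ≤ G0 (e0 - e) / (1 + 2 * Q / ((k : ℝ) + 1)) := by positivity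
      rw [h2]
      refine (norm_sub_le _ _).trans ?_
      rw [Complex.norm_real, Real.norm_of_nonneg h3']
      linarith)
    (fun k hk e he => by
      obtain ⟨s1, s2⟩ := hη k hk
      obtain ⟨η, hηd⟩ : ∃ η, η = ((k : ℝ) + 1) / (2 * T) := ⟨_, rfl⟩
      rw [← hηd] at s1 s2 ⊢
      have hη0 : 0 < η := by rw [hηd]; positivity
      have h1 := hprof ω hω.1 a ha hloc E0 e (by rw [← he0]; exact he) η s1 s2 _
        (hgreen e η hη0) (fun _ => 0) (by
        simp only [ne_eq, OfNat.ofNat_ne_zero, not_false_eq_true, zero_pow,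
          Finset.sum_const_zero, zero_mul, le_refl])
      have hph : ∀ x : Zd d, ph (fun _ : Fin d => (0 : ℝ)) x = 1 := by
        intro x
        unfold ph
        simp
      simp only [hph, one_mul, hnI, ne_eq, OfNat.ofNat_ne_zero, not_false_eq_true, zero_pow,
        Finset.sum_const_zero, zero_div, zero_mul, add_zero, div_one, ← he0] at h1
      rw [← Complex.ofReal_tsum, ← Complex.ofReal_mul, ← Complex.ofReal_sub, Complex.norm_real,
        Real.norm_eq_abs] at h1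
      exact h1.trans (hs2 lam hlam hlam2'))
  rw [← hC] at key
  have ePhi : ∀ s, (∑' x : Zd d, ph p (x - a) * ((‖ψ (s * T) x‖ ^ 2 : ℝ) : ℂ)) =
      Phi ψ (fun x => ph p (x - a)) (s * T) := fun s => rfl
  simp only [ePhi]
  simp only [psi_one hFf.n0 hFf.mass] at key
  -- the integral of the limit
  have hlim : ‖((∫ s in Set.Ioi (0 : ℝ), h s * Real.exp (-(2 * s * Q)) : ℝ) : ℂ)‖ ≤ ε / 2 := by
    rw [Complex.norm_real]
    have i1 := exp_int (2 * Q) (by positivity)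
    refine (norm_integral_le_of_norm_le (i1.const_mul Hm)
      (Filter.Eventually.of_forall fun s => ?_)).trans ?_
    · rw [norm_mul, Real.norm_of_nonneg (Real.exp_pos _).le]
      have e1 : -(2 * s * Q) = -(2 * Q) * s := by ring
      rw [e1]
      exact mul_le_mul_of_nonneg_right (hb s) (Real.exp_pos _).le
    · rw [integral_const_mul, exp_val (2 * Q) (by positivity)]
      rw [div_le_iff₀ hε] at hQ2
      rw [← div_eq_mul_inv, div_le_iff₀ (by positivity)]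
      linarith
  have k1 : 4 * (2 * (d : ℝ)) / Real.pi * δ = ε / (8 * (C + 1)) := by
    rw [hδ]
    field_simp
  have k2 : C * (2 * (1 - Real.pi⁻¹ * ∫ E in U, G0 E) +
      4 * (2 * (d : ℝ)) / Real.pi * δ) ≤ C * (3 * (ε / (8 * (C + 1)))) := by
    apply mul_le_mul_of_nonneg_left _ hC0
    linarith
  have k3 : C * (3 * (ε / (8 * (C + 1)))) ≤ 3 / 8 * ε := by
    have : C / (C + 1) ≤ 1 := by
      rw [div_le_one (by positivity)]
      linarith
    calc C * (3 * (ε / (8 * (C + 1)))) = 3 / 8 * ε * (C / (C + 1)) := by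
          field_simp
      _ ≤ 3 / 8 * ε * 1 := mul_le_mul_of_nonneg_left this (by positivity)
      _ = _ := mul_one _
  have e5 := norm_sub_le_norm_sub_add_norm_sub
    (∫ s in Set.Ioi (0 : ℝ), ((h s : ℝ) : ℂ) * Phi ψ (fun x => ph p (x - a)) (s * T))
    ((∫ s in Set.Ioi (0 : ℝ), h s * Real.exp (-(2 * s * Q)) : ℝ) : ℂ) 0
  rw [sub_zero, sub_zero] at e5
  linarith

end Pool.Agent.Q218.LE
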