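import Pool.Agent.Q218.LE.DifP
import Pool.Agent.Q218.LE.Det

/-! Local quantum ergodicity: the final form for a general law. -/

set_option autoImplicit false
set_option linter.unusedSectionVars false

open scoped BigOperators Topology InnerProductSpace
open MeasureTheory Filter Set

namespace Pool.Agent.Q218.LE

open Pool.Agent.W788.LD.Spec (S)
open Pool.Agent.H4R2.LO (Zd dd bx)
open Pool.Agent.TH794.HK (ph)
open Pool.Agent.TH794.QD (Sol HS hmk hmk_apply hs_sum)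
open Pool.Agent.Q218.AD (Cw small_rpow)
open Pool.Agent.Q218.AT
open Pool.Agent.Q218.UD (exists_solU trc var_lim evt)

/-- the tail of the law is negligible -/
def Tail (d : ℕ) (μ : Measure ℝ) (M : ℝ) : Prop :=
  ∀ ε : ℝ, 0 < ε → ∃ l0 : ℝ, 0 < l0 ∧ ∀ lam : ℝ, 0 < lam → lam ≤ l0 →
    (2 * lam ^ (-10 : ℝ) + 1) ^ d * μ.real {s | ¬ |s - M| ≤ lam ^ (-(1 / 7000) : ℝ)} ≤ ε

theorem exp_small (Nn ε : ℝ) (hN : 0 ≤ Nn) (hε : 0 < ε) : ∃ l0 : ℝ, 0 < l0 ∧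
    ∀ lam : ℝ, 0 < lam → lam ≤ l0 → Nn * Real.exp (-lam ^ (-(1 / 102) : ℝ)) ≤ ε := by
  obtain ⟨l1, hl1, hs1⟩ := small_rpow (1 / 102) (ε / (Nn + 1)) (by norm_num) (by positivity)
  refine ⟨l1, hl1, fun lam h0 h1 => ?_⟩
  have h2 := hs1 lam h0 h1
  obtain ⟨x, hx⟩ : ∃ x, x = lam ^ (1 / 102 : ℝ) := ⟨_, rfl⟩
  have hx0 : 0 < x := by rw [hx]; positivity
  have h3 : lam ^ (-(1 / 102) : ℝ) = x⁻¹ := by rw [hx, Real.rpow_neg h0.le]
  rw [← hx, le_div_iff₀ (by positivity)] at h2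
  rw [h3]
  have h4 : Real.exp (-x⁻¹) ≤ x := by
    have h5 := Real.add_one_le_exp x⁻¹
    rw [Real.exp_neg, inv_le_comm₀ (Real.exp_pos _) hx0]
    linarith
  have h6 : Nn * Real.exp (-x⁻¹) ≤ Nn * x := mul_le_mul_of_nonneg_left h4 hN
  have h7 : x * (Nn + 1) = Nn * x + x := by ring
  linarith

/-- **the event for the starting point zero** -/
theorem evA (d : ℕ) (hd : 2 ≤ d) (G0 G1 : ℝ → ℝ) (hF : FreeE d G0 G1) (μ : Measure ℝ)
    [IsProbabilityMeasure μ] (M V : ℝ) (hV0 : 0 < V) (h1 : Integrable (fun s => s) μ)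
    (h2 : Integrable (fun s => (s - M) ^ 2) μ) (hM : ∫ s, s ∂μ = M)
    (hV : ∫ s, (s - M) ^ 2 ∂μ = V) (hT : Tail d μ M) (ε : ℝ) (hε : 0 < ε) :
    ∃ K1 l0 : ℝ, 0 < K1 ∧ 0 < l0 ∧ ∀ lam : ℝ, 0 < lam → lam ≤ l0 →
    ∀ T : ℝ, T = lam ^ (-(2024 / 1000) : ℝ) →
    ∃ G : Set (Zd d → ℝ), MeasurableSet G ∧
      1 - ε ≤ (Measure.infinitePi fun _ : Zd d => μ).real G ∧
      ∀ ω ∈ G, ∀ ψ : ℝ → Zd d → ℂ, Sol d (fun x => lam * ω x) 0 ψ →
      ∀ p : Fin d → ℝ, (∀ i, |p i| ≤ Real.pi) → K1 * (lam ^ 2 / T) ≤ ∑ i, p i ^ 2 →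
      ‖∫ u in (0 : ℝ)..1, ((2 * (1 - u) : ℝ) : ℂ) *
        ∑' x : Zd d, ph p x * ((‖ψ (u * T) x‖ ^ 2 : ℝ) : ℂ)‖ ≤ ε := by
  obtain ⟨K, Nn, l1, hK, hN, hl1, hdif⟩ := difP d hd G0 G1 hF hw 2 hw_int (by norm_num)
    (fun s => by
      unfold hw
      by_cases hs : s ∈ Set.Ioc (0 : ℝ) 1
      · rw [Set.indicator_of_mem hs]
        have := hs.1
        have := hs.2
        rw [abs_le]
        constructor <;> linarith
      · rw [Set.indicator_of_notMem hs, abs_zero]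
        norm_num)
    (V / 2) ε (by positivity) hε
  obtain ⟨l2, hl2, hvar⟩ := var_lim μ M V h1 h2 hM hV (V / 2) (by positivity)
  obtain ⟨l3, hl3, hs3⟩ := exp_small Nn (ε / 2) hN (by positivity)
  obtain ⟨l4, hl4, hs4⟩ := hT (ε / 2) (by positivity)
  obtain ⟨l5, hl5, hs5⟩ := small_rpow (11 / 1000) 1 (by norm_num) one_pos
  refine ⟨K * (2 * V) + 1, min (min l1 l2) (min l3 (min l4 l5)), by positivity, by positivity, ?_⟩
  intro lam hlam hlam0 T hTd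
  have b1 : lam ≤ l1 := hlam0.trans ((min_le_left _ _).trans (min_le_left _ _))
  have b2 : lam ≤ l2 := hlam0.trans ((min_le_left _ _).trans (min_le_right _ _))
  have b3 : lam ≤ l3 := hlam0.trans ((min_le_right _ _).trans (min_le_left _ _))
  have b4 : lam ≤ l4 := hlam0.trans ((min_le_right _ _).trans
    ((min_le_right _ _).trans (min_le_left _ _)))
  have b5 : lam ≤ l5 := hlam0.trans ((min_le_right _ _).trans
    ((min_le_right _ _).trans (min_le_right _ _)))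
  have hT0 : 0 < T := by rw [hTd]; positivity
  have hT1 : lam ^ (-(2013 / 1000) : ℝ) ≤ T := by
    have h3 := hs5 lam hlam b5
    have h4 : lam ^ (-(2013 / 1000) : ℝ) = lam ^ (11 / 1000 : ℝ) * T := by
      rw [hTd, ← Real.rpow_add hlam]
      norm_num
    rw [h4]
    exact mul_le_of_le_one_left hT0.le h3
  obtain ⟨B, hB⟩ : ∃ B, B = lam ^ (-(1 / 7000) : ℝ) := ⟨_, rfl⟩
  have hv := abs_le.1 (hvar lam hlam b2 B hB)
  obtain ⟨W, hW⟩ : ∃ W, W = B ^ 2 * (∫ s, (trc M B s - ∫ s, trc M B s ∂μ) ^ 2 ∂μ) := ⟨_, rfl⟩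
  rw [← hW] at hv
  obtain ⟨G', hG', hP', hL⟩ := hdif lam hlam b1 μ inferInstance M _ _ B hB rfl rfl
    (by rw [← hW]; linarith [hv.1]) T hT1 hTd.le
  have htl : μ.real {s | ¬ |s - M| ≤ B} ≤ μ.real {s | ¬ |s - M| ≤ B} := le_rfl
  obtain ⟨G, hGG', hG, hPG, hbox⟩ := evt (d := d) μ M B G' hG' _ _ hP' htl
    (lam ^ (-10 : ℝ)) (by positivity)
  have h4 := hs4 lam hlam b4
  rw [← hB] at h4
  have h3 := hs3 lam hlam b3
  refine ⟨G, hG, ?_, fun ω hω ψ hψ p hp hpK => ?_⟩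
  · refine le_trans ?_ hPG
    linarith
  · have key := hL ω (hGG' hω) 0 (by rw [norm_zero]; exact (Real.exp_pos _).le)
      (fun x hx => hbox ω hω x (by rwa [sub_zero] at hx)) 0 ψ (by simpa using hψ) p hp (by
        rw [← hW]
        refine le_trans ?_ hpK
        have e1 : K * (lam ^ 2 * W / T) = K * W * (lam ^ 2 / T) := by ring
        rw [e1]
        refine mul_le_mul_of_nonneg_right ?_ (by positivity)
        have e2 : K * W ≤ K * (2 * V) := mul_le_mul_of_nonneg_left (by linarith [hv.2]) hK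
        linarith)
    simp only [sub_zero] at key
    rw [hw_c] at key
    exact key

/-- the numbers -/
theorem num_B (d : ℕ) (hd : 1 ≤ d) (K1 Cd ε : ℝ) (hK1 : 0 < K1) (hCd : 0 ≤ Cd) (hε : 0 < ε) :
    ∃ l0 : ℝ, 0 < l0 ∧ ∀ lam : ℝ, 0 < lam → lam ≤ l0 → ∀ T : ℝ, T = lam ^ (-(2024 / 1000) : ℝ) →
    ∀ L r : ℕ, lam ^ (-(21 / 10) : ℝ) ≤ L → (r : ℝ) ≤ lam ^ (-(2011 / 1000) : ℝ) →
    ∃ (κ : ℝ) (R : ℕ), 0 < κ ∧ κ ^ 2 = K1 * (lam ^ 2 / T) ∧ 1 ≤ R ∧ R ≤ L ∧ d * κ * R ≤ 1 ∧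
      4 * ((d * r / R) ^ 2 + Cd * (R / L)) ≤ ε := by
  have hd1 : (1 : ℝ) ≤ d := by exact_mod_cast hd
  have hd0 : (0 : ℝ) < d := by linarith
  obtain ⟨q, hq⟩ : ∃ q, q = Real.sqrt K1 := ⟨_, rfl⟩
  have hq0 : 0 < q := by rw [hq]; exact Real.sqrt_pos.2 hK1
  have hq2 : q ^ 2 = K1 := by rw [hq, Real.sq_sqrt hK1.le]
  obtain ⟨l1, hl1, hs1⟩ := small_rpow (2012 / 1000) (1 / (2 * d * q)) (by norm_num) (by positivity)
  obtain ⟨l2, hl2, hs2⟩ := small_rpow (88 / 1000) (min 1 (ε / (8 * (Cd + 1))) * (d * q))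
    (by norm_num) (by positivity)
  obtain ⟨l3, hl3, hs3⟩ := small_rpow (2 / 1000) (ε / (8 * (2 * d ^ 2 * q) ^ 2)) (by norm_num)
    (by positivity)
  refine ⟨min l1 (min l2 l3), by positivity, ?_⟩
  intro lam hlam hlam0 T hT L r hL hr
  have b1 : lam ≤ l1 := hlam0.trans (min_le_left _ _)
  have b2 : lam ≤ l2 := hlam0.trans ((min_le_right _ _).trans (min_le_left _ _))
  have b3 : lam ≤ l3 := hlam0.trans ((min_le_right _ _).trans (min_le_right _ _))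
  obtain ⟨κ, hκ⟩ : ∃ κ, κ = q * lam ^ (2012 / 1000 : ℝ) := ⟨_, rfl⟩
  have hκ0 : 0 < κ := by rw [hκ]; positivity
  have hκ2 : κ ^ 2 = K1 * (lam ^ 2 / T) := by
    rw [hκ, mul_pow, hq2, hT, ← Real.rpow_natCast (lam ^ (2012 / 1000 : ℝ)), ← Real.rpow_mul hlam.le,
      ← Real.rpow_natCast lam 2, ← Real.rpow_sub hlam]
    norm_num
  have hdκ : d * κ ≤ 1 / 2 := by
    have h1 := hs1 lam hlam b1
    rw [hκ]
    calc d * (q * lam ^ (2012 / 1000 : ℝ)) ≤ d * (q * (1 / (2 * d * q))) := by gcongr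
      _ = 1 / 2 := by field_simp
  have hdκ0 : 0 < d * κ := by positivity
  obtain ⟨x, hx⟩ : ∃ x, x = 1 / (d * κ) := ⟨_, rfl⟩
  have hx2 : 2 ≤ x := by
    rw [hx, le_div_iff₀ hdκ0]
    linarith
  obtain ⟨R, hR⟩ : ∃ R : ℕ, R = ⌊x⌋₊ := ⟨_, rfl⟩
  have hRx : (R : ℝ) ≤ x := by rw [hR]; exact Nat.floor_le (by linarith)
  have hRx2 : x / 2 ≤ R := by
    have := Nat.lt_floor_add_one x
    rw [← hR] at this
    linarith
  have hR1 : 1 ≤ R := by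
    rw [hR, Nat.one_le_floor_iff]
    linarith
  have hR0 : (0 : ℝ) < R := by exact_mod_cast hR1
  have hL0 : (0 : ℝ) < L := lt_of_lt_of_le (by positivity) hL
  have hRL : (R : ℝ) / L ≤ min 1 (ε / (8 * (Cd + 1))) := by
    rw [div_le_iff₀ hL0]
    have h2 := hs2 lam hlam b2
    have h3 : x = lam ^ (88 / 1000 : ℝ) / (d * q) * lam ^ (-(21 / 10) : ℝ) := by
      rw [hx, hκ, div_mul_eq_mul_div, div_eq_div_iff (by positivity) (by positivity)]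
      have h4 : lam ^ (88 / 1000 : ℝ) * lam ^ (-(21 / 10) : ℝ) * lam ^ (2012 / 1000 : ℝ) = 1 := by
        rw [← Real.rpow_add hlam, ← Real.rpow_add hlam]
        norm_num
      linear_combination (-(d * q)) * h4
    calc (R : ℝ) ≤ x := hRx
      _ = lam ^ (88 / 1000 : ℝ) / (d * q) * lam ^ (-(21 / 10) : ℝ) := h3
      _ ≤ min 1 (ε / (8 * (Cd + 1))) * (d * q) / (d * q) * L := by gcongr
      _ = _ := by rw [mul_div_assoc, div_self (by positivity), mul_one]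
  have hRL1 : R ≤ L := by
    have h3 := hRL.trans (min_le_left _ _)
    rw [div_le_one hL0] at h3
    exact_mod_cast h3
  refine ⟨κ, R, hκ0, hκ2, hR1, hRL1, ?_, ?_⟩
  · calc d * κ * R ≤ d * κ * x := by gcongr
      _ = 1 := by rw [hx]; field_simp
  · have h4 : d * r / R ≤ 2 * d ^ 2 * q * lam ^ (1 / 1000 : ℝ) := by
      rw [div_le_iff₀ hR0]
      have h5 : x / 2 = 1 / (2 * d * q) * lam ^ (-(2012 / 1000) : ℝ) := by
        rw [hx, hκ, Real.rpow_neg hlam.le]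
        field_simp
      calc d * (r : ℝ) ≤ d * lam ^ (-(2011 / 1000) : ℝ) := by gcongr
        _ = 2 * d ^ 2 * q * lam ^ (1 / 1000 : ℝ) * (x / 2) := by
            rw [h5]
            have h6 : lam ^ (1 / 1000 : ℝ) * lam ^ (-(2012 / 1000) : ℝ) =
                lam ^ (-(2011 / 1000) : ℝ) := by
              rw [← Real.rpow_add hlam]
              norm_num
            rw [← h6]
            field_simp
        _ ≤ _ := by gcongr
    have h7 : (d * r / R) ^ 2 ≤ ε / 8 := by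
      calc (d * r / R : ℝ) ^ 2 ≤ (2 * d ^ 2 * q * lam ^ (1 / 1000 : ℝ)) ^ 2 := by gcongr
        _ = (2 * d ^ 2 * q) ^ 2 * lam ^ (2 / 1000 : ℝ) := by
            rw [mul_pow, ← Real.rpow_natCast (lam ^ (1 / 1000 : ℝ)), ← Real.rpow_mul hlam.le]
            norm_num
        _ ≤ (2 * d ^ 2 * q) ^ 2 * (ε / (8 * (2 * d ^ 2 * q) ^ 2)) := by
            have := hs3 lam hlam b3
            gcongr
        _ = _ := by field_simp
    have h8 : Cd * (R / L) ≤ ε / 8 := by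
      calc Cd * ((R : ℝ) / L) ≤ (Cd + 1) * (ε / (8 * (Cd + 1))) := by
            apply mul_le_mul _ (hRL.trans (min_le_right _ _)) (by positivity) (by positivity)
            linarith
        _ = _ := by field_simp
    linarith

/-- **the expectation of the correlation function** -/
theorem exB (hCUBE : S_CUBE) (hEXP : S_EXP) (d : ℕ) (hd : 2 ≤ d) (G0 G1 : ℝ → ℝ)
    (hF : FreeE d G0 G1) (μ : Measure ℝ)
    [IsProbabilityMeasure μ] (M V : ℝ) (hV0 : 0 < V) (h1 : Integrable (fun s => s) μ)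
    (h2 : Integrable (fun s => (s - M) ^ 2) μ) (hM : ∫ s, s ∂μ = M)
    (hV : ∫ s, (s - M) ^ 2 ∂μ = V) (hT : Tail d μ M) (ε : ℝ) (hε : 0 < ε) :
    ∃ l0 : ℝ, 0 < l0 ∧ ∀ lam : ℝ, 0 < lam → lam ≤ l0 →
    ∀ T : ℝ, T = lam ^ (-(2024 / 1000) : ℝ) →
    ∀ ψ : (Zd d → ℝ) → Zd d → ℝ → Zd d → ℂ, (∀ ω a, Sol d (fun x => lam * ω x) a (ψ ω a)) →
    ∀ a : Zd d → ℝ, (∀ x, |a x| ≤ 1) → ∀ (b : Zd d) (L r : ℕ), lam ^ (-(21 / 10) : ℝ) ≤ L →
    (r : ℝ) ≤ lam ^ (-(2011 / 1000) : ℝ) →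
    ∀ c : Zd d → ℂ, (c = fun x => (((a x - ((bx x r).card : ℝ)⁻¹ * ∑ y ∈ bx x r, a y) / 2 : ℝ) : ℂ)) →
      Integrable (fun ω => ∫ u in (0 : ℝ)..1, 2 * (1 - u) * (Sc (ψ ω) (bx b L) c (u * T)).re)
        (Measure.infinitePi fun _ : Zd d => μ) ∧
      ∫ ω, (∫ u in (0 : ℝ)..1, 2 * (1 - u) * (Sc (ψ ω) (bx b L) c (u * T)).re)
        ∂(Measure.infinitePi fun _ : Zd d => μ) ≤ ε * (bx b L).card := by
  have hd1 : 1 ≤ d := by omega
  obtain ⟨Cd, hCd, hcube⟩ := hCUBE d hd1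
  obtain ⟨K1, l1, hK1, hl1, hev⟩ := evA d hd G0 G1 hF μ M V hV0 h1 h2 hM hV hT (ε / 4)
    (by positivity)
  obtain ⟨l2, hl2, hs2⟩ := num_B d hd1 K1 Cd (ε / 2) hK1 hCd (by positivity)
  refine ⟨min l1 l2, by positivity, ?_⟩
  intro lam hlam hlam0 T hTd ψ hψ a ha b L r hL hr c hc
  have b1 : lam ≤ l1 := hlam0.trans (min_le_left _ _)
  have b2 : lam ≤ l2 := hlam0.trans (min_le_right _ _)
  have hT0 : 0 < T := by rw [hTd]; positivity
  obtain ⟨κ, R, hκ0, hκ2, hR1, hRL, hdR, hnum⟩ := hs2 lam hlam b2 T hTd L r hL hr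
  obtain ⟨G, hG, hPG, hGL⟩ := hev lam hlam b1 T hTd
  have hav : ∀ x, |((bx x r).card : ℝ)⁻¹ * ∑ y ∈ bx x r, a y| ≤ 1 := by
    intro x
    rw [abs_mul, abs_of_nonneg (by positivity)]
    have h3 : |∑ y ∈ bx x r, a y| ≤ ((bx x r).card : ℝ) := by
      refine (Finset.abs_sum_le_sum_abs _ _).trans ((Finset.sum_le_sum fun y _ => ha y).trans ?_)
      rw [Finset.sum_const, nsmul_eq_mul, mul_one]
    rcases (Nat.cast_nonneg (α := ℝ) (bx x r).card).eq_or_lt with h4 | h4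
    · rw [← h4]
      simp
    · rw [inv_mul_le_iff₀ h4, mul_one]
      exact h3
  have hc1 : ∀ x, ‖c x‖ ≤ 1 := by
    intro x
    rw [hc]
    simp only
    rw [Complex.norm_real, Real.norm_eq_abs, abs_div, abs_of_pos (by norm_num : (0 : ℝ) < 2),
      div_le_one (by norm_num)]
    have h3 := abs_sub (a x) (((bx x r).card : ℝ)⁻¹ * ∑ y ∈ bx x r, a y)
    have h4 := ha x
    have h5 := hav x
    linarith
  obtain ⟨i1, i2⟩ := hEXP d hd1 μ lam T κ (ε / 4) R G ψ hψ hT0 hκ0 (by positivity) hR1 hdR hG hPG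
    (fun ω hω p hp hpκ => hGL ω hω (ψ ω 0) (hψ ω 0) p hp (by rw [← hκ2]; exact hpκ))
    (bx b L) c hc1
  refine ⟨i1, i2.trans ?_⟩
  have h3 := hcube a b r R L ha hR1 hRL
  have h4 : ∑ x ∈ bx b L, ‖c x‖ ^ 2 ≤ ((bx b L).card : ℝ) := by
    refine (Finset.sum_le_sum fun x _ => pow_le_one₀ (norm_nonneg _) (hc1 x)).trans (le_of_eq ?_)
    rw [Finset.sum_const, nsmul_eq_mul, mul_one]
  have hcard : (0 : ℝ) ≤ ((bx b L).card : ℝ) := Nat.cast_nonneg _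
  have h5 : 4 * ∑' z : Zd d, ‖(((R : ℝ) ^ d)⁻¹ : ℂ) *
        ∑ h ∈ Fintype.piFinset (fun _ : Fin d => Finset.Ico (0 : ℤ) R),
          (if z + h ∈ bx b L then c (z + h) else 0)‖ ^ 2 ≤ ε / 2 * (bx b L).card := by
    rw [hc]
    have h6 := mul_le_mul_of_nonneg_left h3 (by norm_num : (0 : ℝ) ≤ 4)
    refine h6.trans ?_
    rw [← mul_assoc]
    exact mul_le_mul_of_nonneg_right hnum hcard
  have h7 : 2 * (ε / 4) * ∑ x ∈ bx b L, ‖c x‖ ^ 2 ≤ 2 * (ε / 4) * (bx b L).card :=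
    mul_le_mul_of_nonneg_left h4 (by positivity)
  linarith

/-- **local quantum ergodicity, for a general law** -/
theorem locC (hCUBE : S_CUBE) (hEXP : S_EXP) (d : ℕ) (hd : 2 ≤ d) (G0 G1 : ℝ → ℝ)
    (hF : FreeE d G0 G1) (μ : Measure ℝ)
    [IsProbabilityMeasure μ] (M V : ℝ) (hV0 : 0 < V) (h1 : Integrable (fun s => s) μ)
    (h2 : Integrable (fun s => (s - M) ^ 2) μ) (hM : ∫ s, s ∂μ = M)
    (hV : ∫ s, (s - M) ^ 2 ∂μ = V) (hT : Tail d μ M) (ε δ : ℝ) (hε : 0 < ε) (hδ : 0 < δ) :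
    ∃ l0 : ℝ, 0 < l0 ∧ ∀ lam : ℝ, 0 < lam → lam ≤ l0 →
    ∀ a : Zd d → ℝ, (∀ x, |a x| ≤ 1) → ∀ (b : Zd d) (L r : ℕ), lam ^ (-(21 / 10) : ℝ) ≤ L →
    (r : ℝ) ≤ lam ^ (-(2011 / 1000) : ℝ) →
    ∃ G : Set (Zd d → ℝ), MeasurableSet G ∧
      1 - ε ≤ (Measure.infinitePi fun _ : Zd d => μ).real G ∧
      ∀ ω ∈ G, ∀ (J : Type) (f : J → HS d), Orthonormal ℂ f → ∀ (E : J → ℝ),
      (∀ j x, ‖x - b‖ < L → -S (fun y => f j y) x + ((lam * ω x : ℝ) : ℂ) * f j x =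
        (E j : ℂ) * f j x) →
      ∀ s : Finset J, (∀ j ∈ s, δ ≤ |∑ x ∈ bx b L,
        (a x - ((bx x r).card : ℝ)⁻¹ * ∑ y ∈ bx x r, a y) * ‖f j x‖ ^ 2|) →
      (s.card : ℝ) ≤ ε * (bx b L).card := by
  have hd1 : 1 ≤ d := by omega
  obtain ⟨e1, he1⟩ : ∃ e1, e1 = ε * δ ^ 2 / 16 := ⟨_, rfl⟩
  have he10 : 0 < e1 := by rw [he1]; positivity
  obtain ⟨l1, hl1, hex⟩ := exB hCUBE hEXP d hd G0 G1 hF μ M V hV0 h1 h2 hM hV hT (ε * e1)
    (by positivity)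
  obtain ⟨l2, hl2, hdet⟩ := det hd1 e1 he10
  refine ⟨min l1 l2, by positivity, ?_⟩
  intro lam hlam hlam0 a ha b L r hL hr
  have b1 : lam ≤ l1 := hlam0.trans (min_le_left _ _)
  have b2 : lam ≤ l2 := hlam0.trans (min_le_right _ _)
  obtain ⟨T, hTd⟩ : ∃ T, T = lam ^ (-(2024 / 1000) : ℝ) := ⟨_, rfl⟩
  choose ψ hψ using fun (ω : Zd d → ℝ) (y : Zd d) =>
    exists_solU hd1 (fun x => lam * ω x) y
  obtain ⟨c, hc⟩ : ∃ c : Zd d → ℂ, c = fun x =>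
    (((a x - ((bx x r).card : ℝ)⁻¹ * ∑ y ∈ bx x r, a y) / 2 : ℝ) : ℂ) := ⟨_, rfl⟩
  obtain ⟨i1, i2⟩ := hex lam hlam b1 T hTd ψ hψ a ha b L r hL hr c hc
  obtain ⟨Q, hQ⟩ : ∃ Q : (Zd d → ℝ) → ℝ, Q = fun ω => ∫ u in (0 : ℝ)..1,
    2 * (1 - u) * (Sc (ψ ω) (bx b L) c (u * T)).re := ⟨_, rfl⟩
  rw [← hQ] at i1 i2
  have hQ0 : ∀ ω, 0 ≤ Q ω := by
    intro ω
    rw [hQ]
    simp only
    rw [← Ob_sq hd1 (hψ ω)]
    exact sq_nonneg _
  obtain ⟨Pm, hPm⟩ : ∃ Pm : Measure (Zd d → ℝ), Pm = Measure.infinitePi fun _ : Zd d => μ :=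
    ⟨_, rfl⟩
  have hPp : IsProbabilityMeasure Pm := by rw [hPm]; infer_instance
  rw [← hPm] at i1 i2 ⊢
  have hcard : (1 : ℝ) ≤ ((bx b L).card : ℝ) := by
    have h3 : b ∈ bx b L := by
      rw [mem_bx', sub_self, norm_zero]
      exact Nat.cast_nonneg L
    exact_mod_cast Finset.card_pos.2 ⟨b, h3⟩
  have hcard0 : (0 : ℝ) < ((bx b L).card : ℝ) := by linarith
  have hmk := mul_meas_ge_le_integral_of_nonneg (Filter.Eventually.of_forall hQ0) i1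
    (e1 * (bx b L).card)
  have hPA : Pm.real {ω | e1 * (bx b L).card ≤ Q ω} ≤ ε := by
    have h3 := hmk.trans i2
    have h4 : ε * e1 * ((bx b L).card : ℝ) = e1 * (bx b L).card * ε := by ring
    rw [h4] at h3
    exact le_of_mul_le_mul_left h3 (by positivity)
  obtain ⟨A, hA⟩ : ∃ A : Set (Zd d → ℝ), A = toMeasurable Pm {ω | e1 * (bx b L).card ≤ Q ω} :=
    ⟨_, rfl⟩
  have hAm : MeasurableSet A := by rw [hA]; exact measurableSet_toMeasurable _ _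
  have hAs : {ω | e1 * (bx b L).card ≤ Q ω} ⊆ A := by rw [hA]; exact subset_toMeasurable _ _
  have hAP : Pm.real A ≤ ε := by
    have h3 : Pm.real A = Pm.real {ω | e1 * (bx b L).card ≤ Q ω} := by
      rw [hA]
      unfold Measure.real
      rw [measure_toMeasurable]
    rw [h3]
    exact hPA
  refine ⟨Aᶜ, hAm.compl, ?_, ?_⟩
  · have h3 := probReal_add_probReal_compl (μ := Pm) hAm
    linarith
  intro ω hω J f hf E he s hs
  have hQω : Q ω ≤ e1 * (bx b L).card := by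
    by_contra hcon
    rw [not_le] at hcon
    exact hω (hAs hcon.le)
  have hc1 : ∀ x, ‖c x‖ ≤ 1 := by
    intro x
    rw [hc]
    simp only
    rw [Complex.norm_real, Real.norm_eq_abs, abs_div, abs_of_pos (by norm_num : (0 : ℝ) < 2),
      div_le_one (by norm_num)]
    have h3 := abs_sub (a x) (((bx x r).card : ℝ)⁻¹ * ∑ y ∈ bx x r, a y)
    have h4 := ha x
    have h5 : |((bx x r).card : ℝ)⁻¹ * ∑ y ∈ bx x r, a y| ≤ 1 := by
      rw [abs_mul, abs_of_nonneg (by positivity)]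
      have h3 : |∑ y ∈ bx x r, a y| ≤ ((bx x r).card : ℝ) := by
        refine (Finset.abs_sum_le_sum_abs _ _).trans ((Finset.sum_le_sum fun y _ => ha y).trans ?_)
        rw [Finset.sum_const, nsmul_eq_mul, mul_one]
      rcases (Nat.cast_nonneg (α := ℝ) (bx x r).card).eq_or_lt with h4 | h4
      · rw [← h4]
        simp
      · rw [inv_mul_le_iff₀ h4, mul_one]
        exact h3
    linarith
  have key := hdet lam hlam b2 (fun x => lam * ω x) (ψ ω) (hψ ω) b L hL T hTd c hc1 J f hf E he s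
  have hQe : ∫ u in (0 : ℝ)..1, 2 * (1 - u) * (Sc (ψ ω) (bx b L) c (u * T)).re = Q ω := by
    rw [hQ]
  rw [hQe] at key
  have h3 : ∀ j ∈ s, δ ^ 2 / 4 ≤ ‖∑ x ∈ bx b L, c x * ((‖f j x‖ ^ 2 : ℝ) : ℂ)‖ ^ 2 := by
    intro j hj
    have h4 : ∑ x ∈ bx b L, c x * ((‖f j x‖ ^ 2 : ℝ) : ℂ) = (((∑ x ∈ bx b L,
        (a x - ((bx x r).card : ℝ)⁻¹ * ∑ y ∈ bx x r, a y) * ‖f j x‖ ^ 2) / 2 : ℝ) : ℂ) := by
      rw [hc, Finset.sum_div]
      push_cast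
      refine Finset.sum_congr rfl fun x _ => ?_
      ring
    rw [h4, Complex.norm_real, Real.norm_eq_abs, abs_div, abs_of_pos (by norm_num : (0 : ℝ) < 2)]
    have h5 := hs j hj
    have h6 := pow_le_pow_left₀ hδ.le h5 2
    calc δ ^ 2 / 4 ≤ |∑ x ∈ bx b L,
        (a x - ((bx x r).card : ℝ)⁻¹ * ∑ y ∈ bx x r, a y) * ‖f j x‖ ^ 2| ^ 2 / 4 := by gcongr
      _ = _ := by ring
  have h4 : (s.card : ℝ) * (δ ^ 2 / 4) ≤ 2 * Q ω + e1 * (bx b L).card := by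
    refine le_trans ?_ key
    have := Finset.sum_le_sum h3
    rw [Finset.sum_const, nsmul_eq_mul] at this
    exact this
  have h5 : (s.card : ℝ) * (δ ^ 2 / 4) ≤ ε * (bx b L).card * (δ ^ 2 / 4) := by
    refine h4.trans ?_
    have h6 : 3 * (e1 * (bx b L).card) ≤ ε * (bx b L).card * (δ ^ 2 / 4) := by
      rw [he1]
      have q1 : 0 ≤ ε * δ ^ 2 * ((bx b L).card : ℝ) :=
        mul_nonneg (mul_nonneg hε.le (sq_nonneg δ)) hcard0.le
      linarith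
    linarith
  exact le_of_mul_le_mul_right h5 (by positivity)

end Pool.Agent.Q218.LE
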