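import Pool.Agent.TH794.HK.FinK
import Pool.Agent.Q218.LE.LatP
import Pool.Agent.Q218.UD.Prof

/-! The characteristic function of the resolvent at the large momenta. -/

set_option autoImplicit false
set_option linter.unusedSectionVars false

open scoped BigOperators Topology
open MeasureTheory Filter Set

namespace Pool.Agent.Q218.LE

open Pool.Agent.TH794.HK
open Pool.Agent.W788.BK
open Pool.Agent.H4R2.LO (Zd)
open Pool.Agent.W788.BK.Num
open Pool.Agent.TH794.LL2 (hexle)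
open Pool.Agent.TH794.QE
open Pool.Agent.TH794.QD (Sol La)
open Pool.Agent.Q218.AD (small_rpow)
open Pool.Agent.Q218.UD (trc trc_meas trc_le ex_rs rs_shift rs_cmp)

/-- the law for the energies `B` at the large momenta -/
def EngP (d : ℕ) (B : ℝ → Prop) (b e0 : ℝ) : Prop :=
  ∃ Kp y0 : ℝ, 0 ≤ Kp ∧ ∀ y : ℝ, y0 ≤ y →
    ∀ (ν : Measure ℝ), IsProbabilityMeasure ν → (∀ᵐ s ∂ν, |s| ≤ b) → ∫ s, s ∂ν = 0 →
    ∀ Vv : ℝ, ∫ s, s ^ 2 ∂ν = Vv → Real.exp (-(1 / 3000) * y) ≤ Vv →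
    ∀ t : ℝ, Real.exp (-(81 / 40) * y) ≤ t → t ≤ Real.exp (-(161 / 80) * y) →
    ∃ G : Set (Zd d → ℝ), MeasurableSet G ∧
      1 - Real.exp (-Real.exp (y / 100)) ≤ (Measure.infinitePi fun _ : Zd d => ν).real G ∧
      ∀ ξ ∈ G, QLawP d B (fun p => (∀ i, |p i| ≤ Real.pi) ∧
          Kp * (t * (Real.exp (-2 * y) * Vv)) ≤ ∑ i, p i ^ 2)
        (Real.exp (-1 * y)) (Real.exp (Real.exp (y / 100))) t (Real.exp (-10 * y)) e0 ξ

/-- **the law for one scale** -/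
theorem finP (d : ℕ) (B : ℝ → Prop) (b e0 : ℝ) (hb : 0 < b)
    (hEng : EngP d B (2 * b) e0) :
    ∃ K c0 : ℝ, 0 ≤ K ∧ 0 < c0 ∧ ∀ c : ℝ, 0 < c → c ≤ c0 →
    ∀ (μ : Measure ℝ), IsProbabilityMeasure μ → (∀ᵐ s ∂μ, |s| ≤ b) →
    ∀ Mn V : ℝ, ∫ s, s ∂μ = Mn → ∫ s, (s - Mn) ^ 2 ∂μ = V → c ^ (1 / 3000 : ℝ) ≤ V →
    ∀ η : ℝ, c ^ (81 / 40 : ℝ) ≤ η → η ≤ c ^ (161 / 80 : ℝ) →
      ∃ G : Set (Zd d → ℝ), MeasurableSet G ∧
        1 - Real.exp (-c ^ (-(1 / 101) : ℝ)) ≤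
          (Measure.infinitePi fun _ : Zd d => μ).real G ∧
        ∀ ω ∈ G,
          ∀ a : Zd d, ‖a‖ ≤ Real.exp (c ^ (-(1 / 101) : ℝ)) →
          ∀ e : ℝ, B (2 * d + c * Mn - e) →
          ∀ u : Zd d → ℂ, Rs d (fun x => 2 * d + c * ω x) a e η u →
          ∀ p : Fin d → ℝ, (∀ i, |p i| ≤ Real.pi) → K * (η * (c ^ 2 * V)) ≤ ∑ i, p i ^ 2 →
            ‖((η : ℝ) : ℂ) * ∑' x, ph p (x - a) * ((‖u x‖ ^ 2 : ℝ) : ℂ)‖ ≤ e0 := by
  obtain ⟨K, y0, hK, h0⟩ := hEng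
  obtain ⟨y1, hy1⟩ : ∃ y1, y1 = max y0 1 := ⟨_, rfl⟩
  refine ⟨K, Real.exp (-y1), hK, Real.exp_pos _, ?_⟩
  intro c hc hc0 μ hμ hμb Mn V hM hV hvV η hηl hηu
  obtain ⟨y, hy⟩ : ∃ y, y = Real.log (1 / c) := ⟨_, rfl⟩
  have hlogc : Real.log c = -y := by
    rw [hy, one_div, Real.log_inv, neg_neg]
  have hyy1 : y1 ≤ y := by
    have h1 := Real.log_le_log hc hc0
    rw [Real.log_exp, hlogc] at h1
    linarith
  have hyy0 : y0 ≤ y := le_trans (by rw [hy1]; exact le_max_left _ _) hyy1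
  have hyone : 1 ≤ y := le_trans (by rw [hy1]; exact le_max_right _ _) hyy1
  have hrp : ∀ p q : ℝ, q = -p → c ^ p = Real.exp (q * y) := by
    intro p q hpq
    rw [Real.rpow_def_of_pos hc, hlogc, hpq]
    congr 1
    ring
  have e1 : c ^ (-(1 / 101) : ℝ) = Real.exp (1 / 101 * y) := hrp _ _ (by norm_num)
  have e2 : c ^ (81 / 40 : ℝ) = Real.exp (-(81 / 40) * y) := hrp _ _ (by norm_num)
  have e2' : c ^ (161 / 80 : ℝ) = Real.exp (-(161 / 80) * y) := hrp _ _ (by norm_num)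
  have e4 : c ^ (1 / 3000 : ℝ) = Real.exp (-(1 / 3000) * y) := hrp _ _ (by norm_num)
  rw [e4] at hvV
  have e6 : c = Real.exp (-1 * y) := by
    rw [neg_one_mul, ← hlogc, Real.exp_log hc]
  have e7 : c ^ 2 = Real.exp (-2 * y) := by
    rw [e6, ex_pow]
    norm_num
  have e8 : Real.exp (y / 100) = Real.exp (1 / 100 * y) := by
    congr 1
    ring
  -- the centred law
  have hmm : Measurable fun s : ℝ => Mn - s := by fun_prop
  obtain ⟨ν, hνdef⟩ : ∃ ν, ν = μ.map fun s => Mn - s := ⟨_, rfl⟩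
  have hνp : IsProbabilityMeasure ν := by
    rw [hνdef]
    exact Measure.isProbabilityMeasure_map hmm.aemeasurable
  have hMb : |Mn| ≤ b := by
    rw [← hM, ← Real.norm_eq_abs]
    refine (norm_integral_le_of_norm_le_const (C := b) ?_).trans (le_of_eq ?_)
    · filter_upwards [hμb] with s hs
      exact hs
    · rw [probReal_univ, mul_one]
  have hνb : ∀ᵐ s ∂ν, |s| ≤ 2 * b := by
    rw [hνdef, ae_map_iff hmm.aemeasurable (measurableSet_le (by fun_prop) (by fun_prop))]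
    filter_upwards [hμb] with s hs
    refine (abs_sub _ _).trans ?_
    linarith
  have hint : Integrable (fun s : ℝ => s) μ := by
    refine Integrable.mono' (integrable_const b) (by fun_prop) ?_
    filter_upwards [hμb] with s hs
    exact hs
  have hν0 : ∫ s, s ∂ν = 0 := by
    rw [hνdef, integral_map hmm.aemeasurable (by fun_prop), integral_sub (integrable_const _) hint,
      hM, integral_const, probReal_univ, one_smul, sub_self]
  have hν2 : ∫ s, s ^ 2 ∂ν = V := by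
    rw [hνdef, integral_map hmm.aemeasurable (by fun_prop), ← hV]
    refine integral_congr_ae (Filter.Eventually.of_forall fun s => ?_)
    ring
  rw [e2] at hηl
  rw [e2'] at hηu
  obtain ⟨Γ, hΓm, hΓP, hΓL⟩ := h0 y hyy0 ν hνp hνb hν0 V hν2 hvV η hηl hηu
  have hTm : Measurable (fun (ω : Zd d → ℝ) x => Mn - ω x) := by fun_prop
  have hlaw : (Measure.infinitePi fun _ : Zd d => μ).map (fun ω x => Mn - ω x) =
      Measure.infinitePi fun _ : Zd d => ν := by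
    rw [hνdef]
    exact Measure.infinitePi_map_pi (μ := fun _ : Zd d => μ)
      (f := fun _ (s : ℝ) => Mn - s) (fun _ => by fun_prop)
  have hexp : Real.exp (1 / 101 * y) ≤ Real.exp (1 / 100 * y) := by
    apply Real.exp_le_exp.2
    linarith
  refine ⟨(fun ω x => Mn - ω x) ⁻¹' Γ, hTm hΓm, ?_, ?_⟩
  · have h1 : (Measure.infinitePi fun _ : Zd d => μ).real ((fun ω x => Mn - ω x) ⁻¹' Γ) =
        (Measure.infinitePi fun _ : Zd d => ν).real Γ := by
      rw [← hlaw, map_measureReal_apply hTm hΓm]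
    rw [h1]
    refine le_trans ?_ hΓP
    rw [e1, e8]
    have : Real.exp (-Real.exp (1 / 100 * y)) ≤ Real.exp (-Real.exp (1 / 101 * y)) :=
      Real.exp_le_exp.2 (by linarith)
    linarith
  · intro ω hω a ha e he u hu p hp hpK
    have hη0 : 0 < η := (Real.exp_pos _).trans_le hηl
    have ha' : ‖a‖ ≤ Real.exp (Real.exp (y / 100)) := by
      refine ha.trans (Real.exp_le_exp.2 ?_)
      rw [e1, e8]
      exact hexp
    have hVx : ∀ x, (fun x => 2 * (d : ℝ) + c * ω x) x = (2 * d + c * Mn) -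
        Real.exp (-1 * y) * (fun x => Mn - ω x) x := by
      intro x
      rw [← e6]
      ring
    have hlaw1 := hΓL _ hω a ha' (2 * d + c * Mn - e) he η le_rfl
      (by linarith [Real.exp_pos (-10 * y)]) _ _ (rs_LS hu _ _ _ hVx) p
      ⟨hp, by rw [← e7]; exact hpK⟩
    have e9 : (fun x => ph p (x - a) * (((-(u x).re) ^ 2 + (u x).im ^ 2 : ℝ) : ℂ)) =
        fun x => ph p (x - a) * ((‖u x‖ ^ 2 : ℝ) : ℂ) := by
      funext x
      rw [← Complex.normSq_eq_norm_sq, Complex.normSq_apply]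
      congr 2
      ring
    rw [e9] at hlaw1
    exact hlaw1

/-- **the large momenta at the good sites** -/
theorem profP (d : ℕ) (hd : 2 ≤ d) (U : Set ℝ) (v e0 : ℝ) (hv : 0 < v) (he0 : 0 < e0)
    (hEng : ∀ b e0 : ℝ, 0 < b → 0 < e0 → EngP d (fun E => E ∈ U) b e0) :
    ∃ K l0 : ℝ, 0 ≤ K ∧ 0 < l0 ∧ ∀ lam : ℝ, 0 < lam → lam ≤ l0 →
    ∀ (μ : Measure ℝ), IsProbabilityMeasure μ → ∀ M mB VB B : ℝ, B = lam ^ (-(1 / 7000) : ℝ) →
    ∫ s, trc M B s ∂μ = mB → ∫ s, (trc M B s - mB) ^ 2 ∂μ = VB → v ≤ B ^ 2 * VB →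
    ∀ η : ℝ, lam ^ (20245 / 10000 : ℝ) ≤ η → η ≤ lam ^ (20123 / 10000 : ℝ) →
      ∃ G : Set (Zd d → ℝ), MeasurableSet G ∧
        1 - Real.exp (-lam ^ (-(1 / 102) : ℝ)) ≤
          (Measure.infinitePi fun _ : Zd d => μ).real G ∧
        ∀ ω ∈ G, ∀ a : Zd d, ‖a‖ ≤ Real.exp (lam ^ (-(1 / 102) : ℝ)) →
          (∀ x, ‖x - a‖ ≤ lam ^ (-10 : ℝ) → |ω x - M| ≤ B) →
          ∀ E0 e : ℝ, E0 + lam * M + lam * B * mB - e ∈ U →
          ∀ u : Zd d → ℂ, Rs d (fun x => E0 + lam * ω x) a e η u →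
          ∀ p : Fin d → ℝ, (∀ i, |p i| ≤ Real.pi) →
            K * (η * (lam ^ 2 * (B ^ 2 * VB))) ≤ ∑ i, p i ^ 2 →
            ‖((η : ℝ) : ℂ) * ∑' x, ph p (x - a) * ((‖u x‖ ^ 2 : ℝ) : ℂ)‖ ≤ e0 := by
  have hd1 : 1 ≤ d := by omega
  obtain ⟨K, c0, hK, hc0, hfin⟩ := finP d (fun E => E ∈ U) 1 (e0 / 2) one_pos
    (hEng _ _ (by norm_num) (by positivity))
  obtain ⟨l1, hl1, hs1⟩ := small_rpow (6999 / 7000) c0 (by norm_num) hc0
  obtain ⟨l2, hl2, hs2⟩ := small_rpow (6999 / 21000000 - 2 / 7000) v (by norm_num) hv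
  obtain ⟨l4, hl4, hs4⟩ := small_rpow (10 - 4 * (20245 / 10000))
    (e0 / (2 * (16 * d ^ 2 + 2 * d + 2))) (by norm_num) (by positivity)
  refine ⟨K, min (min (min l1 l2) l4) 1, hK, by positivity, ?_⟩
  intro lam hlam hlam0 μ hμ M mB VB B hB hmB hVB hvB η hη1 hη2
  have b0 := hlam0.trans (min_le_left _ _)
  have b1 : lam ≤ l1 := b0.trans ((min_le_left _ _).trans (min_le_left _ _))
  have b2 : lam ≤ l2 := b0.trans ((min_le_left _ _).trans (min_le_right _ _))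
  have b4 : lam ≤ l4 := b0.trans (min_le_right _ _)
  have b5 : lam ≤ 1 := hlam0.trans (min_le_right _ _)
  have hB0 : 0 < B := by rw [hB]; positivity
  obtain ⟨c, hc⟩ : ∃ c, c = lam * B := ⟨_, rfl⟩
  have hcl : c = lam ^ (6999 / 7000 : ℝ) := by
    have h1 : lam = lam ^ (1 : ℝ) := (Real.rpow_one lam).symm
    rw [hc, hB]
    conv_lhs => rw [h1, ← Real.rpow_mul hlam.le, ← Real.rpow_add hlam]
    norm_num
  have hc0' : 0 < c := by rw [hc]; positivity
  have hcc : c ≤ c0 := by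
    rw [hcl]
    exact hs1 lam hlam b1
  have hcp : ∀ p : ℝ, c ^ p = lam ^ (6999 / 7000 * p) := by
    intro p
    rw [hcl, ← Real.rpow_mul hlam.le]
  -- the law
  have hν : IsProbabilityMeasure (μ.map (trc M B)) :=
    Measure.isProbabilityMeasure_map (trc_meas M B).aemeasurable
  have hVBc : c ^ (1 / 3000 : ℝ) ≤ VB := by
    have h1 := hs2 lam hlam b2
    have h2 : B ^ 2 = lam ^ (-(2 / 7000) : ℝ) := by
      rw [hB, ← Real.rpow_natCast, ← Real.rpow_mul hlam.le]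
      norm_num
    have h3 : lam ^ (6999 / 21000000 - 2 / 7000 : ℝ) = c ^ (1 / 3000 : ℝ) * B ^ 2 := by
      rw [hcp, h2, ← Real.rpow_add hlam]
      norm_num
    rw [h3] at h1
    have h4 : c ^ (1 / 3000 : ℝ) * B ^ 2 ≤ VB * B ^ 2 := by
      rw [mul_comm VB]
      exact h1.trans hvB
    exact le_of_mul_le_mul_right h4 (by positivity)
  obtain ⟨G', hG', hP', hL⟩ := hfin c hc0' hcc (μ.map (trc M B)) hν (by
      rw [ae_map_iff (trc_meas M B).aemeasurable (measurableSet_le (by fun_prop) measurable_const)]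
      exact Filter.Eventually.of_forall fun s => trc_le hB0 M s) mB VB
    (by rw [integral_map (trc_meas M B).aemeasurable (by fun_prop)]; exact hmB)
    (by rw [integral_map (trc_meas M B).aemeasurable (by fun_prop)]; exact hVB) hVBc η
    (by
      refine le_trans ?_ hη1
      rw [hcp]
      exact Real.rpow_le_rpow_of_exponent_ge hlam b5 (by norm_num))
    (by
      refine hη2.trans ?_
      rw [hcp]
      exact Real.rpow_le_rpow_of_exponent_ge hlam b5 (by norm_num))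
  have hTm : Measurable (fun (ω : Zd d → ℝ) x => trc M B (ω x)) :=
    measurable_pi_lambda _ fun x => (trc_meas M B).comp (measurable_pi_apply x)
  have hlaw : (Measure.infinitePi fun _ : Zd d => μ).map (fun ω x => trc M B (ω x)) =
      Measure.infinitePi fun _ : Zd d => μ.map (trc M B) :=
    Measure.infinitePi_map_pi (μ := fun _ : Zd d => μ)
      (f := fun _ (s : ℝ) => trc M B s) (fun _ => trc_meas M B)
  have hcexp : lam ^ (-(1 / 102) : ℝ) ≤ c ^ (-(1 / 101) : ℝ) := by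
    rw [hcp]
    exact Real.rpow_le_rpow_of_exponent_ge hlam b5 (by norm_num)
  refine ⟨(fun ω x => trc M B (ω x)) ⁻¹' G', hTm hG', ?_, ?_⟩
  · rw [← map_measureReal_apply hTm hG', hlaw]
    refine le_trans ?_ hP'
    have : Real.exp (-c ^ (-(1 / 101) : ℝ)) ≤ Real.exp (-lam ^ (-(1 / 102) : ℝ)) :=
      Real.exp_le_exp.2 (by linarith)
    linarith
  intro ω hω a ha hloc E0 e he u hu p hp hpK
  have hη0 : 0 < η := lt_of_lt_of_le (by positivity) hη1
  obtain ⟨r, hr⟩ : ∃ r, r = E0 - 2 * d + lam * M := ⟨_, rfl⟩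
  obtain ⟨u', hu'⟩ := ex_rs hd1 (fun x => 2 * d + c * trc M B (ω x)) a (e - r) η hη0
  have ee : 2 * (d : ℝ) + c * mB - (e - r) = E0 + lam * M + lam * B * mB - e := by
    rw [hr, hc]
    ring
  have key := hL _ hω a (ha.trans (Real.exp_le_exp.2 hcexp)) (e - r)
    (by rw [ee]; exact he) u' hu' p hp (by
      have : c ^ 2 * VB = lam ^ 2 * (B ^ 2 * VB) := by
        rw [hc]
        ring
      rw [this]
      exact hpK)
  have hη1' : η ≤ 1 := hη2.trans (Real.rpow_le_one hlam.le b5 (by norm_num))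
  have hR1 : (1 : ℝ) ≤ lam ^ (-10 : ℝ) :=
    Real.one_le_rpow_of_pos_of_le_one_of_nonpos hlam b5 (by norm_num)
  have cmp := rs_cmp (V' := fun x => 2 * d + c * trc M B (ω x)) (u' := u')
    (rs_shift (V' := fun x => 2 * d + lam * (ω x - M)) (e' := e - r) hu r (fun x => by
      rw [hr]
      ring) rfl) hu' hη0 hη1' (lam ^ (-10 : ℝ)) hR1 (fun x hx => by
      have h1 := hloc x hx
      unfold trc
      rw [if_pos h1, hc]
      field_simp) (fun x => ph p (x - a)) (fun x => (ph_norm p (x - a)).le)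
  -- the numbers
  have n2 : (16 * (d : ℝ) ^ 2 + 2 * d + 2) / lam ^ (-10 : ℝ) * (η⁻¹) ^ 4 ≤ e0 / 2 := by
    have h1 := hs4 lam hlam b4
    have h2 : η⁻¹ ≤ lam ^ (-(20245 / 10000) : ℝ) := by
      rw [Real.rpow_neg hlam.le]
      exact inv_anti₀ (by positivity) hη1
    have h3 : (η⁻¹) ^ 4 ≤ lam ^ (-(4 * (20245 / 10000)) : ℝ) := by
      refine (pow_le_pow_left₀ (by positivity) h2 4).trans (le_of_eq ?_)
      rw [← Real.rpow_natCast, ← Real.rpow_mul hlam.le]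
      norm_num
    have hD : 0 < 16 * (d : ℝ) ^ 2 + 2 * d + 2 := by positivity
    have e1 : (16 * (d : ℝ) ^ 2 + 2 * d + 2) / lam ^ (-10 : ℝ) =
        (16 * (d : ℝ) ^ 2 + 2 * d + 2) * lam ^ (10 : ℝ) := by
      rw [Real.rpow_neg hlam.le, div_inv_eq_mul]
    rw [e1]
    calc (16 * (d : ℝ) ^ 2 + 2 * d + 2) * lam ^ (10 : ℝ) * (η⁻¹) ^ 4 ≤
        (16 * (d : ℝ) ^ 2 + 2 * d + 2) * lam ^ (10 : ℝ) * lam ^ (-(4 * (20245 / 10000)) : ℝ) := by
          gcongr
      _ = (16 * (d : ℝ) ^ 2 + 2 * d + 2) * lam ^ (10 - 4 * (20245 / 10000) : ℝ) := by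
          rw [mul_assoc, ← Real.rpow_add hlam]
          norm_num
      _ ≤ (16 * (d : ℝ) ^ 2 + 2 * d + 2) * (e0 / (2 * (16 * (d : ℝ) ^ 2 + 2 * d + 2))) := by gcongr
      _ = _ := by field_simp
  have e3 := norm_sub_le_norm_sub_add_norm_sub
    ((η : ℂ) * ∑' x, ph p (x - a) * ((‖u x‖ ^ 2 : ℝ) : ℂ))
    ((η : ℂ) * ∑' x, ph p (x - a) * ((‖u' x‖ ^ 2 : ℝ) : ℂ)) 0
  rw [sub_zero, sub_zero] at e3
  linarith

end Pool.Agent.Q218.LE
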