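import Pool.Agent.Q218.LE.ParP
import Pool.Agent.Q218.LE.FinP
import Pool.Agent.Q218.UD.Free

/-! The free densities and the engine for the large momenta, in every dimension. -/

set_option autoImplicit false
set_option linter.unusedSectionVars false

open MeasureTheory Set Filter Topology

namespace Pool.Agent.Q218.LE

open Pool.Agent.H4R2.LO (Zd)
open Pool.Agent.TH794.HK
open Pool.Agent.TH794.QE
open Pool.Agent.TH794.QD (GF F0 F1 GF_im CH_nonneg)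
open Pool.Agent.TH311.LL2D (Bu Bu.near)
open Pool.Agent.Q218.UD (FreeD free2 free3 EngU D0 D1 D01 D_low D0_int D0_mass)

/-- the free densities, and the two engines for the bulk energies -/
structure FreeE (d : ℕ) (G0 G1 : ℝ → ℝ) : Prop where
  free : FreeD d G0 G1
  bulk : ∀ ε : ℝ, 0 < ε → ∃ U : Set ℝ, MeasurableSet U ∧ volume U ≠ ⊤ ∧
    volume.real U ≤ 2 * (2 * d) ∧ 1 - Real.pi⁻¹ * ∫ E in U, G0 E ≤ ε ∧
    ∃ γ0 γ1 : ℝ → ℂ, (∀ E ∈ U, (γ0 E).im = G0 E ∧ (γ1 E).im = G1 E ∧ 0 < G0 E) ∧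
      (∃ Γm : ℝ, ∀ E ∈ U, G0 E ≤ Γm) ∧
      (∀ b Kp : ℝ, 0 < b → 0 ≤ Kp → EngU d (fun E => E ∈ U) γ0 γ1 b Kp) ∧
      ∀ b e0 : ℝ, 0 < b → 0 < e0 → EngP d (fun E => E ∈ U) b e0

/-- the law at the small momenta for a smaller set of energies -/
theorem engU_mono {d : ℕ} {B B' : ℝ → Prop} {γ0 γ1 : ℝ → ℂ} {b Kp : ℝ} (h : ∀ E, B' E → B E)
    (hE : EngU d B γ0 γ1 b Kp) : EngU d B' γ0 γ1 b Kp := by
  obtain ⟨y0, h0⟩ := hE
  refine ⟨y0, fun y hy ν hν hνb hν0 Vv hVv hvV t htl htu => ?_⟩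
  obtain ⟨G, hG, hP, hL⟩ := h0 y hy ν hν hνb hν0 Vv hVv hvV t htl htu
  exact ⟨G, hG, hP, fun ξ hξ a ha E hE' => hL ξ hξ a ha E (h E hE')⟩

theorem freeE2 (hSYM : S_SYM) (hTHL : S_THL) :
    FreeE 2 Pool.Agent.Q218.AD2.R0 Pool.Agent.Q218.AD2.R1 := by
  refine ⟨free2, fun ε hε => ?_⟩
  obtain ⟨κ, hκ, hκ1, hκs⟩ := Pool.Agent.Q218.AD2.bulk_small ε hε
  obtain ⟨ka, hka⟩ : ∃ ka, ka = κ / 3 := ⟨_, rfl⟩
  have hka0 : 0 < ka := by rw [hka]; positivity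
  have hka1 : ka ≤ 1 := by rw [hka]; linarith
  have hCHge := Pool.Agent.TH311.LL2D.CH_ge ka
  have hCHge' := Pool.Agent.TH311.LL2D.CH_ge κ
  have hBE : ∀ E : ℝ, Pool.Agent.Q218.AD2.Bs κ E → |E| ≤ 3 * ((2 : ℕ) : ℝ) ∧ Bu ka E ∧
      ∀ x, |E - x| ≤ ka → Bu (2 * ka) x := fun E hE => by
    have hE3 : Bu (3 * ka) E := by
      have e3 : 3 * ka = κ := by rw [hka]; ring
      rw [e3]
      exact hE
    refine ⟨?_, hE3.near (r := 0) (by simp) (by linarith), fun x hx => hE3.near hx (by linarith)⟩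
    have := hE.2
    push_cast at this ⊢
    linarith
  have hBx : ∀ E x : ℝ, Bu (2 * ka) E → |x - E| ≤ ka → Bu ka x := fun E x hE hx => by
    rw [abs_sub_comm] at hx
    exact hE.near hx (by linarith)
  have hdat := dat2 ka hka0 hka1
  have e1 : (11 / 10 : ℝ) = 11 / (5 * ((2 : ℕ) : ℝ)) := by norm_num
  rw [e1] at hdat
  obtain ⟨m, hm, hl⟩ : ∃ m : ℝ, 0 < m ∧ ∀ E, Bu κ E → m ≤ (bvl (F1 2) E).im := by
    refine ⟨κ ^ 2 / (1024 * Real.pi ^ 2), by have := Real.pi_pos; positivity, fun E hE => ?_⟩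
    exact bvl_low κ hκ hκ1 E hE
  obtain ⟨Γm, hΓ0, hΓ⟩ : ∃ Γm : ℝ, 0 ≤ Γm ∧ ∀ E, Bu κ E → (bvl (F0 2) E).im ≤ Γm := by
    refine ⟨‖bvl (F0 2) 1‖ + 2 * Pool.Agent.TH311.LL2D.CH κ * 5, by positivity, fun E hE => ?_⟩
    have h1 : Bu κ 1 := ⟨by rw [abs_one]; exact hκ1, by rw [abs_one]; linarith⟩
    have h2 := (holS0 κ hκ hκ1).lip E 1 hE h1
    have h3 : |E - 1| ≤ 5 := by
      refine (abs_sub _ _).trans ?_
      rw [abs_one]
      linarith [hE.2]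
    have h4 : |E - 1| ^ (1 / 8 : ℝ) ≤ 5 := by
      calc |E - 1| ^ (1 / 8 : ℝ) ≤ (5 : ℝ) ^ (1 / 8 : ℝ) :=
            Real.rpow_le_rpow (abs_nonneg _) h3 (by norm_num)
        _ ≤ (5 : ℝ) ^ (1 : ℝ) := Real.rpow_le_rpow_of_exponent_le (by norm_num) (by norm_num)
        _ = 5 := Real.rpow_one 5
    have h5 : 2 * Pool.Agent.TH311.LL2D.CH κ * |E - 1| ^ (1 / 8 : ℝ) ≤
        2 * Pool.Agent.TH311.LL2D.CH κ * 5 := by
      apply mul_le_mul_of_nonneg_left h4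
      positivity
    have h6 := norm_sub_norm_le (bvl (F0 2) E) (bvl (F0 2) 1)
    have h7 := (le_abs_self _).trans (Complex.abs_im_le_norm (bvl (F0 2) E))
    linarith
  refine ⟨Pool.Agent.Q218.AD2.Bs κ, Pool.Agent.Q218.AD2.Bs_meas κ,
    Pool.Agent.Q218.AD2.Bs_fin κ hκ.le, ?_, hκs, bvl (F0 2), bvl (F1 2), ?_, ?_, ?_, ?_⟩
  · have := Pool.Agent.Q218.AD2.Bs_vol κ hκ.le
    push_cast
    linarith
  · intro E hE
    have hU := Pool.Agent.Q218.AD2.Bs_U0 κ hκ hE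
    exact ⟨(Pool.Agent.Q218.AD2.R0_eq hU).symm, (Pool.Agent.Q218.AD2.R1_eq hU).symm,
      Pool.Agent.Q218.AD2.R0_pos hU⟩
  · refine ⟨Γm, fun E hE => ?_⟩
    rw [Pool.Agent.Q218.AD2.R0_eq (Pool.Agent.Q218.AD2.Bs_U0 κ hκ hE)]
    exact hΓ E hE
  · intro b Kp hb hKp
    obtain ⟨y0, h0⟩ := Pool.Agent.Q218.UD.engineU Pool.Agent.W193.BK.ES.es
      (Pool.Agent.W261.BK.third Pool.Agent.W540.BK.fac)
      (Pool.Agent.W240.BK.fluct (Pool.Agent.W240.BK.var Pool.Agent.W193.BK.ES.es))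
      Pool.Agent.W475.BK.inv Pool.Agent.W975.BK.sup
      Pool.Agent.W475.BK.low Pool.Agent.W790.BK.ADM.adm Pool.Agent.W540.BK.fac
      2 le_rfl (Bu ka) (Bu (2 * ka)) (fun E => E ∈ Pool.Agent.Q218.AD2.Bs κ) 1700
      (2 * (2600000 / ka ^ 3))
      (2 * Pool.Agent.TH311.LL2D.CH ka) (bvl (F0 2)) (bvl (F1 2)) hdat (by norm_num)
      (by positivity) (by linarith) ka hka0 hBE hBx
      b (m / 2) Kp hb (by positivity) hKp
      (fun E hE => by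
        have h1 := hl E hE
        have h2 := (bvl_im κ hκ hκ1 E hE).2
        linarith)
    exact ⟨y0, h0⟩
  · intro b e0 hb he0
    obtain ⟨K, y0, hK, h0⟩ := engineP Pool.Agent.W193.BK.ES.es
      (Pool.Agent.W261.BK.third Pool.Agent.W540.BK.fac)
      (Pool.Agent.W240.BK.fluct (Pool.Agent.W240.BK.var Pool.Agent.W193.BK.ES.es))
      Pool.Agent.W475.BK.inv Pool.Agent.W975.BK.sup
      Pool.Agent.W475.BK.low Pool.Agent.W790.BK.ADM.adm Pool.Agent.W540.BK.fac hSYM hTHL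
      2 le_rfl (Bu ka) (Bu (2 * ka)) (fun E => E ∈ Pool.Agent.Q218.AD2.Bs κ) 1700
      (2 * (2600000 / ka ^ 3))
      (2 * Pool.Agent.TH311.LL2D.CH ka) (bvl (F0 2)) (bvl (F1 2)) hdat (by norm_num)
      (by positivity) (by linarith) ka hka0 hBE hBx
      b (m / 2) Γm κ e0 hb (by positivity) hΓ0 hκ he0
      (fun E hE => by
        have h1 := hl E hE
        linarith)
      (fun E hE => hΓ E hE)
      (fun E hE => hE.1)
    exact ⟨K, y0, hK, h0⟩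

/-- the bulk without the centre -/
theorem bulk3 (d : ℕ) (hd : 3 ≤ d) (ε : ℝ) (hε : 0 < ε) : ∃ κ κ' Γm : ℝ, 0 < κ ∧ κ ≤ 1 ∧ 0 < κ' ∧
    0 ≤ Γm ∧ (∀ E, D0 d E ≤ Γm) ∧
    1 - Real.pi⁻¹ * ∫ E in {E : ℝ | κ' ≤ |E| ∧ |E| ≤ 2 * d - κ}, D0 d E ≤ ε := by
  have hO := Pool.Agent.W918.BK.Osc.osc
  have c0 : Continuous (D0 d) := Pool.Agent.Q218.AD.gf0_cont hO d hd
  have hd3 : (3 : ℝ) ≤ d := by exact_mod_cast hd
  have hm := Pool.Agent.Q218.AD.dos_mass hO d hd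
  have hpi := Real.pi_pos
  obtain ⟨κ, hκ, hκ1, hκs⟩ := Pool.Agent.Q218.AD.edge_small (X := 2 * (d : ℝ)) (G0 := D0 d) c0 hm
    (ε / 2) (by positivity)
  obtain ⟨Γ, hΓ⟩ := (isCompact_Icc (a := -(2 * (d : ℝ))) (b := 2 * (d : ℝ))).exists_bound_of_continuousOn
    c0.continuousOn
  obtain ⟨Γm, hΓm⟩ : ∃ Γm, Γm = max Γ 1 := ⟨_, rfl⟩
  have hΓm1 : 1 ≤ Γm := by rw [hΓm]; exact le_max_right _ _
  have hup : ∀ E, D0 d E ≤ Γm := by
    intro E
    by_cases hE : E ∈ Icc (-(2 * (d : ℝ))) (2 * (d : ℝ))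
    · exact ((le_abs_self _).trans (hΓ E hE)).trans (by rw [hΓm]; exact le_max_left _ _)
    · have h1 : D0 d E = 0 := by
        refine Pool.Agent.Q218.AD.dos_zero hO d hd E ?_
        by_contra hcon
        rw [not_lt] at hcon
        exact hE (abs_le.1 hcon)
      rw [h1]
      linarith
  obtain ⟨κ', hκ'⟩ : ∃ κ', κ' = ε * Real.pi / (4 * Γm) := ⟨_, rfl⟩
  have hκ'0 : 0 < κ' := by rw [hκ']; positivity
  refine ⟨κ, κ', Γm, hκ, hκ1, hκ'0, by linarith, hup, ?_⟩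
  have hle : -(2 * (d : ℝ) - κ) ≤ 2 * (d : ℝ) - κ := by linarith
  have hsub : Icc (-(2 * (d : ℝ) - κ)) (2 * (d : ℝ) - κ) ⊆
      {E : ℝ | κ' ≤ |E| ∧ |E| ≤ 2 * d - κ} ∪ Ioo (-κ') κ' := by
    intro E hE
    by_cases h : κ' ≤ |E|
    · exact Or.inl ⟨h, abs_le.2 hE⟩
    · rw [not_le] at h
      exact Or.inr (abs_lt.1 h)
  have n0 : ∀ E, 0 ≤ D0 d E := fun E => (D01 d hd E).1.trans (D01 d hd E).2
  have i0 := D0_int d hd
  have hmB : MeasurableSet {E : ℝ | κ' ≤ |E| ∧ |E| ≤ 2 * d - κ} :=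
    (measurableSet_le measurable_const continuous_abs.measurable).inter
      (measurableSet_le continuous_abs.measurable measurable_const)
  have h1 : ∫ E in Icc (-(2 * (d : ℝ) - κ)) (2 * (d : ℝ) - κ), D0 d E ≤
      ∫ E in {E : ℝ | κ' ≤ |E| ∧ |E| ≤ 2 * d - κ} ∪ Ioo (-κ') κ', D0 d E :=
    setIntegral_mono_set i0.integrableOn (Filter.Eventually.of_forall fun E => n0 E)
      hsub.eventuallyLE
  have hdis : Disjoint {E : ℝ | κ' ≤ |E| ∧ |E| ≤ 2 * d - κ} (Ioo (-κ') κ') := by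
    rw [Set.disjoint_left]
    intro E hE hE2
    have := abs_lt.2 hE2
    have h2 := hE.1
    linarith
  rw [setIntegral_union hdis measurableSet_Ioo i0.integrableOn i0.integrableOn] at h1
  have h2 : ∫ E in Ioo (-κ') κ', D0 d E ≤ Γm * (2 * κ') := by
    have h3 : ∫ E in Ioo (-κ') κ', D0 d E ≤ ∫ _E in Ioo (-κ') κ', Γm := by
      refine setIntegral_mono i0.integrableOn ?_ hup
      exact integrableOn_const (by rw [Real.volume_Ioo]; exact ENNReal.ofReal_ne_top)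
    rw [setIntegral_const, Real.volume_real_Ioo_of_le (by linarith), smul_eq_mul] at h3
    linarith
  have h4 : ∫ E in Icc (-(2 * (d : ℝ) - κ)) (2 * (d : ℝ) - κ), D0 d E =
      ∫ E in (-(2 * (d : ℝ) - κ))..(2 * (d : ℝ) - κ), D0 d E := by
    rw [integral_Icc_eq_integral_Ioc, ← intervalIntegral.integral_of_le hle]
  rw [← h4] at hκs
  have h5 : Γm * (2 * κ') = ε * Real.pi / 2 := by
    rw [hκ']
    field_simp
    ring
  rw [h5] at h2
  have h6 : Real.pi⁻¹ * (∫ E in Icc (-(2 * (d : ℝ) - κ)) (2 * (d : ℝ) - κ), D0 d E) ≤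
      Real.pi⁻¹ * (∫ E in {E : ℝ | κ' ≤ |E| ∧ |E| ≤ 2 * d - κ}, D0 d E) + ε / 2 := by
    have h7 := mul_le_mul_of_nonneg_left (h1.trans (add_le_add_right h2 _)) (inv_pos.2 hpi).le
    rw [mul_add] at h7
    have h8 : Real.pi⁻¹ * (ε * Real.pi / 2) = ε / 2 := by
      field_simp
    rw [h8] at h7
    exact h7
  linarith

theorem freeE3 (hSYM : S_SYM) (hTHL : S_THL) (d : ℕ) (hd : 3 ≤ d) : FreeE d (D0 d) (D1 d) := by
  have hO := Pool.Agent.W918.BK.Osc.osc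
  refine ⟨free3 d hd, fun ε hε => ?_⟩
  have hd3 : (3 : ℝ) ≤ d := by exact_mod_cast hd
  obtain ⟨κ, κ', Γm, hκ, hκ1, hκ', hΓ0, hΓ, hs⟩ := bulk3 d hd ε hε
  obtain ⟨m, hml0, hl⟩ := D_low d hd κ hκ hκ1
  obtain ⟨U, hU⟩ : ∃ U : Set ℝ, U = {E : ℝ | κ' ≤ |E| ∧ |E| ≤ 2 * d - κ} := ⟨_, rfl⟩
  rw [← hU] at hs
  have hUm : ∀ E, E ∈ U ↔ κ' ≤ |E| ∧ |E| ≤ 2 * d - κ := fun E => by rw [hU]; rfl
  have hmU : MeasurableSet U := by
    rw [hU]
    exact (measurableSet_le measurable_const continuous_abs.measurable).inter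
      (measurableSet_le continuous_abs.measurable measurable_const)
  have hUI : U ⊆ Icc (-(2 * (d : ℝ))) (2 * d) := by
    intro E hE
    have := ((hUm E).1 hE).2
    exact abs_le.1 (by linarith)
  have hfin : volume (Icc (-(2 * (d : ℝ))) (2 * d)) ≠ ⊤ := by
    rw [Real.volume_Icc]
    exact ENNReal.ofReal_ne_top
  have hQB := Pool.Agent.W465.BK.qb (Pool.Agent.W240.BK.two hO)
  obtain ⟨CQ, hCQ, hdat⟩ := dat3 hQB hO d hd
  refine ⟨U, hmU, ne_top_of_le_ne_top hfin (measure_mono hUI), ?_, hs,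
    fun E => GF (F0 d) (E : ℂ), fun E => GF (F1 d) (E : ℂ), ?_, ⟨Γm, fun E _ => hΓ E⟩, ?_, ?_⟩
  · have h1 : volume.real U ≤ volume.real (Icc (-(2 * (d : ℝ))) (2 * d)) := measureReal_mono hUI hfin
    rw [Real.volume_real_Icc_of_le (by linarith)] at h1
    linarith
  · intro E hE
    refine ⟨rfl, rfl, ?_⟩
    have h1 := hl E ((hUm E).1 hE).2
    have h2 := (D01 d hd E).2
    linarith
  · intro b Kp hb hKp
    obtain ⟨y0, h0⟩ := Pool.Agent.Q218.UD.engineU Pool.Agent.W193.BK.ES.es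
      (Pool.Agent.W261.BK.third Pool.Agent.W540.BK.fac)
      (Pool.Agent.W240.BK.fluct (Pool.Agent.W240.BK.var Pool.Agent.W193.BK.ES.es))
      Pool.Agent.W475.BK.inv Pool.Agent.W975.BK.sup
      Pool.Agent.W475.BK.low Pool.Agent.W790.BK.ADM.adm Pool.Agent.W540.BK.fac
      d (by omega) (fun _ => True)
      (fun _ => True) (fun E => E ∈ U) Pool.Agent.W788.BK.C1 CQ
      (Pool.Agent.TH794.QD.CH d) (fun E => GF (F0 d) (E : ℂ)) (fun E => GF (F1 d) (E : ℂ)) hdat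
      Pool.Agent.W788.BK.C1_ge hCQ (CH_nonneg d) 1 one_pos
      (fun E hE => by
        refine ⟨?_, trivial, fun x hx => trivial⟩
        have := ((hUm E).1 hE).2
        linarith)
      (fun E x hE hx => trivial)
      b (m / 2) Kp hb (by positivity) hKp
      (fun E hE => by
        have h1 := hl E ((hUm E).1 hE).2
        have h2 := (D01 d hd E).2
        unfold D0 D1 at *
        linarith)
    exact ⟨y0, h0⟩
  · intro b e0 hb he0
    obtain ⟨K, y0, hK, h0⟩ := engineP Pool.Agent.W193.BK.ES.es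
      (Pool.Agent.W261.BK.third Pool.Agent.W540.BK.fac)
      (Pool.Agent.W240.BK.fluct (Pool.Agent.W240.BK.var Pool.Agent.W193.BK.ES.es))
      Pool.Agent.W475.BK.inv Pool.Agent.W975.BK.sup
      Pool.Agent.W475.BK.low Pool.Agent.W790.BK.ADM.adm Pool.Agent.W540.BK.fac hSYM hTHL
      d (by omega) (fun _ => True)
      (fun _ => True) (fun E => E ∈ U) Pool.Agent.W788.BK.C1 CQ
      (Pool.Agent.TH794.QD.CH d) (fun E => GF (F0 d) (E : ℂ)) (fun E => GF (F1 d) (E : ℂ)) hdat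
      Pool.Agent.W788.BK.C1_ge hCQ (CH_nonneg d) 1 one_pos
      (fun E hE => by
        refine ⟨?_, trivial, fun x hx => trivial⟩
        have := ((hUm E).1 hE).2
        linarith)
      (fun E x hE hx => trivial)
      b (m / 2) Γm κ' e0 hb (by positivity) hΓ0 hκ' he0
      (fun E hE => by
        have h1 := hl E ((hUm E).1 hE).2
        unfold D1 at h1
        linarith)
      (fun E hE => hΓ E)
      (fun E hE => ((hUm E).1 hE).1)
    exact ⟨K, y0, hK, h0⟩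

end Pool.Agent.Q218.LE
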