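import Pool.Agent.Q218.LE.All
import Pool.Agent.Q218.UD.Gau

/-! The Gaussian and the uniform laws. -/

set_option autoImplicit false
set_option linter.unusedSectionVars false

open scoped BigOperators Topology
open MeasureTheory Filter Set ProbabilityTheory

namespace Pool.Agent.Q218.LE

theorem tailG (d : ℕ) : Tail d (gaussianReal 0 1) 0 := by
  intro ε hε
  have hev : ∀ᶠ X : ℝ in atTop, Real.exp (-Real.exp (1 / 4000 * X)) ≤ ε := by
    have h1 : Tendsto (fun X : ℝ => Real.exp (1 / 4000 * X)) atTop atTop :=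
      Real.tendsto_exp_atTop.comp (tendsto_id.const_mul_atTop (by norm_num))
    have h2 := Real.tendsto_exp_neg_atTop_nhds_zero.comp h1
    exact (h2.eventually (gt_mem_nhds hε)).mono fun X hX => le_of_lt hX
  obtain ⟨X0, hX0⟩ := Filter.eventually_atTop.1 ((Pool.Agent.Q218.UD.numG d).and hev)
  refine ⟨min (Real.exp (-X0)) 1, by positivity, ?_⟩
  intro lam hlam hlam0
  have b3 : lam ≤ Real.exp (-X0) := hlam0.trans (min_le_left _ _)
  have b4 : lam ≤ 1 := hlam0.trans (min_le_right _ _)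
  obtain ⟨B, hB⟩ : ∃ B, B = lam ^ (-(1 / 7000) : ℝ) := ⟨_, rfl⟩
  have hB0 : 0 < B := by rw [hB]; positivity
  obtain ⟨X, hX⟩ : ∃ X, X = Real.log (1 / lam) := ⟨_, rfl⟩
  have hlog : Real.log lam = -X := by rw [hX, one_div, Real.log_inv, neg_neg]
  have hXX0 : X0 ≤ X := by
    have h1 := Real.log_le_log hlam b3
    rw [Real.log_exp, hlog] at h1
    linarith
  have hrp : ∀ p q : ℝ, q = -p → lam ^ p = Real.exp (q * X) := by
    intro p q hpq
    rw [Real.rpow_def_of_pos hlam, hlog, hpq]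
    congr 1
    ring
  have e3 : lam ^ (-10 : ℝ) = Real.exp (10 * X) := hrp _ _ (by norm_num)
  have e4 : B ^ 2 = Real.exp (1 / 3500 * X) := by
    rw [hB, ← Real.rpow_natCast, ← Real.rpow_mul hlam.le]
    exact hrp _ _ (by norm_num)
  have htail : (gaussianReal 0 1).real {s | ¬ |s - 0| ≤ B} ≤ 2 * Real.exp (-B ^ 2 / 2) := by
    simp only [sub_zero]
    exact Q299.GB.tail hB0.le
  obtain ⟨h1, h2⟩ := hX0 X hXX0
  rw [← hB]
  refine le_trans ?_ h2
  refine le_trans ?_ h1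
  rw [e3]
  have e5 : -B ^ 2 / 2 = -(Real.exp (1 / 3500 * X)) / 2 := by rw [e4]
  rw [e5] at htail
  have h3 : (2 * Real.exp (10 * X) + 1) ^ d ≤
      (2 * (Real.exp (Real.exp (1 / 4000 * X)) + Real.exp (10 * X)) + 1) ^ d := by
    refine pow_le_pow_left₀ (by positivity) ?_ d
    have := Real.exp_pos (Real.exp (1 / 4000 * X))
    linarith
  have h4 : (2 * Real.exp (10 * X) + 1) ^ d * (gaussianReal 0 1).real {s | ¬ |s - 0| ≤ B} ≤
      (2 * (Real.exp (Real.exp (1 / 4000 * X)) + Real.exp (10 * X)) + 1) ^ d *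
        (2 * Real.exp (-(Real.exp (1 / 3500 * X)) / 2)) :=
    mul_le_mul h3 htail measureReal_nonneg (by positivity)
  have h5 := Real.exp_pos (-Real.exp (1 / 102 * X))
  linarith

theorem tailB (d : ℕ) (μ : Measure ℝ) [IsProbabilityMeasure μ] (M B0 : ℝ) (hB0 : 0 < B0)
    (h : ∀ᵐ s ∂μ, |s - M| ≤ B0) : Tail d μ M := by
  intro ε hε
  obtain ⟨l1, hl1, hs1⟩ := Pool.Agent.Q218.AD.small_rpow (1 / 7000) (1 / B0) (by norm_num)
    (by positivity)
  refine ⟨l1, hl1, fun lam hlam hlam0 => ?_⟩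
  have h1 := hs1 lam hlam hlam0
  have h2 : B0 ≤ lam ^ (-(1 / 7000) : ℝ) := by
    rw [Real.rpow_neg hlam.le, ← one_div, le_one_div hB0 (by positivity)]
    exact h1
  have h3 : μ.real {s | ¬ |s - M| ≤ lam ^ (-(1 / 7000) : ℝ)} = 0 := by
    rw [measureReal_eq_zero_iff, ← ae_iff]
    filter_upwards [h] with s hs using hs.trans h2
  rw [h3, mul_zero]
  exact hε.le

theorem glipG : GLip (gaussianReal 0 1) :=
  ⟨fun x => x, fun _ _ => le_rfl, Measure.map_id'⟩

end Pool.Agent.Q218.LE
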