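import Pool.Agent.TH794.HK.MeanK
import Pool.Agent.Q218.LE.Core

/-! The mean of the twisted chain on the torus, for an arbitrary momentum transfer. -/

set_option autoImplicit false
set_option linter.unusedSectionVars false

open scoped BigOperators Matrix
open MeasureTheory

namespace Pool.Agent.Q218.LE

open Pool.Agent.TH794.HK
open Pool.Agent.TH794.QD
open Pool.Agent.W788.BK
open Pool.Agent.TH794.LL2
open Pool.Agent.W240.BK (ae_PP)
open Pool.Agent.W261.BK (nn nn_nonneg nn_sq nn_add nn_smul nn_le triple IB IM int_bl XX_cont)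
open Pool.Agent.W788.MFP.Four (T e NN adj K ft Op q NN_pos e_zero)

variable {d L : ℕ} [NeZero L]

/-- **the mean of the twisted chain** -/
theorem meanQ1 (hES : S_ES) (hFA : S_FAC) (E δ θ η a v2 Q β s2 g g1 ε e1 c0 : ℝ) (P0 : T d L)
    (hδ : 0 < δ) (hη : 0 < η) (hη1 : η ≤ 1)
    (hadm : Adm (D0 E δ) (AA (d := d) (L := L) E δ θ) a v2 Q)
    (μ : Measure ℝ) [IsProbabilityMeasure μ] (hβ : 0 < β) (hμ : ∀ᵐ s ∂μ, |s| ≤ β)
    (h0 : ∫ s, s ∂μ = 0) (h2 : ∫ s, s ^ 2 ∂μ = s2) (hs2 : 0 < s2)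
    (hβa : β * a * (3 / η) ≤ 1) (hβv : β ^ 2 * v2 ≤ 1)
    (hε0 : 0 ≤ ε) (hε1 : ε ≤ 1 / 2) (he0 : 0 ≤ e1) (he1 : e1 ≤ 1 / 4)
    (hε : 4 * β ^ 3 * a * v2 * (3 / η) ^ 3 +
      s2 * (2 * β * (3 * Q) * Real.sqrt v2 * (3 / η) ^ 4) ≤ ε)
    (hg : ∀ E' : ℝ, ∑ k : T d L, (JJ E' (η * δ) k)⁻¹ ≤ g * NN d L) (hg1 : 1 ≤ g)
    (hlow : s2 * (∑ P : T d L, (1 - hi θ P)) ≤ e1 * (η ^ 2 * δ ^ 2) * NN d L)
    (hc0 : c0 = 4 / 3 * (ε + e1 + (2 * η + 8 * s2 ^ 2 * g ^ 2 / δ ^ 2))) (hc01 : c0 ≤ 1)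
    (hgg : ∑ k : T d L, (JJ E δ k)⁻¹ ≤ g1 * NN d L) (hgδ : s2 * (2 * g) ≤ δ) :
    ∃ m z : ℂ, 0 ≤ m.im ∧ ‖m‖ ≤ 2 * g ∧
      z = (E : ℂ) + (s2 : ℂ) * m + ((η * δ : ℝ) : ℂ) * Complex.I ∧
      ‖m - gL d L z‖ ≤ c0 * g ∧
      (0 < m.im → rv (NN d L) (fun k : T d L => ‖(((adj k : ℝ) : ℂ) - z)⁻¹‖ ^ 2) =
          (gL d L z).im / (η * δ + s2 * m.im) ∧
        ‖(∫ V, FP E δ θ η P0 V ∂(PP (T d L) μ)) - (((η * δ : ℝ) : ℂ) + (s2 : ℂ) *
            ∫ V, FP E δ θ η P0 V ∂(PP (T d L) μ)) *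
          mv (NN d L) (fun k : T d L => (starRingEnd ℂ) ((((adj k : ℝ) : ℂ) - z)⁻¹) *
            (((adj (k + P0) : ℝ) : ℂ) - z)⁻¹)‖ ≤
          ε * (g1 + g + 2 * δ * ((gL d L z).im / (η * δ + s2 * m.im))) +
          3 * c0 * (η * δ + s2 * (2 * g) + 3 * e1 * (η * δ)) *
            ((gL d L z).im / (η * δ + s2 * m.im)) +
          6 * e1 * (η * δ) * ((gL d L z).im / (η * δ + s2 * m.im))) := by
  have hXh := hadm.hX0
  have hAh := hadm.hA
  have hH := adG3 hadm (TS E δ P0) η hη hη1 (TS_nsq E δ hδ P0)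
  have hN := NN_pos (d := d) (L := L)
  have ht : 0 < η * δ := mul_pos hη hδ
  obtain ⟨M, hM⟩ : ∃ M : T d L → ℂ, M = fun k =>
    ∫ V, BT E δ θ η P0 V 1 1 k k ∂(PP (T d L) μ) := ⟨_, rfl⟩
  obtain ⟨Y, hY⟩ : ∃ Y : T d L → ℂ, Y = fun k =>
    ∫ V, BT E δ θ η P0 V 0 1 k (k + P0) ∂(PP (T d L) μ) := ⟨_, rfl⟩
  have hMk : ∀ k, M k = ∫ V, RR (D0 E δ) (AA E δ θ) η V k k ∂(PP (T d L) μ) := by
    intro k
    rw [hM]
    rfl
  have hYk : ∀ k, Y k = ∫ V, BT E δ θ η P0 V 0 1 k (k + P0) ∂(PP (T d L) μ) := by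
    intro k
    rw [hY]
  have heqM := fun k => (four_eq hES hFA E δ θ η a v2 Q β s2 ε (fun _ => 0) hδ hη hη1
    (fun k => by simp) hadm μ hβ hμ h0 h2 hs2.le hβa hβv hε M _ _ _
    (by
      funext k
      rw [hMk]
      rfl) rfl rfl rfl k).1
  have heqY := tw_eq hES hFA E δ θ η a v2 Q β s2 ε P0 hδ hη hη1 hadm μ hβ hμ h0 h2 hs2.le hβa hβv
    hε M Y hMk hYk
  have him : ∀ k, 0 ≤ (M k).im := by
    intro k
    have e2 := integrable_RR hXh hAh hη μ k k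
    have e3 : (M k).im = ∫ V, (RR (D0 E δ) (AA E δ θ) η V k k).im ∂(PP (T d L) μ) := by
      rw [hMk]
      have := Complex.imCLM.integral_comp_comm e2
      simp only [Complex.imCLM_apply] at this
      exact this.symm
    rw [e3]
    apply integral_nonneg
    intro V
    have e4 := (ward hXh hAh hη V (Pi.single k 1)).1
    rw [form_single] at e4
    simp only [Pi.zero_apply]
    rw [e4]
    exact mul_nonneg hη.le (nsq_nonneg _)
  have hP' : IsProbabilityMeasure (PP (T d L) μ) := by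
    unfold PP
    infer_instance
  have hbd : ∀ k, ‖M k‖ ≤ η⁻¹ := by
    intro k
    rw [hMk]
    refine (norm_integral_le_of_norm_le_const (C := η⁻¹)
      (Filter.Eventually.of_forall fun V => entry_bd hXh hAh hη V k k)).trans ?_
    rw [probReal_univ, mul_one]
  have hYb : ∀ k, ‖Y k‖ ≤ 3 / η := by
    intro k
    rw [hYk]
    refine (norm_integral_le_of_norm_le_const (C := 3 / η)
      (Filter.Eventually.of_forall fun V => ?_)).trans ?_
    · have := hH.entry V (0, k) (1, k + P0)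
      rw [GG_BT E δ θ η P0 V hη hXh hAh, blk_apply] at this
      exact this
    · rw [probReal_univ, mul_one]
  obtain ⟨m, hm1, hm2, hm3, hm4⟩ := core2 (NN d L) δ η s2 g ε e1 E adj (JJ E δ)
    (fun k p => hi θ (k - p)) (∑ P : T d L, (1 - hi θ P)) M NN_pos hδ hη hs2.le hε0
    hε1 (by linarith) he0 he1 (fun k => rfl) him hbd (fun k p => hi_le_one θ _)
    (fun k => Equiv.sum_comp (Equiv.subLeft k) fun P : T d L => (1 - hi θ P)) hlow hg heqM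
  obtain ⟨z, hz⟩ : ∃ z, z = (E : ℂ) + (s2 : ℂ) * m + ((η * δ : ℝ) : ℂ) * Complex.I := ⟨_, rfl⟩
  have hDz : ∀ k : T d L, ((adj k : ℝ) : ℂ) - z = ((adj k - E : ℝ) : ℂ) - (s2 : ℂ) * m -
      ((η * δ : ℝ) : ℂ) * Complex.I := by
    intro k
    rw [hz]
    push_cast
    ring
  have hmg : ‖m - gL d L z‖ ≤ c0 * g := by
    rw [hc0]
    unfold gL
    simp only [hDz]
    exact hm4
  refine ⟨m, z, hm2, hm3, hz, hmg, ?_⟩
  intro hmim0
  -- the mean value of the resolvent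
  have hm' : m = mv (NN d L) fun k => (((JJ E δ k)⁻¹ : ℝ) : ℂ) * M k := by
    rw [hm1]
    unfold mv
    simp only [Complex.ofReal_inv]
  obtain ⟨i11, v11⟩ := bt_mean E δ θ η a v2 Q P0 0 1 1 hδ hη hη1 hadm μ
    (TCov.of_cov (Cov.res (d := d) (L := L) E δ θ η))
  obtain ⟨i01, v01⟩ := bt_mean E δ θ η a v2 Q P0 P0 0 1 hδ hη hη1 hadm μ (cov01 E δ θ η P0)
  have v11' : ∫ V, star (w0 (d := d) (L := L) E δ) ⬝ᵥ (BT E δ θ η P0 V 1 1 *ᵥ w0 E δ)
      ∂(PP (T d L) μ) = m := by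
    rw [v11, hm']
    unfold mv
    congr 1
    refine Finset.sum_congr rfl fun k _ => ?_
    beta_reduce
    rw [wt_zero E δ hδ, add_zero, hM]
  obtain ⟨ν, hν⟩ : ∃ ν, ν = ∫ V, FP E δ θ η P0 V ∂(PP (T d L) μ) := ⟨_, rfl⟩
  have v01' : ν = mv (NN d L) fun k => (wt E δ P0 k : ℂ) * Y k := by
    rw [hν, hY]
    exact v01
  have hνg : ‖ν‖ ≤ 2 * g := by
    rw [hν]
    refine (norm_integral_le_integral_norm _).trans ?_
    have h5 : ∫ V, ‖FP E δ θ η P0 V‖ ∂(PP (T d L) μ) ≤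
        ∫ V, (star (w0 (d := d) (L := L) E δ) ⬝ᵥ
          (BT E δ θ η P0 V 1 1 *ᵥ w0 E δ)).im ∂(PP (T d L) μ) := by
      refine integral_mono i01.norm i11.im fun V => ?_
      exact FP_le E δ θ η P0 V hδ hη hXh hAh
    refine h5.trans ?_
    have h6 := Complex.imCLM.integral_comp_comm i11
    simp only [Complex.imCLM_apply] at h6
    rw [h6, v11']
    exact (le_abs_self _).trans ((Complex.abs_im_le_norm m).trans hm3)
  -- the denominators
  obtain ⟨D, hD⟩ : ∃ D : T d L → ℂ, D = fun k => ((adj k : ℝ) : ℂ) - z := ⟨_, rfl⟩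
  have hDk : ∀ k, D k = ((adj k - E : ℝ) : ℂ) - (s2 : ℂ) * m -
      ((η * δ : ℝ) : ℂ) * Complex.I := fun k => by rw [hD]; exact hDz k
  obtain ⟨ω, hω⟩ : ∃ ω, ω = η * δ + s2 * m.im := ⟨_, rfl⟩
  have hm0 : 0 < m.im := hmim0
  have hω0 : 0 < ω := by rw [hω]; positivity
  have hDx : ∀ k, D k = ((adj k - E - s2 * m.re : ℝ) : ℂ) - (ω : ℂ) * Complex.I := by
    intro k
    rw [hDk, hω]
    conv_lhs => rw [← Complex.re_add_im m]
    push_cast
    ring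
  have hD0 : ∀ k, D k ≠ 0 := by
    intro k h
    have h2 := congrArg Complex.im h
    rw [hDx] at h2
    simp at h2
    exact hω0.ne' h2
  have hDim : ∀ k, ((D k)⁻¹).im = ω * ‖(D k)⁻¹‖ ^ 2 := by
    intro k
    have e1 : (D k).im = -ω := by rw [hDx]; simp
    rw [Complex.inv_im, e1, neg_neg, Complex.normSq_eq_norm_sq, norm_inv, inv_pow]
    rfl
  have hΓ : (gL d L z).im = rv (NN d L) fun k => ((D k)⁻¹).im := by
    have e1 : gL d L z = mv (NN d L) fun k => (D k)⁻¹ := by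
      rw [hD]
      rfl
    rw [e1, mv_im]
  have hH2 : rv (NN d L) (fun k => ‖(D k)⁻¹‖ ^ 2) = (gL d L z).im / ω := by
    rw [hΓ, eq_div_iff hω0.ne', mul_comm, ← rv_mul]
    congr 1
    funext k
    rw [hDim]
  have hΓ0 : 0 ≤ (gL d L z).im := by
    rw [hΓ]
    refine rv_nonneg hN fun k => ?_
    rw [hDim]
    positivity
  have hG1 : rv (NN d L) (fun k => ‖(D k)⁻¹‖) ≤ g := by
    have h5 := hg (E + s2 * m.re)
    unfold rv
    rw [inv_mul_le_iff₀ hN, mul_comm]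
    refine le_trans (Finset.sum_le_sum fun k _ => ?_) h5
    rw [norm_inv]
    unfold JJ
    refine inv_anti₀ (Real.sqrt_pos.2 (by positivity)) ?_
    have e1 : D k = ((adj k - (E + s2 * m.re) : ℝ) : ℂ) + ((-ω : ℝ) : ℂ) * Complex.I := by
      rw [hDx]
      push_cast
      ring
    rw [e1, Complex.norm_add_mul_I]
    apply Real.sqrt_le_sqrt
    have h6 : (η * δ) ^ 2 ≤ ω ^ 2 := by
      rw [hω]
      gcongr
      have := mul_nonneg hs2.le hm2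
      linarith
    rw [neg_sq]
    linarith
  have hc00 : 0 ≤ c0 := by
    rw [hc0]
    positivity
  have hJ1 : rv (NN d L) (fun k : T d L => (JJ E δ k)⁻¹) ≤ g1 := by
    unfold rv
    rw [inv_mul_le_iff₀ hN, mul_comm]
    exact hgg
  have h8 := core8q (NN d L) δ η s2 g g1 ε e1 E c0 ((gL d L z).im / ω) adj (JJ E δ) (wt E δ P0)
    (fun k p => hi θ (k - p)) (∑ P : T d L, (1 - hi θ P)) (Equiv.addRight P0) M Y m ν hN hδ hη
    hs2.le hε0 he0 he1 (by linarith) (fun k => rfl) hbd hYb (fun k p => hi_le_one θ _)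
    (fun k => Equiv.sum_comp (Equiv.subLeft k) fun P : T d L => (1 - hi θ P)) hlow hm' hm2 hm3
    (fun k => rfl) hJ1 hgδ heqM heqY
    (by rw [hc0]; ring) hc01 D hDk v01' hνg hH2.le hG1
  rw [← hν, ← hω]
  refine ⟨?_, ?_⟩
  · rw [← hH2, hD]
  · have e1 : (mv (NN d L) fun k : T d L => (starRingEnd ℂ) ((((adj k : ℝ) : ℂ) - z)⁻¹) *
        (((adj (k + P0) : ℝ) : ℂ) - z)⁻¹) = mv (NN d L) fun k => (starRingEnd ℂ) ((D k)⁻¹) *
        (D ((Equiv.addRight P0) k))⁻¹ := by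
      rw [hD]
      rfl
    rw [e1]
    exact h8

end Pool.Agent.Q218.LE
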