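import Pool.Agent.Q218.LE.Nu
import Pool.Agent.TH794.QE.FreeA

/-! The mean of the twisted chain for large momentum transfers, from the free data. -/

set_option autoImplicit false
set_option linter.unusedSectionVars false

open scoped BigOperators Matrix
open MeasureTheory

namespace Pool.Agent.Q218.LE

open Pool.Agent.TH794.HK
open Pool.Agent.TH794.QD
open Pool.Agent.TH794.QE
open Pool.Agent.W788.BK
open Pool.Agent.TH794.LL2 (gL)
open Pool.Agent.W788.MFP.Four (T e NN adj K ft Op q NN_pos e_zero)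

variable {d L : ℕ} [NeZero L]

theorem meanL (hES : S_ES) (hFA : S_FAC) (hSYM : S_SYM) (hTHL : S_THL)
    (E1 δ θ η a v2 Q β s2 g g1 ε e1 c0 : ℝ) (P0 : T d L) (i0 : Fin d)
    (hδ : 0 < δ) (hη : 0 < η) (hη1 : η ≤ 1)
    (hadm : Adm (D0 E1 δ) (AA (d := d) (L := L) E1 δ θ) a v2 Q)
    (μ : Measure ℝ) [IsProbabilityMeasure μ] (hβ : 0 < β) (hμ : ∀ᵐ s ∂μ, |s| ≤ β)
    (h0 : ∫ s, s ∂μ = 0) (h2 : ∫ s, s ^ 2 ∂μ = s2) (hs2 : 0 < s2)
    (hβa : β * a * (3 / η) ≤ 1) (hβv : β ^ 2 * v2 ≤ 1)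
    (hε0 : 0 ≤ ε) (hε1 : ε ≤ 1 / 2) (he0 : 0 ≤ e1) (he1 : e1 ≤ 1 / 4)
    (hε : 4 * β ^ 3 * a * v2 * (3 / η) ^ 3 +
      s2 * (2 * β * (3 * Q) * Real.sqrt v2 * (3 / η) ^ 4) ≤ ε)
    (hg : ∀ E' : ℝ, ∑ k : T d L, (JJ E' (η * δ) k)⁻¹ ≤ g * NN d L) (hg1 : 1 ≤ g)
    (hlow : s2 * (∑ P : T d L, (1 - hi θ P)) ≤ e1 * (η ^ 2 * δ ^ 2) * NN d L)
    (hc0 : c0 = 4 / 3 * (ε + e1 + (2 * η + 8 * s2 ^ 2 * g ^ 2 / δ ^ 2))) (hc01 : c0 ≤ 1)
    (hgg : ∑ k : T d L, (JJ E1 δ k)⁻¹ ≤ g1 * NN d L) (hg10 : 0 ≤ g1) (hgδ : s2 * (2 * g) ≤ δ)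
    (t ζ : ℝ) (htδ : t = η * δ) (U : ℝ → Prop) (Ch X0 X : ℝ) (γ0 γ1 : ℝ → ℂ)
    (hfd : FD d L U Ch X0 t γ0 γ1) (E : ℝ) (hE : U E) (hEE : |E1 - E| ≤ ζ)
    (hU : ∀ x, |x - E1| ≤ s2 * (2 * g) → U x)
    (ml Γm κ c2 C0 C W Uu H err : ℝ) (hml : 0 < ml) (hlow1 : 2 * ml ≤ (γ1 E).im)
    (hup : (γ0 E).im ≤ Γm) (hκE : κ ≤ |E|) (hκ : 0 < κ)
    (hC0 : C0 = Γm + ml) (hc2 : 0 < c2) (hC : C = 4 * C0 / c2) (hC2 : 2 ≤ C)
    (hW : W = Γm + ml + 1)
    (hX : X = X0 + Ch * (2 * C * (s2 * (2 * g) + t + ζ)) ^ (1 / 8 : ℝ))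
    (hXml : X + c0 * g ≤ ml) (hts : t ≤ s2) (hcg : c0 * g * s2 ≤ t)
    (hsm : C * (s2 * (2 * g) + t) ≤ 1) (hκs : s2 * (2 * g) + ζ ≤ κ / 2)
    (hc2a : 2 * d * c2 ≤ ml) (hc2b : 8 * d ^ 3 * c2 + (s2 * (2 * g) + t) ≤ κ ^ 2 / 8 * ml)
    (hUu : Uu = ∑ i, (1 - cg i P0)) (hU0 : 0 < Uu)
    (hH : H = 3 * g / (s2 * ml))
    (herr : err = ε * (g1 + g + 2 * δ * H) + 3 * c0 * (η * δ + s2 * (2 * g) + 3 * e1 * (η * δ)) * H +
      6 * e1 * (η * δ) * H) :
    ‖∫ V, FP E1 δ θ η P0 V ∂(PP (T d L) μ)‖ ≤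
      (t / s2 + err) * (4 * W * (2 * C ^ 2 * (W * s2) ^ 2 + 16 * d * Uu) / (c2 * (8 * d * Uu))) := by
  obtain ⟨m, z, hm0, hmn, hz, hmg, hmain⟩ := meanQ1 hES hFA E1 δ θ η a v2 Q β s2 g g1 ε e1 c0 P0
    hδ hη hη1 hadm μ hβ hμ h0 h2 hs2 hβa hβv hε0 hε1 he0 he1 hε hg hg1 hlow hc0 hc01 hgg hgδ
  rw [← htδ] at hz hmain herr
  have ht : 0 < t := by rw [htδ]; positivity
  have hCp : 0 < C := by linarith
  have hζ0 : 0 ≤ ζ := (abs_nonneg _).trans hEE
  have hc00 : 0 ≤ c0 * g := (norm_nonneg _).trans hmg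
  have hzr : z.re = E1 + s2 * m.re := by
    rw [hz]
    simp
  have hzi : z.im = s2 * m.im + t := by
    rw [hz]
    simp
  have hmre : |m.re| ≤ 2 * g := (Complex.abs_re_le_norm m).trans hmn
  have hmim : m.im ≤ 2 * g := (le_abs_self _).trans ((Complex.abs_im_le_norm m).trans hmn)
  have hsre : |s2 * m.re| ≤ s2 * (2 * g) := by
    rw [abs_mul, abs_of_pos hs2]
    exact mul_le_mul_of_nonneg_left hmre hs2.le
  have hsim : s2 * m.im ≤ s2 * (2 * g) := mul_le_mul_of_nonneg_left hmim hs2.le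
  have hsim0 : 0 ≤ s2 * m.im := mul_nonneg hs2.le hm0
  have hUz : U z.re := by
    apply hU
    rw [hzr]
    simpa using hsre
  have hC1 : 1 ≤ C := by linarith
  have hsum1 : s2 * (2 * g) + t ≤ C * (s2 * (2 * g) + t) := by
    apply le_mul_of_one_le_left _ hC1
    have : 0 ≤ s2 * (2 * g) := by positivity
    linarith
  have hzt : t ≤ z.im := by rw [hzi]; linarith
  have hz1 : z.im ≤ 1 := by rw [hzi]; linarith
  have hz0 : 0 < z.im := ht.trans_le hzt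
  have hzg : z.im ≤ s2 * (2 * g) + t := by rw [hzi]; linarith
  have hS0 : 0 ≤ s2 * (2 * g) + t + ζ := by
    have : 0 ≤ s2 * (2 * g) := by positivity
    linarith
  -- the distances
  have hdist : ∀ y : ℝ, 0 ≤ y → y ≤ C * (s2 * (2 * g) + t) →
      ‖((z.re : ℂ) + (y : ℂ) * Complex.I) - (E : ℂ)‖ ≤ 2 * C * (s2 * (2 * g) + t + ζ) := by
    intro y hy0 hy
    have e1 : ((z.re : ℂ) + (y : ℂ) * Complex.I) - (E : ℂ) = ((z.re - E : ℝ) : ℂ) +
        (y : ℂ) * Complex.I := by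
      push_cast
      ring
    rw [e1]
    refine (norm_add_le _ _).trans ?_
    rw [norm_mul, Complex.norm_I, mul_one, Complex.norm_real, Complex.norm_real,
      Real.norm_of_nonneg hy0, Real.norm_eq_abs]
    have h3 : |z.re - E| ≤ s2 * (2 * g) + ζ := by
      have h4 : z.re - E = s2 * m.re + (E1 - E) := by
        rw [hzr]
        ring
      rw [h4]
      exact (abs_add_le _ _).trans (add_le_add hsre hEE)
    have h5 : s2 * (2 * g) + ζ ≤ C * (s2 * (2 * g) + t + ζ) := by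
      calc s2 * (2 * g) + ζ ≤ s2 * (2 * g) + t + ζ := by linarith
        _ ≤ _ := le_mul_of_one_le_left hS0 hC1
    have h6 : C * (s2 * (2 * g) + t) ≤ C * (s2 * (2 * g) + t + ζ) := by
      apply mul_le_mul_of_nonneg_left _ hCp.le
      linarith
    linarith
  have hpow : ∀ y : ℝ, 0 ≤ y → y ≤ C * (s2 * (2 * g) + t) →
      Ch * ‖((z.re : ℂ) + (y : ℂ) * Complex.I) - (E : ℂ)‖ ^ (1 / 8 : ℝ) + X0 ≤ X := by
    intro y hy0 hy
    rw [hX]
    have h3 := Real.rpow_le_rpow (norm_nonneg _) (hdist y hy0 hy) (show (0 : ℝ) ≤ 1 / 8 by norm_num)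
    have h4 := mul_le_mul_of_nonneg_left h3 hfd.C0
    linarith
  have hzc : z = (z.re : ℂ) + (z.im : ℂ) * Complex.I := (Complex.re_add_im z).symm
  have hzX : Ch * ‖z - (E : ℂ)‖ ^ (1 / 8 : ℝ) + X0 ≤ X := by
    have := hpow z.im hz0.le (hzg.trans hsum1)
    rw [Complex.re_add_im] at this
    exact this
  have l0 := (hfd.lim0 z E hUz hE hzt hz1).trans hzX
  have l1 := (hfd.lim1 i0 z E hUz hE hzt hz1).trans hzX
  have hpos := hfd.pos E hE
  -- imaginary parts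
  have a0 : |(gL d L z).im - (γ0 E).im| ≤ X := by
    rw [← Complex.sub_im]
    exact (Complex.abs_im_le_norm _).trans l0
  have a1 : |(gW (fun k : T d L => sg i0 k ^ 2) z).im - (γ1 E).im| ≤ X := by
    rw [← Complex.sub_im]
    exact (Complex.abs_im_le_norm _).trans l1
  have a2 : |m.im - (gL d L z).im| ≤ c0 * g := by
    rw [← Complex.sub_im]
    exact (Complex.abs_im_le_norm _).trans hmg
  have b0 := abs_le.1 a0
  have b1 := abs_le.1 a1
  have b2 := abs_le.1 a2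
  have hXm : X ≤ ml := by linarith only [hXml, hc00]
  have hΓl : ml ≤ (gL d L z).im := by linarith only [b0.1, hXm, hlow1, hpos.2]
  have hml1 : ml ≤ m.im := by linarith only [b0.1, b2.1, hXml, hlow1, hpos.2]
  have hmup : m.im ≤ Γm + ml := by linarith only [b0.2, b2.2, hXml, hup]
  have hm00 : 0 < m.im := hml.trans_le hml1
  obtain ⟨hrv, hν⟩ := hmain hm00
  have hΓ3 : (gL d L z).im ≤ 3 * g := by
    have q1 : c0 * g ≤ g := mul_le_of_le_one_left (by linarith only [hg1]) hc01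
    linarith only [b2.1, q1, hmim]
  have hHle : (gL d L z).im / (t + s2 * m.im) ≤ H := by
    rw [hH]
    apply div_le_div₀ (by positivity) hΓ3 (by positivity)
    have q1 : s2 * ml ≤ s2 * m.im := mul_le_mul_of_nonneg_left hml1 hs2.le
    linarith only [q1, ht]
  have hH'0 : 0 ≤ (gL d L z).im / (t + s2 * m.im) := by
    apply div_nonneg (by linarith only [hΓl, hml])
    linarith only [ht, hsim0]
  have hc0' : 0 ≤ c0 := by
    rw [hc0]
    positivity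
  have hge : (1 : ℝ) ≤ g := hg1
  have hν' : ‖(∫ V, FP E1 δ θ η P0 V ∂(PP (T d L) μ)) - ((t : ℂ) + (s2 : ℂ) *
            ∫ V, FP E1 δ θ η P0 V ∂(PP (T d L) μ)) *
          mv (NN d L) (fun k : T d L => (starRingEnd ℂ) ((((adj k : ℝ) : ℂ) - z)⁻¹) *
            (((adj (k + P0) : ℝ) : ℂ) - z)⁻¹)‖ ≤ err := by
    refine hν.trans ?_
    rw [herr]
    gcongr
  refine nu_bd hSYM hTHL P0 i0 z _ t s2 err c2 C0 C W Uu ht hs2 hz0 hUu hU0 hc2 hC hC2 ?_ ?_ ?_ ?_ ?_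
    hν'
  · -- hW
    rw [hzi, hW]
    have q1 : s2 * m.im ≤ s2 * (Γm + ml) := mul_le_mul_of_nonneg_left hmup hs2.le
    have q2 : (Γm + ml + 1) * s2 = s2 * (Γm + ml) + s2 := by ring
    linarith only [q1, q2, hts]
  · -- s2 Γ ≤ ω
    rw [hzi]
    have q1 : s2 * (gL d L z).im ≤ s2 * (m.im + c0 * g) := by
      apply mul_le_mul_of_nonneg_left _ hs2.le
      linarith only [b2.1]
    have q2 : s2 * (m.im + c0 * g) = s2 * m.im + c0 * g * s2 := by ring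
    linarith only [q1, q2, hcg]
  · linarith only [b1.1, hlow1, hXm, hc2a]
  · have hzre : κ / 2 ≤ |z.re| := by
      have h3 : |E| ≤ |z.re| + |z.re - E| := by
        have q1 := abs_sub_abs_le_abs_sub E z.re
        rw [abs_sub_comm] at q1
        linarith only [q1]
      have h4 : |z.re - E| ≤ s2 * (2 * g) + ζ := by
        have h4 : z.re - E = s2 * m.re + (E1 - E) := by
          rw [hzr]
          ring
        rw [h4]
        exact (abs_add_le _ _).trans (add_le_add hsre hEE)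
      linarith only [h3, h4, hκs, hκE]
    have hzre2 : κ ^ 2 / 4 ≤ z.re ^ 2 := by
      rw [← sq_abs z.re]
      have := pow_le_pow_left₀ (by positivity) hzre 2
      calc κ ^ 2 / 4 = (κ / 2) ^ 2 := by ring
        _ ≤ _ := this
    have h5 : κ ^ 2 / 8 * ml ≤ z.re ^ 2 / 2 * (gL d L z).im := by
      apply mul_le_mul _ hΓl hml.le (by positivity)
      linarith only [hzre2]
    linarith only [h5, hc2b, hzg]
  · -- the point far from the axis
    have hy0 : 0 ≤ C * z.im := by positivity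
    have hy1 : C * z.im ≤ C * (s2 * (2 * g) + t) := mul_le_mul_of_nonneg_left hzg hCp.le
    have hre : ((z.re : ℂ) + ((C * z.im : ℝ) : ℂ) * Complex.I).re = z.re := by simp
    have him : ((z.re : ℂ) + ((C * z.im : ℝ) : ℂ) * Complex.I).im = C * z.im := by simp
    have l3 := (hfd.lim0 ((z.re : ℂ) + ((C * z.im : ℝ) : ℂ) * Complex.I) E (by rw [hre]; exact hUz)
      hE (by
        rw [him]
        exact hzt.trans (le_mul_of_one_le_left hz0.le hC1)) (by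
        rw [him]
        exact hy1.trans hsm)).trans (hpow _ hy0 hy1)
    have a3 : |(gL d L ((z.re : ℂ) + ((C * z.im : ℝ) : ℂ) * Complex.I)).im - (γ0 E).im| ≤ X := by
      rw [← Complex.sub_im]
      exact (Complex.abs_im_le_norm _).trans l3
    have b3 := abs_le.1 a3
    rw [hC0]
    linarith only [b3.2, hup, hXm]

end Pool.Agent.Q218.LE
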