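import Pool.Agent.Q218.LE.Conc2

/-! Observables with a slowly varying random amplitude. -/

set_option autoImplicit false
set_option linter.unusedSectionVars false

open scoped BigOperators Topology InnerProductSpace
open MeasureTheory Filter Set ProbabilityTheory

namespace Pool.Agent.Q218.LE

open Pool.Agent.W788.LD.Spec (S)
open Pool.Agent.H4R2.LO (Zd dd bx)
open Pool.Agent.H4R2.LO.Em (card_bx)
open Pool.Agent.TH794.QD (Sol HS hmk hmk_apply hs_sum)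
open Pool.Agent.Q218.AT
open Pool.Agent.Q218.AD (small_rpow)

/-- the numbers -/
theorem num_D (d : ℕ) (hd : 2 ≤ d) (s0 θ : ℝ) (hs0 : 206 / 100 ≤ s0 * d) (hs1 : s0 ≤ 2)
    (hθ : 0 < θ) (hθ1 : θ ≤ 1) : ∃ l0 : ℝ, 0 < l0 ∧ ∀ lam : ℝ, 0 < lam →
    lam ≤ l0 → ∀ (b : Zd d) (L : ℕ), lam ^ (-(21 / 10) : ℝ) ≤ L →
    ∃ R0 ℓ : ℕ, (∀ r : ℕ, (r : ℝ) ≤ lam ^ (-(2011 / 1000) : ℝ) → r ≤ R0) ∧
      (R0 : ℝ) ≤ lam ^ (-(2011 / 1000) : ℝ) ∧ 1 ≤ ℓ ∧ lam ^ s0 ≤ θ / ℓ ∧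
      (R0 + 1 : ℝ) * (Real.exp ((2 / θ + 1) * (2 * ((L + R0 : ℕ) : ℝ) / ℓ + 3) ^ d) *
        Real.exp (-(lam ^ (205 / 100 : ℝ) * (bx b L).card))) ≤
        Real.exp (-(lam ^ (206 / 100 : ℝ) * (bx b L).card)) := by
  have hd0 : (0 : ℝ) < d := by
    have : 0 < d := by omega
    exact_mod_cast this
  have hs00 : 0 < s0 := by
    by_contra hcon
    rw [not_lt] at hcon
    have : s0 * d ≤ 0 := mul_nonpos_of_nonpos_of_nonneg hcon hd0.le
    linarith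
  obtain ⟨l1, hl1, hs1'⟩ := small_rpow s0 (θ / 2) hs00 (by positivity)
  obtain ⟨l2, hl2, hs2⟩ := small_rpow (1 / 100) (1 / (3 * ((2 / θ + 1) * (14 / θ) ^ d)))
    (by norm_num) (by positivity)
  obtain ⟨l3, hl3, hs3⟩ := small_rpow (139 / 1000) (1 / 3) (by norm_num) (by norm_num)
  obtain ⟨l4, hl4, hs4⟩ := small_rpow (1 / 100) (1 / 3) (by norm_num) (by norm_num)
  refine ⟨min (min l1 l2) (min (min l3 l4) 1), by positivity, ?_⟩
  intro lam hlam hlam0 b L hL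
  have b1 : lam ≤ l1 := hlam0.trans ((min_le_left _ _).trans (min_le_left _ _))
  have b2 : lam ≤ l2 := hlam0.trans ((min_le_left _ _).trans (min_le_right _ _))
  have b3 : lam ≤ l3 := hlam0.trans ((min_le_right _ _).trans
    ((min_le_left _ _).trans (min_le_left _ _)))
  have b4 : lam ≤ l4 := hlam0.trans ((min_le_right _ _).trans
    ((min_le_left _ _).trans (min_le_right _ _)))
  have b5 : lam ≤ 1 := hlam0.trans ((min_le_right _ _).trans (min_le_right _ _))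
  obtain ⟨N, hN⟩ : ∃ N : ℝ, N = (bx b L).card := ⟨_, rfl⟩
  rw [← hN]
  have hL00 : (0 : ℝ) < lam ^ (-(21 / 10) : ℝ) := by positivity
  have hL0 : (0 : ℝ) < L := hL00.trans_le hL
  have hNL : (lam ^ (-(21 / 10) : ℝ)) ^ 2 ≤ N := by
    rw [hN]
    exact (pow_le_pow_left₀ hL00.le hL 2).trans (card_ge hd b L)
  have hN0 : 0 < N := lt_of_lt_of_le (by positivity) hNL
  have hNd : (L : ℝ) ^ d ≤ N := by
    rw [hN, card_bx]
    push_cast
    apply pow_le_pow_left₀ hL0.le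
    linarith
  obtain ⟨x, hx⟩ : ∃ x, x = θ * lam ^ (-s0 : ℝ) := ⟨_, rfl⟩
  have hx2 : 2 ≤ x := by
    have h1 := hs1' lam hlam b1
    rw [hx, Real.rpow_neg hlam.le, ← div_eq_mul_inv, le_div_iff₀ (by positivity)]
    linarith
  have hxL : x ≤ L := by
    refine le_trans ?_ hL
    rw [hx]
    calc θ * lam ^ (-s0 : ℝ) ≤ 1 * lam ^ (-s0 : ℝ) := by gcongr
      _ = lam ^ (-s0 : ℝ) := one_mul _
      _ ≤ _ := Real.rpow_le_rpow_of_exponent_ge hlam b5 (by linarith)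
  obtain ⟨ℓ, hℓ⟩ : ∃ ℓ : ℕ, ℓ = ⌊x⌋₊ := ⟨_, rfl⟩
  have hℓx : (ℓ : ℝ) ≤ x := by rw [hℓ]; exact Nat.floor_le (by linarith)
  have hℓx2 : x / 2 ≤ ℓ := by
    have := Nat.lt_floor_add_one x
    rw [← hℓ] at this
    linarith
  have hℓ0 : (0 : ℝ) < ℓ := by linarith
  have hℓ1 : 1 ≤ ℓ := by
    have : 0 < ℓ := by exact_mod_cast hℓ0
    omega
  obtain ⟨Y, hY⟩ : ∃ Y, Y = lam ^ (-(2011 / 1000) : ℝ) := ⟨_, rfl⟩
  have hY0 : 0 < Y := by rw [hY]; positivity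
  have hYL : Y ≤ L := by
    refine le_trans ?_ hL
    rw [hY]
    exact Real.rpow_le_rpow_of_exponent_ge hlam b5 (by norm_num)
  obtain ⟨R0, hR0⟩ : ∃ R0 : ℕ, R0 = ⌊Y⌋₊ := ⟨_, rfl⟩
  have hR0Y : (R0 : ℝ) ≤ Y := by rw [hR0]; exact Nat.floor_le hY0.le
  refine ⟨R0, ℓ, fun r hr => ?_, ?_, hℓ1, ?_, ?_⟩
  · rw [hR0]
    rw [← hY] at hr
    exact Nat.le_floor hr
  · rw [← hY]
    exact hR0Y
  · rw [le_div_iff₀ hℓ0]
    calc lam ^ s0 * ℓ ≤ lam ^ s0 * (θ * lam ^ (-s0 : ℝ)) := by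
          rw [← hx]
          gcongr
      _ = θ * (lam ^ s0 * lam ^ (-s0 : ℝ)) := by ring
      _ = θ := by
          rw [← Real.rpow_add hlam, add_neg_cancel, Real.rpow_zero, mul_one]
  · have hY1 : Y ≤ 1 / 3 * (lam ^ (205 / 100 : ℝ) * N) := by
      have h1 : Y = lam ^ (139 / 1000 : ℝ) * (lam ^ (205 / 100 : ℝ) *
          (lam ^ (-(21 / 10) : ℝ)) ^ 2) := by
        rw [hY, ← Real.rpow_natCast (lam ^ (-(21 / 10) : ℝ)), ← Real.rpow_mul hlam.le,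
          ← Real.rpow_add hlam, ← Real.rpow_add hlam]
        norm_num
      rw [h1]
      have h2 := hs3 lam hlam b3
      gcongr
    have hcell : (2 * ((L + R0 : ℕ) : ℝ) / ℓ + 3) ^ d ≤ (14 / θ) ^ d * (lam ^ (206 / 100 : ℝ) * N) := by
      have h1 : 2 * ((L + R0 : ℕ) : ℝ) / ℓ + 3 ≤ 7 * L / ℓ := by
        rw [le_div_iff₀ hℓ0, add_mul, div_mul_cancel₀ _ hℓ0.ne']
        push_cast
        have : (ℓ : ℝ) ≤ L := hℓx.trans hxL
        linarith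
      have h2 : 7 * (L : ℝ) / ℓ ≤ 14 / θ * lam ^ s0 * L := by
        rw [div_le_iff₀ hℓ0]
        have h3 : 1 ≤ 2 / θ * lam ^ s0 * ℓ := by
          calc (1 : ℝ) = 2 / θ * lam ^ s0 * (x / 2) := by
                rw [hx, Real.rpow_neg hlam.le]
                field_simp
            _ ≤ _ := by gcongr
        calc 7 * (L : ℝ) = 7 * L * 1 := (mul_one _).symm
          _ ≤ 7 * L * (2 / θ * lam ^ s0 * ℓ) := by gcongr
          _ = _ := by ring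
      have h3 : (lam ^ s0) ^ d ≤ lam ^ (206 / 100 : ℝ) := by
        rw [← Real.rpow_natCast, ← Real.rpow_mul hlam.le]
        exact Real.rpow_le_rpow_of_exponent_ge hlam b5 hs0
      calc (2 * ((L + R0 : ℕ) : ℝ) / ℓ + 3) ^ d ≤ (14 / θ * lam ^ s0 * L) ^ d :=
            pow_le_pow_left₀ (by positivity) (h1.trans h2) d
        _ = (14 / θ) ^ d * ((lam ^ s0) ^ d * (L : ℝ) ^ d) := by
            rw [mul_pow, mul_pow]
            ring
        _ ≤ _ := by gcongr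
    have hnet : (2 / θ + 1) * (2 * ((L + R0 : ℕ) : ℝ) / ℓ + 3) ^ d ≤
        1 / 3 * (lam ^ (205 / 100 : ℝ) * N) := by
      have h1 := hs2 lam hlam b2
      have h2 : lam ^ (206 / 100 : ℝ) = lam ^ (1 / 100 : ℝ) * lam ^ (205 / 100 : ℝ) := by
        rw [← Real.rpow_add hlam]
        norm_num
      calc (2 / θ + 1) * (2 * ((L + R0 : ℕ) : ℝ) / ℓ + 3) ^ d ≤
          (2 / θ + 1) * ((14 / θ) ^ d * (lam ^ (206 / 100 : ℝ) * N)) := by gcongr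
        _ = ((2 / θ + 1) * (14 / θ) ^ d) * lam ^ (1 / 100 : ℝ) * (lam ^ (205 / 100 : ℝ) * N) := by
            rw [h2]
            ring
        _ ≤ ((2 / θ + 1) * (14 / θ) ^ d) * (1 / (3 * ((2 / θ + 1) * (14 / θ) ^ d))) *
            (lam ^ (205 / 100 : ℝ) * N) := by gcongr
        _ = _ := by field_simp
    have hfin : lam ^ (206 / 100 : ℝ) * N ≤ 1 / 3 * (lam ^ (205 / 100 : ℝ) * N) := by
      have h1 := hs4 lam hlam b4
      have h2 : lam ^ (206 / 100 : ℝ) = lam ^ (1 / 100 : ℝ) * lam ^ (205 / 100 : ℝ) := by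
        rw [← Real.rpow_add hlam]
        norm_num
      rw [h2, mul_assoc]
      exact mul_le_mul_of_nonneg_right h1 (by positivity)
    have hR1 : (R0 + 1 : ℝ) ≤ Real.exp Y := by
      have := Real.add_one_le_exp Y
      linarith
    calc (R0 + 1 : ℝ) * (Real.exp ((2 / θ + 1) * (2 * ((L + R0 : ℕ) : ℝ) / ℓ + 3) ^ d) *
        Real.exp (-(lam ^ (205 / 100 : ℝ) * N))) ≤
        Real.exp Y * (Real.exp ((2 / θ + 1) * (2 * ((L + R0 : ℕ) : ℝ) / ℓ + 3) ^ d) *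
        Real.exp (-(lam ^ (205 / 100 : ℝ) * N))) := by gcongr
      _ = Real.exp (Y + ((2 / θ + 1) * (2 * ((L + R0 : ℕ) : ℝ) / ℓ + 3) ^ d +
        -(lam ^ (205 / 100 : ℝ) * N))) := by
          rw [← Real.exp_add, ← Real.exp_add]
      _ ≤ _ := by
          apply Real.exp_le_exp.2
          linarith

/-- **one box, all amplitudes** -/
theorem concC (hLIP : S_LIP) (hGAU : S_GAU) (hSPL : S_SPL) (hNET : S_NET) (hCUBE : S_CUBE)
    (hEXP : S_EXP)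
    (d : ℕ) (hd : 2 ≤ d) (G0 G1 : ℝ → ℝ)
    (hF : FreeE d G0 G1) (μ : Measure ℝ)
    [IsProbabilityMeasure μ] (hμ : GLip μ) (M V : ℝ) (hV0 : 0 < V) (h1 : Integrable (fun s => s) μ)
    (h2 : Integrable (fun s => (s - M) ^ 2) μ) (hM : ∫ s, s ∂μ = M)
    (hV : ∫ s, (s - M) ^ 2 ∂μ = V) (hT : Tail d μ M) (s0 ε : ℝ) (hs0 : 206 / 100 ≤ s0 * d)
    (hs1 : s0 ≤ 2) (hε : 0 < ε) :
    ∃ l0 : ℝ, 0 < l0 ∧ ∀ lam : ℝ, 0 < lam → lam ≤ l0 →
    ∀ a0 : Zd d → ℝ, (∀ x, |a0 x| ≤ 1) → ∀ (b : Zd d) (L : ℕ), lam ^ (-(21 / 10) : ℝ) ≤ L →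
    ∃ G : Set (Zd d → ℝ), MeasurableSet G ∧
      (Measure.infinitePi fun _ : Zd d => μ).real Gᶜ ≤
        Real.exp (-(lam ^ (206 / 100 : ℝ) * (bx b L).card)) ∧
      ∀ ω ∈ G, ∀ ρ : Zd d → ℝ, (∀ x, |ρ x| ≤ 1) → (∀ x y, |ρ x - ρ y| ≤ lam ^ s0 * ‖x - y‖) →
      ∀ r : ℕ, (r : ℝ) ≤ lam ^ (-(2011 / 1000) : ℝ) →
      ∀ (J : Type) (f : J → HS d), Orthonormal ℂ f → ∀ (E : J → ℝ),
      (∀ j x, ‖x - b‖ < L → -S (fun y => f j y) x + ((lam * ω x : ℝ) : ℂ) * f j x =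
        (E j : ℂ) * f j x) →
      ∀ s : Finset J, ∑ j ∈ s, (∑ x ∈ bx b L,
        (a0 x * ρ x - av r (fun y => a0 y * ρ y) x) * ‖f j x‖ ^ 2) ^ 2 ≤
        ε * (bx b L).card := by
  obtain ⟨θ, hθ⟩ : ∃ θ, θ = min 1 (ε / 64) := ⟨_, rfl⟩
  have hθ0 : 0 < θ := by rw [hθ]; positivity
  have hθ1 : θ ≤ 1 := by rw [hθ]; exact min_le_left _ _
  have hθ2 : 32 * θ ^ 2 ≤ ε / 2 := by
    have h3 : θ ≤ ε / 64 := by rw [hθ]; exact min_le_right _ _
    have h4 : θ ^ 2 ≤ θ := by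
      rw [sq]
      exact mul_le_of_le_one_left hθ0.le hθ1
    linarith
  obtain ⟨l1, hl1, hB⟩ := concB hLIP hGAU hSPL hCUBE hEXP d hd G0 G1 hF μ hμ M V hV0 h1 h2 hM hV hT
    (ε / 4) (by positivity)
  obtain ⟨l2, hl2, hnum⟩ := num_D d hd s0 θ hs0 hs1 hθ0 hθ1
  refine ⟨min l1 l2, by positivity, ?_⟩
  intro lam hlam hlam0 a0 ha0 b L hL
  have b1 : lam ≤ l1 := hlam0.trans (min_le_left _ _)
  have b2 : lam ≤ l2 := hlam0.trans (min_le_right _ _)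
  obtain ⟨R0, ℓ, hR0, hR0Y, hℓ1, hℓθ, hbd⟩ := hnum lam hlam b2 b L hL
  obtain ⟨𝒩, hN1, hN2, hN3⟩ := hNET d b (L + R0) ℓ θ hℓ1 hθ0 hθ1
  have hex : ∀ (r : ℕ) (g : Zd d → ℝ), ∃ G : Set (Zd d → ℝ), MeasurableSet G ∧
      (Measure.infinitePi fun _ : Zd d => μ).real Gᶜ ≤
        Real.exp (-(lam ^ (205 / 100 : ℝ) * (bx b L).card)) ∧ (r ≤ R0 → g ∈ 𝒩 →
      ∀ ω ∈ G, ∀ (J : Type) (f : J → HS d), Orthonormal ℂ f → ∀ (E : J → ℝ),
      (∀ j x, ‖x - b‖ < L → -S (fun y => f j y) x + ((lam * ω x : ℝ) : ℂ) * f j x =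
        (E j : ℂ) * f j x) →
      ∀ s : Finset J, ∑ j ∈ s, (∑ x ∈ bx b L,
        (a0 x * g x - av r (fun y => a0 y * g y) x) * ‖f j x‖ ^ 2) ^ 2 ≤
        ε / 4 * (bx b L).card) := by
    intro r g
    by_cases hr : r ≤ R0
    · by_cases hg : g ∈ 𝒩
      · obtain ⟨G, hG, hPG, hGL⟩ := hB lam hlam b1 (fun x => a0 x * g x) (fun x => by
          rw [abs_mul]
          exact mul_le_one₀ (ha0 x) (abs_nonneg _) (hN1 g hg x)) b L r hL
          (le_trans (by exact_mod_cast hr) hR0Y)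
        exact ⟨G, hG, hPG, fun _ _ => hGL⟩
      · refine ⟨Set.univ, MeasurableSet.univ, ?_, fun _ h => absurd h hg⟩
        rw [Set.compl_univ, measureReal_empty]
        exact (Real.exp_pos _).le
    · refine ⟨Set.univ, MeasurableSet.univ, ?_, fun h => absurd h hr⟩
      rw [Set.compl_univ, measureReal_empty]
      exact (Real.exp_pos _).le
  choose Gr hGm hGP hGL using hex
  have hmI : MeasurableSet (⋂ r ∈ Finset.range (R0 + 1), ⋂ g ∈ 𝒩, Gr r g) :=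
    Finset.measurableSet_biInter _ fun r _ => Finset.measurableSet_biInter _ fun g _ => hGm r g
  refine ⟨⋂ r ∈ Finset.range (R0 + 1), ⋂ g ∈ 𝒩, Gr r g, hmI, ?_, ?_⟩
  · refine le_trans ?_ hbd
    simp only [Set.compl_iInter]
    refine (measureReal_biUnion_finset_le _ _).trans ?_
    refine (Finset.sum_le_sum fun r _ => (measureReal_biUnion_finset_le _ _).trans
      (Finset.sum_le_sum fun g _ => hGP r g)).trans ?_
    rw [Finset.sum_const, Finset.sum_const, Finset.card_range, nsmul_eq_mul, nsmul_eq_mul]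
    push_cast
    refine mul_le_mul_of_nonneg_left ?_ (by positivity)
    exact mul_le_mul_of_nonneg_right (by exact_mod_cast hN2) (Real.exp_pos _).le
  intro ω hω ρ hρ1 hρ2 r hr J f hf E he s
  obtain ⟨g, hg, hgρ⟩ := hN3 ρ hρ1 fun x y => (hρ2 x y).trans
    (mul_le_mul_of_nonneg_right hℓθ (norm_nonneg _))
  have hrR := hR0 r hr
  have hωr : ω ∈ Gr r g := by
    have h3 := Set.mem_iInter₂.1 hω r (Finset.mem_range.2 (by omega))
    exact Set.mem_iInter₂.1 h3 g hg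
  have key := hGL r g hrR hg ω hωr J f hf E he s
  obtain ⟨D, hD⟩ : ∃ D : Zd d → ℝ, D = fun x => (a0 x * ρ x - av r (fun y => a0 y * ρ y) x) -
    (a0 x * g x - av r (fun y => a0 y * g y) x) := ⟨_, rfl⟩
  have hdiff : ∀ x ∈ bx b (L + R0), |a0 x * ρ x - a0 x * g x| ≤ 2 * θ := by
    intro x hx
    rw [← mul_sub, abs_mul]
    calc |a0 x| * |ρ x - g x| ≤ 1 * (2 * θ) :=
          mul_le_mul (ha0 x) (hgρ x hx) (abs_nonneg _) (by norm_num)
      _ = _ := one_mul _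
  have hDx : ∀ x ∈ bx b L, |D x| ≤ 4 * θ := by
    intro x hx
    have h3 : D x = (a0 x * ρ x - a0 x * g x) - av r (fun y => a0 y * ρ y - a0 y * g y) x := by
      rw [← av_sub r (fun y => a0 y * ρ y) (fun y => a0 y * g y) x, hD]
      ring
    rw [mem_bx'] at hx
    have h4 : x ∈ bx b (L + R0) := by
      rw [mem_bx']
      push_cast
      have : (0 : ℝ) ≤ R0 := Nat.cast_nonneg _
      linarith
    have h5 := hdiff x h4
    have h6 := av_le r (fun y => a0 y * ρ y - a0 y * g y) x (2 * θ) fun y hy => by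
      refine hdiff y ?_
      rw [mem_bx'] at hy ⊢
      have h7 := norm_sub_le_norm_sub_add_norm_sub y x b
      push_cast
      have h8 : (r : ℝ) ≤ R0 := by exact_mod_cast hrR
      linarith
    rw [h3]
    refine (abs_sub _ _).trans ?_
    linarith
  have h3 : ∀ j ∈ s, (∑ x ∈ bx b L, (a0 x * ρ x - av r (fun y => a0 y * ρ y) x) *
      ‖f j x‖ ^ 2) ^ 2 ≤ 2 * (∑ x ∈ bx b L, (a0 x * g x - av r (fun y => a0 y * g y) x) *
      ‖f j x‖ ^ 2) ^ 2 + 32 * θ ^ 2 * ∑ x ∈ bx b L, ‖f j x‖ ^ 2 := by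
    intro j _
    have h4 : ∑ x ∈ bx b L, (a0 x * ρ x - av r (fun y => a0 y * ρ y) x) * ‖f j x‖ ^ 2 =
        (∑ x ∈ bx b L, (a0 x * g x - av r (fun y => a0 y * g y) x) * ‖f j x‖ ^ 2) +
        ∑ x ∈ bx b L, D x * ‖f j x‖ ^ 2 := by
      rw [← Finset.sum_add_distrib]
      refine Finset.sum_congr rfl fun x _ => ?_
      rw [hD]
      ring
    have h5 : |∑ x ∈ bx b L, D x * ‖f j x‖ ^ 2| ≤ 4 * θ * ∑ x ∈ bx b L, ‖f j x‖ ^ 2 := by
      refine (Finset.abs_sum_le_sum_abs _ _).trans ?_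
      rw [Finset.mul_sum]
      refine Finset.sum_le_sum fun x hx => ?_
      rw [abs_mul, abs_of_nonneg (sq_nonneg ‖f j x‖)]
      exact mul_le_mul_of_nonneg_right (hDx x hx) (sq_nonneg _)
    have h6 := gx_le (bx b L) (f j) (hf.1 j)
    have h7 : 0 ≤ ∑ x ∈ bx b L, ‖f j x‖ ^ 2 := Finset.sum_nonneg fun x _ => sq_nonneg _
    have h8 : (∑ x ∈ bx b L, D x * ‖f j x‖ ^ 2) ^ 2 ≤ 16 * θ ^ 2 * ∑ x ∈ bx b L, ‖f j x‖ ^ 2 := by
      rw [← sq_abs]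
      calc |∑ x ∈ bx b L, D x * ‖f j x‖ ^ 2| ^ 2 ≤ (4 * θ * ∑ x ∈ bx b L, ‖f j x‖ ^ 2) ^ 2 :=
            pow_le_pow_left₀ (abs_nonneg _) h5 2
        _ = 16 * θ ^ 2 * ((∑ x ∈ bx b L, ‖f j x‖ ^ 2) * ∑ x ∈ bx b L, ‖f j x‖ ^ 2) := by ring
        _ ≤ 16 * θ ^ 2 * (1 * ∑ x ∈ bx b L, ‖f j x‖ ^ 2) := by gcongr
        _ = _ := by rw [one_mul]
    rw [h4]
    refine (sq_help2 _ _).trans ?_
    linarith
  have h4 : ∑ j ∈ s, ∑ x ∈ bx b L, ‖f j x‖ ^ 2 ≤ ((bx b L).card : ℝ) := by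
    rw [Finset.sum_comm]
    have h5 : ∀ x ∈ bx b L, ∑ j ∈ s, ‖f j x‖ ^ 2 ≤ (1 : ℝ) := by
      intro x _
      have h7 := hf.sum_inner_products_le (dl x) (s := s)
      have h8 : ∀ j, ‖⟪f j, dl x⟫_ℂ‖ = ‖f j x‖ := fun j => by
        rw [norm_inner_symm, dl_inner]
      have h9 : ‖dl x‖ ^ 2 = 1 := (hs_sum (dl x)).unique (dl_sum x)
      simp only [h8] at h7
      rw [h9] at h7
      exact h7
    refine (Finset.sum_le_sum h5).trans (le_of_eq ?_)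
    rw [Finset.sum_const, nsmul_eq_mul, mul_one]
  refine (Finset.sum_le_sum h3).trans ?_
  rw [Finset.sum_add_distrib, ← Finset.mul_sum, ← Finset.mul_sum]
  have h5 : 32 * θ ^ 2 * ∑ j ∈ s, ∑ x ∈ bx b L, ‖f j x‖ ^ 2 ≤ ε / 2 * (bx b L).card :=
    mul_le_mul hθ2 h4 (Finset.sum_nonneg fun j _ => Finset.sum_nonneg fun x _ => sq_nonneg _)
      (by positivity)
  linarith

end Pool.Agent.Q218.LE
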