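import Pool.Agent.Q218.LE.Mean
import Pool.Agent.Q218.LE.Stm

/-! The bound of the averaged two-resolvent function for large momentum transfers. -/

set_option autoImplicit false
set_option linter.unusedSectionVars false

open scoped BigOperators Matrix
open MeasureTheory

namespace Pool.Agent.Q218.LE

open Pool.Agent.TH794.HK
open Pool.Agent.TH794.QD
open Pool.Agent.W788.BK
open Pool.Agent.TH794.LL2 (gL)
open Pool.Agent.W788.MFP.Four (T e NN adj K ft Op q NN_pos e_zero)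

variable {d L : ℕ} [NeZero L]

theorem cs_one (i : Fin d) (k : T d L) : cg i k ^ 2 + sg i k ^ 2 = 1 := by
  unfold cg sg
  have h1 : ‖(ZMod.stdAddChar (k i) : ℂ)‖ = 1 := by
    rw [ZMod.stdAddChar_apply]
    exact Circle.norm_coe _
  have h2 := Complex.sq_norm (ZMod.stdAddChar (k i) : ℂ)
  rw [h1, Complex.normSq_apply] at h2
  nlinarith

/-- the size of the change of the dispersion relation -/
theorem b_le (P0 k : T d L) :
    (adj k - adj (k + P0)) ^ 2 ≤ 8 * d * ∑ i, (1 - cg i P0) := by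
  have e1 : adj k - adj (k + P0) = ∑ i, 2 * (cg i k * (1 - cg i P0) + sg i k * sg i P0) := by
    rw [adj_cg, adj_cg, ← Finset.sum_sub_distrib]
    refine Finset.sum_congr rfl fun i _ => ?_
    rw [cg_add]
    ring
  have h1 := sq_sum_le_card_mul_sum_sq (s := (Finset.univ : Finset (Fin d)))
    (f := fun i => 2 * (cg i k * (1 - cg i P0) + sg i k * sg i P0))
  rw [Finset.card_univ, Fintype.card_fin, ← e1] at h1
  refine h1.trans ?_
  have h2 : ∀ i, (2 * (cg i k * (1 - cg i P0) + sg i k * sg i P0)) ^ 2 ≤ 8 * (1 - cg i P0) := by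
    intro i
    have a1 := cs_one i k
    have a2 := cs_one i P0
    have a3 : (cg i k * (1 - cg i P0) + sg i k * sg i P0) ^ 2 ≤
        (cg i k ^ 2 + sg i k ^ 2) * ((1 - cg i P0) ^ 2 + sg i P0 ^ 2) := by
      nlinarith [sq_nonneg (cg i k * sg i P0 - sg i k * (1 - cg i P0))]
    have a4 : (1 - cg i P0) ^ 2 + sg i P0 ^ 2 = 2 * (1 - cg i P0) := by nlinarith
    rw [a1, a4] at a3
    nlinarith
  calc (d : ℝ) * ∑ i, (2 * (cg i k * (1 - cg i P0) + sg i k * sg i P0)) ^ 2 ≤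
      d * ∑ i, 8 * (1 - cg i P0) := by
        apply mul_le_mul_of_nonneg_left (Finset.sum_le_sum fun i _ => h2 i) (Nat.cast_nonneg d)
    _ = _ := by
        rw [← Finset.mul_sum]
        ring

theorem im_inv (x : ℝ) (z : ℂ) :
    ((((x : ℝ) : ℂ) - z)⁻¹).im = z.im / ((x - z.re) ^ 2 + z.im ^ 2) := by
  rw [Complex.inv_im, Complex.normSq_apply]
  simp only [Complex.sub_im, Complex.ofReal_im, Complex.sub_re, Complex.ofReal_re, zero_sub,
    neg_neg]
  congr 1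
  ring

theorem gL_im (z : ℂ) :
    (gL d L z).im = rv (NN d L) (fun k : T d L => z.im / ((adj k - z.re) ^ 2 + z.im ^ 2)) := by
  have e1 : gL d L z = mv (NN d L) fun k : T d L => (((adj k : ℝ) : ℂ) - z)⁻¹ := rfl
  rw [e1, mv_im]
  congr 1
  funext k
  exact im_inv _ z

theorem gW_im (w : T d L → ℝ) (z : ℂ) :
    (gW w z).im = rv (NN d L) (fun k : T d L => w k * (z.im / ((adj k - z.re) ^ 2 + z.im ^ 2))) := by
  unfold gW
  rw [mv_im]
  congr 1
  funext k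
  rw [Complex.im_ofReal_mul, im_inv _ z]

theorem rv_one : rv (NN d L) (fun _ : T d L => (1 : ℝ)) = 1 := by
  unfold rv
  have h1 : ((Finset.univ : Finset (T d L)).card : ℝ) = NN d L := by
    rw [Finset.card_univ, ← Pool.Agent.W788.MFP.Four.card_T]
  rw [Finset.sum_const, nsmul_eq_mul, mul_one, h1]
  exact inv_mul_cancel₀ NN_pos.ne'

/-- **the bound of the averaged two-resolvent function** -/
theorem nu_bd (hSYM : S_SYM) (hTHL : S_THL) (P0 : T d L) (i0 : Fin d) (z ν : ℂ)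
    (t s2 err c2 C0 C W U : ℝ) (ht : 0 < t) (hs2 : 0 < s2) (hz : 0 < z.im)
    (hU : U = ∑ i, (1 - cg i P0)) (hU0 : 0 < U) (hc2 : 0 < c2) (hC : C = 4 * C0 / c2) (hC2 : 2 ≤ C)
    (hW : z.im ≤ W * s2)
    (h1 : s2 * (gL d L z).im ≤ z.im)
    (hS : 2 * d * c2 ≤ (gW (fun k : T d L => sg i0 k ^ 2) z).im)
    (hA : 8 * d ^ 3 * c2 ≤ z.re ^ 2 / 2 * (gL d L z).im - z.im)
    (hCC : (gL d L ((z.re : ℂ) + ((C * z.im : ℝ) : ℂ) * Complex.I)).im ≤ C0)
    (hν : ‖ν - ((t : ℂ) + (s2 : ℂ) * ν) *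
      mv (NN d L) (fun k : T d L => (starRingEnd ℂ) ((((adj k : ℝ) : ℂ) - z)⁻¹) *
            (((adj (k + P0) : ℝ) : ℂ) - z)⁻¹)‖ ≤ err) :
    ‖ν‖ ≤ (t / s2 + err) * (4 * W * (2 * C ^ 2 * (W * s2) ^ 2 + 16 * d * U) / (c2 * (8 * d * U))) := by
  have hd : (0 : ℝ) < d := by
    have : 0 < d := i0.pos
    exact_mod_cast this
  have hN := NN_pos (d := d) (L := L)
  obtain ⟨ω, hω⟩ : ∃ ω, ω = z.im := ⟨_, rfl⟩
  obtain ⟨x, hx⟩ : ∃ x : T d L → ℝ, x = fun k => adj k - z.re := ⟨_, rfl⟩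
  obtain ⟨b, hb⟩ : ∃ b : T d L → ℝ, b = fun k => adj k - adj (k + P0) := ⟨_, rfl⟩
  have hω0 : 0 < ω := by rw [hω]; exact hz
  have hDx : ∀ k : T d L, ((adj k : ℝ) : ℂ) - z = ((x k : ℝ) : ℂ) - (ω : ℂ) * Complex.I := by
    intro k
    rw [hx, hω]
    conv_lhs => rw [← Complex.re_add_im z]
    push_cast
    ring
  obtain ⟨φ, hφ⟩ : ∃ φ : ℝ → ℝ, φ = fun a => ω / ((a - z.re) ^ 2 + ω ^ 2) := ⟨_, rfl⟩
  have hφ0 : ∀ a, 0 ≤ φ a := fun a => by rw [hφ]; positivity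
  obtain ⟨Γ, hΓ⟩ : ∃ Γ, Γ = (gL d L z).im := ⟨_, rfl⟩
  have hΓφ : Γ = rv (NN d L) (fun k : T d L => φ (adj k)) := by
    rw [hΓ, gL_im z, hφ, hω]
  have hSφ : (gW (fun k : T d L => sg i0 k ^ 2) z).im =
      rv (NN d L) (fun k : T d L => sg i0 k ^ 2 * φ (adj k)) := by
    rw [gW_im _ z, hφ, hω]
  rw [hSφ] at hS
  rw [← hΓ] at h1 hA
  -- the second moment of the dispersion relation
  have hadj : z.re ^ 2 / 2 * Γ - ω ≤ rv (NN d L) (fun k : T d L => adj k ^ 2 * φ (adj k)) := by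
    have e1 : ∀ k : T d L, z.re ^ 2 / 2 * φ (adj k) - ω * 1 ≤ adj k ^ 2 * φ (adj k) := by
      intro k
      have a1 : (adj k - z.re) ^ 2 * φ (adj k) ≤ ω := by
        rw [hφ]
        simp only
        rw [← mul_div_assoc, div_le_iff₀ (by positivity)]
        nlinarith [sq_nonneg (adj k - z.re), hω0, sq_nonneg ω, mul_pos hω0 (pow_pos hω0 2)]
      have a2 : z.re ^ 2 / 2 ≤ adj k ^ 2 + (adj k - z.re) ^ 2 := by
        nlinarith [sq_nonneg (2 * adj k - z.re)]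
      have a3 := mul_le_mul_of_nonneg_right a2 (hφ0 (adj k))
      linarith
    have e2 := rv_mono hN e1
    have e3 : rv (NN d L) (fun k : T d L => z.re ^ 2 / 2 * φ (adj k) - ω * 1) =
        z.re ^ 2 / 2 * Γ - ω := by
      have e4 : (fun k : T d L => z.re ^ 2 / 2 * φ (adj k) - ω * 1) =
          fun k => z.re ^ 2 / 2 * φ (adj k) + (-ω) * 1 := by
        funext k
        ring
      rw [e4, rv_add, rv_mul, rv_mul, rv_one, ← hΓφ]
      ring
    rw [e3] at e2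
    exact e2
  have hsym := hSYM d L φ P0 i0 (2 * d * c2) (8 * d ^ 3 * c2) hφ0 (by positivity) (by positivity)
    hS ((by rw [← hω] at hA; exact hA : 8 * (d : ℝ) ^ 3 * c2 ≤ z.re ^ 2 / 2 * Γ - ω).trans hadj)
  rw [← hU] at hsym
  have hmin : c2 * (8 * d * U) ≤ min (4 * (2 * d * c2)) (8 * d ^ 3 * c2 / d ^ 2) * U := by
    have e1 : 4 * (2 * (d : ℝ) * c2) = 8 * d * c2 := by ring
    have e2 : 8 * (d : ℝ) ^ 3 * c2 / d ^ 2 = 8 * d * c2 := by field_simp
    rw [e1, e2, min_self]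
    exact le_of_eq (by ring)
  have hsec : c2 * (8 * d * U) ≤ rv (NN d L) (fun k => b k ^ 2 * (ω / (x k ^ 2 + ω ^ 2))) := by
    have e1 : (fun k => b k ^ 2 * (ω / (x k ^ 2 + ω ^ 2))) =
        fun k : T d L => (adj k - adj (k + P0)) ^ 2 * φ (adj k) := by
      funext k
      rw [hb, hx, hφ]
    rw [e1]
    exact hmin.trans hsym
  have hthl := hTHL (T d L) (NN d L) ω (8 * d * U) c2 C0 C x b (Equiv.addRight P0) hN hω0
    (by positivity) hc2 hC hC2
    (fun k => by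
      rw [hx, hb, Equiv.coe_addRight]
      simp only
      ring)
    (fun k => by
      rw [hb, hU]
      exact b_le P0 k)
    hsec
    (by
      refine le_trans (le_of_eq ?_) hCC
      rw [gL_im]
      simp only [Complex.add_im, Complex.ofReal_im, Complex.mul_im, Complex.ofReal_re,
          Complex.I_im, mul_one, Complex.I_re, mul_zero, zero_add, add_zero, Complex.add_re,
          Complex.mul_re, sub_zero, zero_sub, neg_zero]
      rw [hx, hω])
  have hΘe : (mv (NN d L) (fun k : T d L => (starRingEnd ℂ) ((((adj k : ℝ) : ℂ) - z)⁻¹) *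
            (((adj (k + P0) : ℝ) : ℂ) - z)⁻¹)) =
      mv (NN d L) fun k => (starRingEnd ℂ) ((((x k : ℝ) : ℂ) - (ω : ℂ) * Complex.I)⁻¹) *
        (((x ((Equiv.addRight P0) k) : ℝ) : ℂ) - (ω : ℂ) * Complex.I)⁻¹ := by
    congr 1
    funext k
    rw [hDx k, hDx (k + P0)]
    rfl
  rw [hΘe] at hν
  obtain ⟨Θ, hΘ⟩ : ∃ Θ, Θ = mv (NN d L) fun k => (starRingEnd ℂ) ((((x k : ℝ) : ℂ) -
    (ω : ℂ) * Complex.I)⁻¹) * (((x ((Equiv.addRight P0) k) : ℝ) : ℂ) - (ω : ℂ) * Complex.I)⁻¹ :=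
    ⟨_, rfl⟩
  rw [← hΘ] at hν hthl
  obtain ⟨H0, hH0⟩ : ∃ H0, H0 = rv (NN d L) (fun k => ‖(((x k : ℝ) : ℂ) -
    (ω : ℂ) * Complex.I)⁻¹‖ ^ 2) := ⟨_, rfl⟩
  rw [← hH0] at hthl
  have hnorm : ∀ k, ‖(((x k : ℝ) : ℂ) - (ω : ℂ) * Complex.I)⁻¹‖ ^ 2 =
      ω⁻¹ * φ (adj k) := by
    intro k
    rw [norm_inv, inv_pow, Complex.sq_norm, Complex.normSq_apply, hφ, hx]
    simp only [Complex.sub_re, Complex.ofReal_re, Complex.mul_re, Complex.I_re, mul_zero,
      Complex.ofReal_im, Complex.I_im, mul_one, sub_self, sub_zero, Complex.sub_im,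
      Complex.mul_im, zero_sub]
    have h0 : 0 < (adj k - z.re) ^ 2 + ω ^ 2 := by positivity
    have h1 : (adj k - z.re) * (adj k - z.re) + -(ω + 0) * -(ω + 0) = (adj k - z.re) ^ 2 + ω ^ 2 := by
      ring
    rw [h1]
    field_simp
  have hH0e : H0 = ω⁻¹ * Γ := by
    rw [hH0, hΓφ, ← rv_mul]
    congr 1
    funext k
    exact hnorm k
  have hsH : s2 * H0 ≤ 1 := by
    rw [hH0e]
    rw [← hω] at h1
    have : s2 * (ω⁻¹ * Γ) = (s2 * Γ) / ω := by
      field_simp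
    rw [this, div_le_one hω0]
    exact h1
  have hH00 : 0 ≤ H0 := by
    rw [hH0]
    exact rv_nonneg hN fun k => sq_nonneg _
  have hΘn : ‖Θ‖ ≤ H0 := by
    rw [hΘ]
    refine (mv_le hN (F := fun k => ‖(((x k : ℝ) : ℂ) - (ω : ℂ) * Complex.I)⁻¹‖ *
      ‖(((x ((Equiv.addRight P0) k) : ℝ) : ℂ) - (ω : ℂ) * Complex.I)⁻¹‖) fun k => ?_).trans ?_
    · rw [norm_mul, Complex.norm_conj]
    · exact rv_pair (NN d L) H0 hN (Equiv.addRight P0)
        (fun k => ‖(((x k : ℝ) : ℂ) - (ω : ℂ) * Complex.I)⁻¹‖) (le_of_eq hH0.symm)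
  have hW0 : 0 < W := by
    by_contra hcon
    rw [not_lt] at hcon
    have : W * s2 ≤ 0 := mul_nonpos_of_nonpos_of_nonneg hcon hs2.le
    linarith
  have hωW : ω ≤ W * s2 := by rw [hω]; exact hW
  -- the lower bound of the denominator
  obtain ⟨X, hX⟩ : ∃ X, X = c2 * (8 * d * U) / (2 * ω * (2 * C ^ 2 * ω ^ 2 + 2 * (8 * d * U))) :=
    ⟨_, rfl⟩
  rw [← hX] at hthl
  have hX0 : 0 < X := by
    rw [hX]
    positivity
  have hlow : s2 * (1 / 2 * X) ≤ ‖1 - (s2 : ℂ) * Θ‖ := by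
    have a1 := Complex.re_le_norm (1 - (s2 : ℂ) * Θ)
    have a2 : (1 - (s2 : ℂ) * Θ).re = 1 - s2 * Θ.re := by simp
    rw [a2] at a1
    have a3 := mul_le_mul_of_nonneg_left hthl hs2.le
    linarith
  have hmain : ‖ν‖ * (s2 * (1 / 2 * X)) ≤ t / s2 + err := by
    have a1 : ν * (1 - (s2 : ℂ) * Θ) = (ν - ((t : ℂ) + (s2 : ℂ) * ν) * Θ) + (t : ℂ) * Θ := by ring
    have a2 : ‖ν‖ * ‖1 - (s2 : ℂ) * Θ‖ ≤ err + t * H0 := by
      rw [← norm_mul, a1]
      refine (norm_add_le _ _).trans (add_le_add hν ?_)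
      rw [norm_mul, Complex.norm_real, Real.norm_of_nonneg ht.le]
      exact mul_le_mul_of_nonneg_left hΘn ht.le
    have a3 : t * H0 ≤ t / s2 := by
      rw [le_div_iff₀ hs2]
      calc t * H0 * s2 = t * (s2 * H0) := by ring
        _ ≤ t * 1 := mul_le_mul_of_nonneg_left hsH ht.le
        _ = t := mul_one t
    have a4 := mul_le_mul_of_nonneg_left hlow (norm_nonneg ν)
    linarith
  have herr : 0 ≤ err := (norm_nonneg _).trans hν
  have hXlow : c2 * (8 * d * U) / (4 * W * (2 * C ^ 2 * (W * s2) ^ 2 + 16 * d * U)) ≤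
      s2 * (1 / 2 * X) := by
    have e1 : s2 * (1 / 2 * X) =
        c2 * (8 * d * U) / (4 * (ω / s2) * (2 * C ^ 2 * ω ^ 2 + 16 * d * U)) := by
      rw [hX]
      have : 0 < 2 * C ^ 2 * ω ^ 2 + 16 * d * U := by positivity
      have e2 : 2 * C ^ 2 * ω ^ 2 + 2 * (8 * d * U) = 2 * C ^ 2 * ω ^ 2 + 16 * d * U := by ring
      rw [e2]
      field_simp
      ring
    rw [e1]
    apply div_le_div_of_nonneg_left (by positivity) (by positivity)
    have hq : ω / s2 ≤ W := by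
      rw [div_le_iff₀ hs2]
      exact hωW
    have : ω ^ 2 ≤ (W * s2) ^ 2 := pow_le_pow_left₀ hω0.le hωW 2
    have hC0' : 0 ≤ 2 * C ^ 2 := by positivity
    apply mul_le_mul _ _ (by positivity) (by positivity)
    · linarith
    · nlinarith
  have hY0 : 0 < c2 * (8 * d * U) / (4 * W * (2 * C ^ 2 * (W * s2) ^ 2 + 16 * d * U)) := by
    positivity
  have hfin : ‖ν‖ * (c2 * (8 * d * U) / (4 * W * (2 * C ^ 2 * (W * s2) ^ 2 + 16 * d * U))) ≤
      t / s2 + err :=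
    (mul_le_mul_of_nonneg_left hXlow (norm_nonneg ν)).trans hmain
  rw [← le_div_iff₀ hY0] at hfin
  refine hfin.trans (le_of_eq ?_)
  rw [div_eq_mul_inv, inv_div]

end Pool.Agent.Q218.LE
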