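import Pool.Agent.TH794.HK.NumS
import Pool.Agent.TH794.HK.NumT
import Pool.Agent.TH794.HK.DatK
import Pool.Agent.TH794.HK.GeoK

/-! The numerical conditions for the large momenta. -/

set_option autoImplicit false
set_option linter.unusedSectionVars false

open Filter

namespace Pool.Agent.Q218.LE

open Pool.Agent.W788.BK.Num
open Pool.Agent.TH794.QD
open Pool.Agent.TH794.HK
open Pool.Agent.TH794.LL2 (hexle sqrt_ex)

theorem numP (d : ℕ) (hd : 1 ≤ d) (b A2 Ch ml κ c2 C W K e0 : ℝ) (hb : 0 < b) (hA20 : 0 < A2)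
    (hCh : 0 ≤ Ch) (hml : 0 < ml) (hκ : 0 < κ) (hc2 : 0 < c2) (hC : 1 ≤ C) (hW : 0 < W)
    (he0 : 0 < e0) (hK1 : 1 ≤ K)
    (hK : 40 * (4 * W / (c2 * (8 * d))) * (2 * C ^ 2 * W ^ 2) ≤ e0 * K)
    (hc2b : 8 * d ^ 3 * c2 ≤ κ ^ 2 * ml / 16) :
    ∀ᶠ y : ℝ in atTop, ∀ A1 : ℝ, A1 = A2 * y → ∀ (v s2 g g1 c0 t ε e1 η δ ζ X0 X Lr H err Uu : ℝ),
    v = Real.exp (-(1 / 3000) * y) → 1 ≤ g → g ≤ A1 * y → 0 ≤ g1 → g1 ≤ A1 * y →
    v * Real.exp (-2 * y) ≤ s2 → s2 ≤ (b * Real.exp (-1 * y)) ^ 2 → 0 ≤ c0 → c0 ≤ 1 →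
    c0 * g ≤ Real.exp (-(29 / 500) * y) → c0 * g * s2 / t ≤ Real.exp (-(11 / 200) * y) →
    Real.exp (-(81 / 40) * y) ≤ t → t ≤ Real.exp (-(161 / 80) * y) → Real.exp (6 * y) ≤ Lr →
    ε = Real.exp (-(17 / 50) * y) → e1 = Real.exp (-(1 / 10) * y) →
    δ = Real.exp (-(97 / 50) * y) → t = η * δ → ζ = Real.exp (-10 * y) → 0 ≤ X0 →
    X0 ≤ 56 * d / Lr / t ^ 2 → X = X0 + Ch * (2 * C * (s2 * (2 * g) + t + ζ)) ^ (1 / 8 : ℝ) →
    H = 3 * g / (s2 * ml) →
    err = ε * (g1 + g + 2 * δ * H) + 3 * c0 * (η * δ + s2 * (2 * g) + 3 * e1 * (η * δ)) * H +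
      6 * e1 * (η * δ) * H →
    K * (t * s2) / 10 ≤ Uu →
    X + c0 * g ≤ ml ∧ C * (s2 * (2 * g) + t) ≤ 1 ∧ s2 * (2 * g) + ζ ≤ κ / 2 ∧
      s2 * (2 * g) ≤ δ ∧ 8 * d ^ 3 * c2 + (s2 * (2 * g) + t) ≤ κ ^ 2 / 8 * ml ∧
      c0 * g * s2 ≤ t ∧
      (t / s2 + err) * (4 * W * (2 * C ^ 2 * (W * s2) ^ 2 + 16 * d * Uu) /
        (c2 * (8 * d * Uu))) ≤ e0 := by
  have hd0 : (0 : ℝ) < d := by exact_mod_cast hd
  obtain ⟨A, hA⟩ : ∃ A, A = 4 * W / (c2 * (8 * d)) := ⟨_, rfl⟩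
  have hA0 : 0 < A := by rw [hA]; positivity
  obtain ⟨Bc, hBc⟩ : ∃ Bc, Bc = 2 * C ^ 2 * W ^ 2 := ⟨_, rfl⟩
  have hBc0 : 0 < Bc := by rw [hBc]; positivity
  rw [← hA, ← hBc] at hK
  obtain ⟨CE, hCE⟩ : ∃ CE, CE = 2 * b ^ 2 + 6 / ml + 36 / ml + 18 / ml + 18 / ml := ⟨_, rfl⟩
  have hCE0 : 0 < CE := by rw [hCE]; positivity
  have hC0 : 0 < C := by linarith
  filter_upwards [eventually_ge_atTop 1,
    numX8 d b A2 (Ch * (2 * C) ^ (1 / 8 : ℝ)) ml hb hA20 (by positivity) hml,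
    ev2 (4 * C * (b ^ 2 * A2)) (-2) 0 2 (by norm_num),
    ev2 (2 * C) (-(161 / 80)) 0 0 (by norm_num),
    ev2 (2 * (2 / κ) * (2 * (b ^ 2 * A2))) (-2) 0 2 (by norm_num),
    ev2 (2 * (2 / κ)) (-10) 0 0 (by norm_num),
    ev2 (2 * (b ^ 2 * A2)) (-2) (-(97 / 50)) 2 (by norm_num),
    ev2 (2 * (16 / (κ ^ 2 * ml)) * (2 * (b ^ 2 * A2))) (-2) 0 2 (by norm_num),
    ev2 (2 * (16 / (κ ^ 2 * ml))) (-(161 / 80)) 0 0 (by norm_num),
    ev2 (A * (16 * d) * (4 / e0)) (-(1 / 100)) 0 0 (by norm_num),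
    ev2 (A * (10 * Bc + 16 * d) * (2 / e0) * (CE * A2)) (-(1 / 20)) 0 2 (by norm_num)] with
    y hy1 hX8 m1 m2 m3 m4 m5 m6 m7 m8 m9
  simp only [pow_zero, mul_one, zero_mul, Real.exp_zero] at m1 m2 m3 m4 m6 m7 m8 m9
  intro A1 hA1 v s2 g g1 c0 t ε e1 η δ ζ X0 X Lr H err Uu hvd hg1 hgA hg10 hg1A hs hs' hc00 hc01 hcg
    hcgs ht ht' hL hε he1 hδ htηδ hζ hX00 hX0 hX hH herr hUu
  have hP2 : A1 * y = A2 * y ^ 2 := by rw [hA1]; ring
  obtain ⟨P, hP⟩ : ∃ P, P = A2 * y ^ 2 := ⟨_, rfl⟩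
  have hgP : g ≤ P := by rw [hP, ← hP2]; exact hgA
  have hg1P : g1 ≤ P := by rw [hP, ← hP2]; exact hg1A
  have hP1 : 1 ≤ P := hg1.trans hgP
  have hg0 : 0 < g := by linarith
  have hv0 : 0 < v := by rw [hvd]; positivity
  have hs20 : 0 < s2 := lt_of_lt_of_le (by positivity) hs
  have ht0 : 0 < t := lt_of_lt_of_le (Real.exp_pos _) ht
  have hδ0 : 0 < δ := by rw [hδ]; positivity
  have hζ0 : 0 < ζ := by rw [hζ]; positivity
  have hε0 : 0 < ε := by rw [hε]; positivity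
  have he10 : 0 < e1 := by rw [he1]; positivity
  have he11 : e1 ≤ 1 := by rw [he1]; exact Real.exp_le_one_iff.2 (by linarith)
  have hs2b : s2 ≤ b ^ 2 * Real.exp (-2 * y) := by
    refine hs'.trans (le_of_eq ?_)
    rw [mul_pow, ex_pow]
    norm_num
  have htinv : t⁻¹ ≤ Real.exp (81 / 40 * y) := by
    have h1 := inv_anti₀ (Real.exp_pos _) ht
    rw [ex_inv] at h1
    norm_num at h1 ⊢
    exact h1
  have hs2g : s2 * (2 * g) ≤ 2 * (b ^ 2 * A2) * y ^ 2 * Real.exp (-2 * y) := by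
    calc s2 * (2 * g) ≤ (b ^ 2 * Real.exp (-2 * y)) * (2 * P) := by gcongr
      _ = _ := by rw [hP]; ring
  have hs2g0 : 0 ≤ s2 * (2 * g) := by positivity
  have hX' : X = X0 + Ch * (2 * C) ^ (1 / 8 : ℝ) * (s2 * (2 * g) + t + ζ) ^ (1 / 8 : ℝ) := by
    rw [hX, Real.mul_rpow (by positivity) (by positivity), mul_assoc]
  obtain ⟨x1, -, x3, -⟩ := hX8 A1 hA1 s2 g (c0 * g) t ζ X0 X Lr hs20 hg1 hgA hs' hcg ht ht' hL hζ
    hX00 hX0 hX'
  have hts : t / s2 ≤ Real.exp (-(1 / 100) * y) := by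
    rw [div_le_iff₀ hs20]
    calc t ≤ Real.exp (-(161 / 80) * y) := ht'
      _ ≤ Real.exp (-(1 / 100) * y) * (v * Real.exp (-2 * y)) := by
          rw [hvd, ex_mul, ex_mul]
          exact hexle hy1 _ _ (by norm_num)
      _ ≤ _ := by gcongr
  have hts1 : t ≤ s2 := by
    have h1 : t / s2 ≤ 1 := hts.trans (Real.exp_le_one_iff.2 (by linarith))
    rwa [div_le_one hs20] at h1
  refine ⟨x1, ?_, ?_, ?_, ?_, ?_, ?_⟩
  · have h1 : C * (s2 * (2 * g)) ≤ 1 / 2 := by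
      calc C * (s2 * (2 * g)) ≤ C * (2 * (b ^ 2 * A2) * y ^ 2 * Real.exp (-2 * y)) := by gcongr
        _ = 1 / 2 * (4 * C * (b ^ 2 * A2) * y ^ 2 * Real.exp (-2 * y)) := by ring
        _ ≤ 1 / 2 * 1 := by gcongr
        _ = _ := mul_one _
    have h2 : C * t ≤ 1 / 2 := by
      calc C * t ≤ C * Real.exp (-(161 / 80) * y) := by gcongr
        _ = 1 / 2 * (2 * C * Real.exp (-(161 / 80) * y)) := by ring
        _ ≤ 1 / 2 * 1 := by gcongr
        _ = _ := mul_one _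
    linarith
  · have h1 : s2 * (2 * g) ≤ κ / 4 := by
      refine hs2g.trans ?_
      calc 2 * (b ^ 2 * A2) * y ^ 2 * Real.exp (-2 * y) =
            κ / 4 * (2 * (2 / κ) * (2 * (b ^ 2 * A2)) * y ^ 2 * Real.exp (-2 * y)) := by
            field_simp
            norm_num
        _ ≤ κ / 4 * 1 := by gcongr
        _ = _ := mul_one _
    have h2 : ζ ≤ κ / 4 := by
      rw [hζ]
      calc Real.exp (-10 * y) = κ / 4 * (2 * (2 / κ) * Real.exp (-10 * y)) := by
            field_simp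
            norm_num
        _ ≤ κ / 4 * 1 := by gcongr
        _ = _ := mul_one _
    linarith
  · rw [hδ]
    exact hs2g.trans m5
  · have h1 : s2 * (2 * g) ≤ κ ^ 2 * ml / 32 := by
      refine hs2g.trans ?_
      calc 2 * (b ^ 2 * A2) * y ^ 2 * Real.exp (-2 * y) =
            κ ^ 2 * ml / 32 * (2 * (16 / (κ ^ 2 * ml)) * (2 * (b ^ 2 * A2)) * y ^ 2 *
              Real.exp (-2 * y)) := by
            field_simp
            norm_num
        _ ≤ κ ^ 2 * ml / 32 * 1 := by gcongr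
        _ = _ := mul_one _
    have h2 : t ≤ κ ^ 2 * ml / 32 := by
      refine ht'.trans ?_
      calc Real.exp (-(161 / 80) * y) = κ ^ 2 * ml / 32 * (2 * (16 / (κ ^ 2 * ml)) *
              Real.exp (-(161 / 80) * y)) := by
            field_simp
            norm_num
        _ ≤ κ ^ 2 * ml / 32 * 1 := by gcongr
        _ = _ := mul_one _
    linarith
  · have h1 : c0 * g * s2 / t ≤ 1 := hcgs.trans (Real.exp_le_one_iff.2 (by linarith))
    rwa [div_le_one ht0] at h1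
  -- the final bound
  obtain ⟨r, hr⟩ : ∃ r, r = s2 / t := ⟨_, rfl⟩
  have hr1 : 1 ≤ r := by rw [hr, le_div_iff₀ ht0]; linarith
  have hr0 : 0 < r := by linarith
  have hr2 : r ≤ b ^ 2 * Real.exp (1 / 40 * y) := by
    rw [hr, div_eq_mul_inv]
    calc s2 * t⁻¹ ≤ (b ^ 2 * Real.exp (-2 * y)) * Real.exp (81 / 40 * y) := by gcongr
      _ = _ := by
        rw [mul_assoc, ex_mul]
        norm_num
  have hP0 : 0 < P := by linarith
  obtain ⟨x, hx⟩ : ∃ x, x = Real.exp (-(1 / 20) * y) := ⟨_, rfl⟩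
  have hx0 : 0 < x := by rw [hx]; positivity
  have hxl : ∀ a : ℝ, a ≤ -(1 / 20) → Real.exp (a * y) ≤ x := by
    intro a ha
    rw [hx]
    exact hexle hy1 _ _ ha
  have herr0 : 0 ≤ err := by
    rw [herr, ← htηδ, hH]
    positivity
  have herrr : err * r ≤ CE * P * x := by
    have e0' : err * r = ε * (g1 + g) * r + ε * (2 * δ * (3 * g / ml)) * t⁻¹ +
        (9 / ml) * (c0 * g * (1 + 3 * e1) + 2 * g * (c0 * g * s2 / t)) + 18 * e1 * g / ml := by
      rw [herr, ← htηδ, hH, hr]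
      field_simp
      ring
    rw [e0']
    have t1 : ε * (g1 + g) * r ≤ 2 * b ^ 2 * P * x := by
      calc ε * (g1 + g) * r ≤ ε * (P + P) * (b ^ 2 * Real.exp (1 / 40 * y)) := by gcongr
        _ = 2 * b ^ 2 * P * (Real.exp (-(17 / 50) * y) * Real.exp (1 / 40 * y)) := by
            rw [hε]
            ring
        _ ≤ 2 * b ^ 2 * P * x := by
            rw [ex_mul]
            have := hxl (-(17 / 50) + 1 / 40) (by norm_num)
            gcongr
    have t2 : ε * (2 * δ * (3 * g / ml)) * t⁻¹ ≤ 6 / ml * P * x := by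
      calc ε * (2 * δ * (3 * g / ml)) * t⁻¹ ≤ ε * (2 * δ * (3 * P / ml)) *
            Real.exp (81 / 40 * y) := by gcongr
        _ = 6 / ml * P * (Real.exp (-(17 / 50) * y) * Real.exp (-(97 / 50) * y) *
            Real.exp (81 / 40 * y)) := by
            rw [hε, hδ]
            ring
        _ ≤ 6 / ml * P * x := by
            rw [ex_mul, ex_mul]
            have := hxl (-(17 / 50) + -(97 / 50) + 81 / 40) (by norm_num)
            gcongr
    have t3 : (9 / ml) * (c0 * g * (1 + 3 * e1) + 2 * g * (c0 * g * s2 / t)) ≤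
        (36 / ml + 18 / ml) * P * x := by
      have q1 : c0 * g * (1 + 3 * e1) ≤ 4 * (P * x) := by
        have q0 : c0 * g ≤ x := hcg.trans (hxl _ (by norm_num))
        have q2 : c0 * g * (1 + 3 * e1) ≤ x * 4 := by
          apply mul_le_mul q0 (by linarith) (by positivity) hx0.le
        have q3 : x ≤ P * x := le_mul_of_one_le_left hx0.le hP1
        linarith
      have q4 : 2 * g * (c0 * g * s2 / t) ≤ 2 * (P * x) := by
        have q0 : c0 * g * s2 / t ≤ x := hcgs.trans (hxl _ (by norm_num))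
        calc 2 * g * (c0 * g * s2 / t) ≤ 2 * P * x := by gcongr
          _ = _ := by ring
      calc (9 / ml) * (c0 * g * (1 + 3 * e1) + 2 * g * (c0 * g * s2 / t)) ≤
            (9 / ml) * (4 * (P * x) + 2 * (P * x)) := by gcongr
        _ = _ := by ring
    have t4 : 18 * e1 * g / ml ≤ 18 / ml * P * x := by
      have q0 : e1 ≤ x := by
        rw [he1]
        exact hxl _ (by norm_num)
      calc 18 * e1 * g / ml ≤ 18 * x * P / ml := by gcongr
        _ = _ := by ring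
    rw [hCE]
    calc _ ≤ 2 * b ^ 2 * P * x + 6 / ml * P * x + (36 / ml + 18 / ml) * P * x +
          18 / ml * P * x := by linarith only [t1, t2, t3, t4]
      _ = _ := by ring
  have hK0 : 0 < K := by linarith
  have hU0 : 0 < Uu := lt_of_lt_of_le (by positivity) hUu
  have hfac : 4 * W * (2 * C ^ 2 * (W * s2) ^ 2 + 16 * d * Uu) / (c2 * (8 * d * Uu)) ≤
      A * (10 * Bc * r / K + 16 * d) := by
    have e1' : 4 * W * (2 * C ^ 2 * (W * s2) ^ 2 + 16 * d * Uu) / (c2 * (8 * d * Uu)) =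
        A * (Bc * s2 ^ 2 / Uu + 16 * d) := by
      rw [hA, hBc]
      field_simp
    rw [e1']
    apply mul_le_mul_of_nonneg_left _ hA0.le
    have e2' : Bc * s2 ^ 2 / Uu ≤ 10 * Bc * r / K := by
      calc Bc * s2 ^ 2 / Uu ≤ Bc * s2 ^ 2 / (K * (t * s2) / 10) := by gcongr
        _ = _ := by
          rw [hr]
          field_simp
    linarith
  have hfin : (t / s2 + err) * (A * (10 * Bc * r / K + 16 * d)) ≤ e0 := by
    have e3' : (t / s2) * r = 1 := by
      rw [hr]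
      field_simp
    have e4' : (t / s2 + err) * (A * (10 * Bc * r / K + 16 * d)) =
        A * (10 * Bc / K) + A * (16 * d) * (t / s2) + A * (10 * Bc / K) * (err * r) +
          A * (16 * d) * err := by
      calc _ = A * (10 * Bc / K) * ((t / s2) * r) + A * (16 * d) * (t / s2) +
            A * (10 * Bc / K) * (err * r) + A * (16 * d) * err := by ring
        _ = _ := by rw [e3']; ring
    rw [e4']
    have u1 : A * (10 * Bc / K) ≤ e0 / 4 := by
      have : A * (10 * Bc / K) = (40 * A * Bc) / K / 4 := by ring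
      rw [this]
      have : (40 * A * Bc) / K ≤ e0 := by
        rw [div_le_iff₀ hK0]
        exact hK
      linarith
    have u2 : A * (16 * d) * (t / s2) ≤ e0 / 4 := by
      calc A * (16 * d) * (t / s2) ≤ A * (16 * d) * Real.exp (-(1 / 100) * y) := by gcongr
        _ = e0 / 4 * (A * (16 * d) * (4 / e0) * Real.exp (-(1 / 100) * y)) := by
            field_simp
        _ ≤ e0 / 4 * 1 := by gcongr
        _ = _ := mul_one _
    have u3 : A * (10 * Bc / K) * (err * r) + A * (16 * d) * err ≤ e0 / 2 := by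
      have w1 : err ≤ err * r := le_mul_of_one_le_right herr0 hr1
      have w2 : 10 * Bc / K ≤ 10 * Bc := div_le_self (by positivity) hK1
      calc A * (10 * Bc / K) * (err * r) + A * (16 * d) * err ≤
            A * (10 * Bc) * (err * r) + A * (16 * d) * (err * r) := by gcongr
        _ = A * (10 * Bc + 16 * d) * (err * r) := by ring
        _ ≤ A * (10 * Bc + 16 * d) * (CE * P * x) := by gcongr
        _ = e0 / 2 * (A * (10 * Bc + 16 * d) * (2 / e0) * (CE * A2) * y ^ 2 * x) := by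
            rw [hP]
            field_simp
        _ ≤ e0 / 2 * 1 := by
            rw [hx]
            gcongr
        _ = _ := mul_one _
    linarith
  refine (mul_le_mul_of_nonneg_left hfac ?_).trans hfin
  positivity

/-- the size of the momentum on the torus -/
theorem geoP (d : ℕ) (K : ℝ) (hK : 1 ≤ K) :
    ∀ᶠ y : ℝ in atTop, ∀ v s2 t : ℝ, v = Real.exp (-(1 / 3000) * y) →
    v * Real.exp (-2 * y) ≤ s2 → Real.exp (-(81 / 40) * y) ≤ t → ∀ (M : ℕ) [NeZero M],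
    Real.exp (6 * y) ≤ M → ∀ (p : Fin d → ℝ) (n : Fin d → ℤ), (∀ i, |p i| ≤ Real.pi) →
    (∀ i, |p i - 2 * Real.pi * n i / M| ≤ 7 / M) → K * (t * s2) ≤ ∑ i, p i ^ 2 →
      K * (t * s2) / 10 ≤ ∑ i, (1 - cg (d := d) (L := M) i (fun i => ((n i : ℤ) : ZMod M))) := by
  filter_upwards [eventually_ge_atTop 1, ev2 (70 * d) (-6) (-(81 / 40 + 2 + 1 / 3000)) 0
    (by norm_num)] with y hy1 m1
  simp only [pow_zero, mul_one] at m1
  intro v s2 t hv hs ht M hM hML p n hp hpn hsum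
  have hMp : (0 : ℝ) < M := lt_of_lt_of_le (Real.exp_pos _) hML
  have hv0 : 0 < v := by rw [hv]; positivity
  have hs0 : 0 < s2 := lt_of_lt_of_le (by positivity) hs
  have ht0 : 0 < t := lt_of_lt_of_le (Real.exp_pos _) ht
  have hpi := Real.pi_pos
  have hMi : (7 : ℝ) / M ≤ 7 * Real.exp (-6 * y) := by
    rw [div_eq_mul_inv]
    apply mul_le_mul_of_nonneg_left _ (by norm_num)
    have h1 := inv_anti₀ (Real.exp_pos _) hML
    rw [ex_inv] at h1
    norm_num at h1 ⊢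
    exact h1
  have h1 : ∀ i, 2 / Real.pi ^ 2 * p i ^ 2 - 7 * Real.exp (-6 * y) ≤
      1 - cg (d := d) (L := M) i (fun i => ((n i : ℤ) : ZMod M)) := by
    intro i
    rw [cg_int]
    have a1 := Real.cos_le_one_sub_mul_cos_sq (hp i)
    have a2 : |Real.cos (2 * Real.pi * n i / M) - Real.cos (p i)| ≤ 7 * Real.exp (-6 * y) := by
      have a3 := Real.abs_cos_sub_cos_le (2 * Real.pi * n i / M) (p i)
      rw [abs_sub_comm (2 * Real.pi * n i / M)] at a3
      exact a3.trans ((hpn i).trans hMi)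
    linarith [(abs_le.1 a2).2]
  have h2 : 2 / Real.pi ^ 2 * ∑ i, p i ^ 2 - d * (7 * Real.exp (-6 * y)) ≤
      ∑ i, (1 - cg (d := d) (L := M) i (fun i => ((n i : ℤ) : ZMod M))) := by
    refine le_trans (le_of_eq ?_) (Finset.sum_le_sum fun i _ => h1 i)
    rw [Finset.sum_sub_distrib, ← Finset.mul_sum, Finset.sum_const, Finset.card_univ,
      Fintype.card_fin, nsmul_eq_mul]
  have h3 : (1 : ℝ) / 5 ≤ 2 / Real.pi ^ 2 := by
    rw [div_le_div_iff₀ (by norm_num) (by positivity)]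
    have := Real.pi_lt_d2
    nlinarith
  have h4 : Real.exp (-(81 / 40 + 2 + 1 / 3000) * y) ≤ K * (t * s2) := by
    calc Real.exp (-(81 / 40 + 2 + 1 / 3000) * y) =
        1 * (Real.exp (-(81 / 40) * y) * (v * Real.exp (-2 * y))) := by
          rw [hv, ex_mul, ex_mul, one_mul]
          congr 1
          ring
      _ ≤ _ := by gcongr
  have h5 : 1 / 5 * (K * (t * s2)) ≤ 2 / Real.pi ^ 2 * ∑ i, p i ^ 2 := by
    apply mul_le_mul h3 hsum (by positivity) (by positivity)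
  have h6 : d * (7 * Real.exp (-6 * y)) ≤ K * (t * s2) / 10 := by
    have := m1.trans h4
    linarith
  linarith

end Pool.Agent.Q218.LE
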