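import Pool.Agent.Q218.LE.Law
import Pool.Agent.W788.LD.Uni

/-! The theorems for the Gaussian and the uniform laws. -/

set_option autoImplicit false
set_option linter.unusedSectionVars false

open scoped BigOperators Topology
open MeasureTheory Filter Set ProbabilityTheory

namespace Pool.Agent.Q218.LE

open Pool.Agent.H4R2.LO (Zd dd bx)
open Pool.Agent.W788.LD.Uni (unif unif_prob unif_bdd unif_mean)

/-- the conclusion for a law -/
def Concl (d : ℕ) (μ : Measure ℝ) : Prop :=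
  ∀ ε : ℝ, 0 < ε → ∃ l0 : ℝ, 0 < l0 ∧ ∀ lam : ℝ, 0 < lam → lam ≤ l0 →
    ∀ a0 : Zd d → ℝ, (∀ x, |a0 x| ≤ 1) →
    (∀ (b : Zd d) (L : ℕ), lam ^ (-(21 / 10) : ℝ) ≤ L →
      ∃ G : Set (Zd d → ℝ), MeasurableSet G ∧
        (Measure.infinitePi fun _ : Zd d => μ).real Gᶜ ≤
          Real.exp (-(lam ^ (206 / 100 : ℝ) * (bx b L).card)) ∧
        ∀ ω ∈ G, Good d lam (206 / 100 / d) ε a0 ω b L) ∧
    (∃ G : Set (Zd d → ℝ), MeasurableSet G ∧
      (Measure.infinitePi fun _ : Zd d => μ).real Gᶜ ≤ Real.exp (-(lam ^ (-(21 / 10) : ℝ))) ∧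
      ∀ ω ∈ G, ∀ (b : Zd d) (L : ℕ), lam ^ (-(21 / 10) : ℝ) ≤ L →
        Real.log (1 + ‖b‖) ≤ lam ^ (21 / 10 : ℝ) * (bx b L).card →
          Good d lam (206 / 100 / d) ε a0 ω b L) ∧
    (∀ᵐ ω ∂(Measure.infinitePi fun _ : Zd d => μ), ∃ L0 : ℕ, ∀ (b : Zd d) (L : ℕ), L0 ≤ L →
        Real.log (1 + ‖b‖) ≤ lam ^ (21 / 10 : ℝ) * (bx b L).card →
          Good d lam (206 / 100 / d) ε a0 ω b L)

theorem gauLE (hLIP : S_LIP) (hGAU : S_GAU) (hSPL : S_SPL) (hNET : S_NET) (hCUBE : S_CUBE)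
    (hEXP : S_EXP) (d : ℕ) (hd : 2 ≤ d) (G0 G1 : ℝ → ℝ) (hF : FreeE d G0 G1) :
    Concl d (gaussianReal 0 1) := by
  intro ε hε
  have hd0 : (0 : ℝ) < d := by
    have : 0 < d := by omega
    exact_mod_cast this
  refine concD hLIP hGAU hSPL hNET hCUBE hEXP d hd G0 G1 hF (gaussianReal 0 1) glipG 0 1 one_pos
    Pool.Agent.Q218.UD.gi1 Pool.Agent.Q218.UD.gi2 Pool.Agent.Q218.UD.gM Pool.Agent.Q218.UD.gV
    (tailG d) (206 / 100 / d) ε (le_of_eq ?_) ?_ hε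
  · field_simp
  · rw [div_le_iff₀ hd0]
    have : (2 : ℝ) ≤ d := by exact_mod_cast hd
    linarith

theorem unif_sq : ∫ s, (s - 0) ^ 2 ∂(unif 1) = 1 / 3 := by
  unfold unif
  rw [integral_smul_measure, integral_Icc_eq_integral_Ioc,
    ← intervalIntegral.integral_of_le (by norm_num)]
  simp only [sub_zero, integral_pow]
  rw [ENNReal.toReal_ofReal (by norm_num)]
  norm_num

theorem uniLE (hLIP : S_LIP) (hGAU : S_GAU) (hSPL : S_SPL) (hNET : S_NET) (hCUBE : S_CUBE)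
    (hEXP : S_EXP) (hUNI : S_UNI) (d : ℕ) (hd : 2 ≤ d) (G0 G1 : ℝ → ℝ) (hF : FreeE d G0 G1) :
    Concl d (unif 1) := by
  intro ε hε
  have hd0 : (0 : ℝ) < d := by
    have : 0 < d := by omega
    exact_mod_cast this
  have hp : IsProbabilityMeasure (unif 1) := unif_prob 1 one_pos
  have hbd : ∀ᵐ s ∂(unif 1), |s - 0| ≤ 1 := by
    filter_upwards [unif_bdd 1] with s hs
    rwa [sub_zero]
  have hi1 : Integrable (fun s : ℝ => s) (unif 1) :=
    Integrable.of_bound (C := 1) (by fun_prop) (by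
      filter_upwards [unif_bdd 1] with s hs
      rwa [Real.norm_eq_abs])
  have hi2 : Integrable (fun s : ℝ => (s - 0) ^ 2) (unif 1) :=
    Integrable.of_bound (C := 1) (by fun_prop) (by
      filter_upwards [unif_bdd 1] with s hs
      rw [sub_zero, Real.norm_eq_abs, abs_pow]
      exact pow_le_one₀ (abs_nonneg _) hs)
  have hg : GLip (unif 1) := by
    obtain ⟨g, hg1, hg2⟩ := hUNI
    refine ⟨g, hg1, hg2.trans ?_⟩
    unfold unif
    norm_num
  refine concD hLIP hGAU hSPL hNET hCUBE hEXP d hd G0 G1 hF (unif 1) hg 0 (1 / 3) (by norm_num)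
    hi1 hi2 (unif_mean 1 one_pos) unif_sq
    (tailB d (unif 1) 0 1 one_pos hbd) (206 / 100 / d) ε (le_of_eq ?_) ?_ hε
  · field_simp
  · rw [div_le_iff₀ hd0]
    have : (2 : ℝ) ≤ d := by exact_mod_cast hd
    linarith

end Pool.Agent.Q218.LE
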